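import Mathlib

/-! Product measure expectations on subsets of a finite set, discrete derivatives. -/

namespace Pool.Agent.Helper729_cluster

open Finset

variable {α : Type*} [DecidableEq α]

/-- Expectation of `g` of a random subset of `S`, each element being kept with probability `p`. -/
noncomputable def E (p : ℝ) (S : Finset α) (g : Finset α → ℝ) : ℝ :=
  ∑ A ∈ S.powerset, p ^ A.card * (1 - p) ^ (S.card - A.card) * g A

/-- Discrete derivative in direction `t`. -/
def D (t : α) (g : Finset α → ℝ) (A : Finset α) : ℝ := g (insert t A) - g (A.erase t)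

/-- `g` after adding `t`. -/
def up1 (t : α) (g : Finset α → ℝ) (A : Finset α) : ℝ := g (insert t A)

omit [DecidableEq α] in
@[simp] theorem E_empty (p : ℝ) (g : Finset α → ℝ) : E p ∅ g = g ∅ := by
  simp [E]

omit [DecidableEq α] in
theorem E_congr {p : ℝ} {S : Finset α} {g h : Finset α → ℝ} (H : ∀ A ⊆ S, g A = h A) :
    E p S g = E p S h := by
  unfold E
  refine Finset.sum_congr rfl fun A hA => ?_
  rw [H A (Finset.mem_powerset.1 hA)]

theorem E_insert (p : ℝ) {S : Finset α} {t : α} (ht : t ∉ S) (g : Finset α → ℝ) :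
    E p (insert t S) g = p * E p S (up1 t g) + (1 - p) * E p S g := by
  unfold E
  rw [Finset.sum_powerset_insert ht]
  rw [add_comm, Finset.mul_sum, Finset.mul_sum]
  congr 1
  · refine Finset.sum_congr rfl fun A hA => ?_
    have hA' := Finset.mem_powerset.1 hA
    have htA : t ∉ A := fun h => ht (hA' h)
    rw [Finset.card_insert_of_notMem ht, Finset.card_insert_of_notMem htA]
    have : S.card + 1 - (A.card + 1) = S.card - A.card := by omega
    rw [this, pow_succ, up1]
    ring
  · refine Finset.sum_congr rfl fun A hA => ?_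
    have hA' := Finset.mem_powerset.1 hA
    have hc := Finset.card_le_card hA'
    rw [Finset.card_insert_of_notMem ht]
    have : S.card + 1 - A.card = (S.card - A.card) + 1 := by omega
    rw [this, pow_succ]
    ring

omit [DecidableEq α] in
theorem E_add (p : ℝ) (S : Finset α) (g h : Finset α → ℝ) :
    E p S (fun A => g A + h A) = E p S g + E p S h := by
  unfold E
  rw [← Finset.sum_add_distrib]
  refine Finset.sum_congr rfl fun A _ => ?_
  ring

omit [DecidableEq α] in
theorem E_sub (p : ℝ) (S : Finset α) (g h : Finset α → ℝ) :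
    E p S (fun A => g A - h A) = E p S g - E p S h := by
  unfold E
  rw [← Finset.sum_sub_distrib]
  refine Finset.sum_congr rfl fun A _ => ?_
  ring

omit [DecidableEq α] in
theorem E_smul (p : ℝ) (S : Finset α) (c : ℝ) (g : Finset α → ℝ) :
    E p S (fun A => c * g A) = c * E p S g := by
  unfold E
  rw [Finset.mul_sum]
  refine Finset.sum_congr rfl fun A _ => ?_
  ring

theorem E_const (p : ℝ) (S : Finset α) (c : ℝ) : E p S (fun _ => c) = c := by
  induction S using Finset.induction_on with
  | empty => simp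
  | insert t S ht ih =>
    rw [E_insert p ht]
    have : up1 t (fun _ : Finset α => c) = fun _ => c := rfl
    rw [this, ih]
    ring

omit [DecidableEq α] in
theorem E_mono {p : ℝ} (h0 : 0 ≤ p) (h1 : p ≤ 1) {S : Finset α} {g h : Finset α → ℝ}
    (H : ∀ A ⊆ S, g A ≤ h A) : E p S g ≤ E p S h := by
  unfold E
  refine Finset.sum_le_sum fun A hA => ?_
  have : 0 ≤ p ^ A.card * (1 - p) ^ (S.card - A.card) :=
    mul_nonneg (pow_nonneg h0 _) (pow_nonneg (by linarith) _)
  exact mul_le_mul_of_nonneg_left (H A (Finset.mem_powerset.1 hA)) this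

omit [DecidableEq α] in
theorem E_nonneg {p : ℝ} (h0 : 0 ≤ p) (h1 : p ≤ 1) {S : Finset α} {g : Finset α → ℝ}
    (H : ∀ A ⊆ S, 0 ≤ g A) : 0 ≤ E p S g := by
  unfold E
  refine Finset.sum_nonneg fun A hA => ?_
  have : 0 ≤ p ^ A.card * (1 - p) ^ (S.card - A.card) :=
    mul_nonneg (pow_nonneg h0 _) (pow_nonneg (by linarith) _)
  exact mul_nonneg this (H A (Finset.mem_powerset.1 hA))

theorem E_le_one {p : ℝ} (h0 : 0 ≤ p) (h1 : p ≤ 1) {S : Finset α} {g : Finset α → ℝ}
    (H : ∀ A ⊆ S, g A ≤ 1) : E p S g ≤ 1 := by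
  calc E p S g ≤ E p S (fun _ => 1) := E_mono h0 h1 H
    _ = 1 := E_const p S 1

theorem up1_mono {t : α} {g : Finset α → ℝ} (hg : Monotone g) : Monotone (up1 t g) := by
  intro A B hAB
  exact hg (Finset.insert_subset_insert t hAB)

theorem le_up1 {t : α} {g : Finset α → ℝ} (hg : Monotone g) (A : Finset α) : g A ≤ up1 t g A :=
  hg (Finset.subset_insert t A)

theorem E_le_E_up1 {p : ℝ} (h0 : 0 ≤ p) (h1 : p ≤ 1) {S : Finset α} {t : α}
    {g : Finset α → ℝ} (hg : Monotone g) : E p S g ≤ E p S (up1 t g) :=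
  E_mono h0 h1 fun A _ => le_up1 hg A

end Pool.Agent.Helper729_cluster
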