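import Mathlib
import Pool.Agent.Helper729_cluster.Basic

/-! Part of the proof of MP_b0b8df_co. -/

namespace Pool.Agent.Helper729_cluster

open Finset

variable {α : Type*} [DecidableEq α]

/-- averaged function -/
def gb (p : ℝ) (t : α) (g : Finset α → ℝ) (A : Finset α) : ℝ := p * g (insert t A) + (1 - p) * g A

/-- difference function -/
def hd (t : α) (g : Finset α → ℝ) (A : Finset α) : ℝ := g (insert t A) - g A

theorem E_ins_avg (p : ℝ) {S : Finset α} {t : α} (ht : t ∉ S) (g : Finset α → ℝ) :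
    E p (insert t S) g = E p S (fun A => p * up1 t g A + (1 - p) * g A) := by
  rw [E_insert p ht, E_add, E_smul, E_smul]

theorem E_ins_gb (p : ℝ) {S : Finset α} {t : α} (ht : t ∉ S) (g : Finset α → ℝ) :
    E p (insert t S) g = E p S (gb p t g) := by
  rw [E_ins_avg p ht]; rfl

theorem E_ins_sq (p : ℝ) {S : Finset α} {t : α} (ht : t ∉ S) (g : Finset α → ℝ) :
    E p (insert t S) (fun A => g A ^ 2) =
      E p S (fun A => gb p t g A ^ 2) + p * (1 - p) * E p S (fun A => hd t g A ^ 2) := by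
  rw [E_ins_avg p ht, ← E_smul, ← E_add]
  apply E_congr
  intro A _
  simp only [up1, gb, hd]
  ring

theorem var_ins (p : ℝ) {S : Finset α} {t : α} (ht : t ∉ S) (g : Finset α → ℝ) :
    E p (insert t S) (fun A => g A ^ 2) - (E p (insert t S) g) ^ 2 =
      (E p S (fun A => gb p t g A ^ 2) - (E p S (gb p t g)) ^ 2) +
        p * (1 - p) * E p S (fun A => hd t g A ^ 2) := by
  rw [E_ins_sq p ht, E_ins_gb p ht]; ring

theorem D_ne {t s : α} (hst : s ≠ t) (g : Finset α → ℝ) (A : Finset α) :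
    D s g (insert t A) = g (insert t (insert s A)) - g (insert t (A.erase s)) := by
  unfold D
  rw [Finset.insert_comm, Finset.erase_insert_of_ne (Ne.symm hst)]

theorem D_gb (p : ℝ) {t s : α} (hst : s ≠ t) (g : Finset α → ℝ) (A : Finset α) :
    D s (gb p t g) A = p * D s g (insert t A) + (1 - p) * D s g A := by
  rw [D_ne hst]
  simp only [D, gb]
  ring

theorem D_hd {t s : α} (hst : s ≠ t) (g : Finset α → ℝ) (A : Finset α) :
    D s (hd t g) A = D s g (insert t A) - D s g A := by
  rw [D_ne hst]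
  simp only [D, hd]
  ring

theorem gb_D (p : ℝ) {t s : α} (hst : s ≠ t) (g : Finset α → ℝ) (A : Finset α) :
    gb p t (D s g) A = D s (gb p t g) A := by
  rw [D_gb p hst]; rfl

theorem hd_D {t s : α} (hst : s ≠ t) (g : Finset α → ℝ) (A : Finset α) :
    hd t (D s g) A = D s (hd t g) A := by
  rw [D_hd hst]; rfl

theorem D_self_ins {t : α} {A : Finset α} (hA : t ∉ A) (g : Finset α → ℝ) :
    D t g (insert t A) = hd t g A := by
  unfold D hd
  rw [Finset.insert_idem, Finset.erase_insert hA]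

theorem D_self {t : α} {A : Finset α} (hA : t ∉ A) (g : Finset α → ℝ) :
    D t g A = hd t g A := by
  unfold D hd
  rw [Finset.erase_eq_of_notMem hA]

theorem E_D_sq_self (p : ℝ) {S : Finset α} {t : α} (ht : t ∉ S) (g : Finset α → ℝ) :
    E p (insert t S) (fun A => D t g A ^ 2) = E p S (fun A => hd t g A ^ 2) := by
  rw [E_ins_avg p ht]
  apply E_congr
  intro A hA
  have : t ∉ A := fun h => ht (hA h)
  simp only [up1]
  rw [D_self_ins this, D_self this]
  ring

theorem E_D_self (p : ℝ) {S : Finset α} {t : α} (ht : t ∉ S) (g : Finset α → ℝ) :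
    E p (insert t S) (D t g) = E p S (hd t g) := by
  rw [E_ins_avg p ht]
  apply E_congr
  intro A hA
  have : t ∉ A := fun h => ht (hA h)
  simp only [up1]
  rw [D_self_ins this, D_self this]
  ring

theorem E_D_sq_ne (p : ℝ) {S : Finset α} {t s : α} (ht : t ∉ S) (hst : s ≠ t)
    (g : Finset α → ℝ) :
    E p (insert t S) (fun A => D s g A ^ 2) =
      E p S (fun A => D s (gb p t g) A ^ 2) +
        p * (1 - p) * E p S (fun A => D s (hd t g) A ^ 2) := by
  rw [E_ins_sq p ht]
  simp only [gb_D p hst, hd_D hst]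

theorem E_D_ne (p : ℝ) {S : Finset α} {t s : α} (ht : t ∉ S) (hst : s ≠ t)
    (g : Finset α → ℝ) :
    E p (insert t S) (D s g) = E p S (D s (gb p t g)) := by
  rw [E_ins_gb p ht]
  apply E_congr
  intro A _
  exact gb_D p hst g A

theorem en_ins (p : ℝ) {S : Finset α} {t : α} (ht : t ∉ S) (g : Finset α → ℝ) :
    ∑ s ∈ insert t S, E p (insert t S) (fun A => (D s g A) ^ 2) =
      E p S (fun A => hd t g A ^ 2) + ∑ s ∈ S, E p S (fun A => D s (gb p t g) A ^ 2) +
        p * (1 - p) * ∑ s ∈ S, E p S (fun A => D s (hd t g) A ^ 2) := by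
  rw [Finset.sum_insert ht, E_D_sq_self p ht, Finset.mul_sum, add_assoc, ← Finset.sum_add_distrib]
  congr 1
  apply Finset.sum_congr rfl
  intro s hs
  exact E_D_sq_ne p ht (fun h => ht (h ▸ hs)) g

theorem w_ins (p : ℝ) {S : Finset α} {t : α} (ht : t ∉ S) (g : Finset α → ℝ) :
    ∑ s ∈ insert t S, (E p (insert t S) (D s g)) ^ 2 =
      (E p S (hd t g)) ^ 2 + ∑ s ∈ S, (E p S (D s (gb p t g))) ^ 2 := by
  rw [Finset.sum_insert ht, E_D_self p ht]
  congr 1
  apply Finset.sum_congr rfl
  intro s hs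
  rw [E_D_ne p ht (fun h => ht (h ▸ hs)) g]

/-- TARGET 1 (Poincare). -/
theorem poincare (p : ℝ) (h0 : 0 ≤ p) (h1 : p ≤ 1) (S : Finset α) (g : Finset α → ℝ) :
    E p S (fun A => g A ^ 2) - (E p S g) ^ 2 ≤
      p * (1 - p) * ∑ t ∈ S, E p S (fun A => (D t g A) ^ 2) := by
  induction S using Finset.induction_on generalizing g with
  | empty => simp [E_empty]
  | insert t S ht ih =>
    rw [var_ins p ht, en_ins p ht]
    have hp : 0 ≤ p * (1 - p) := mul_nonneg h0 (by linarith)
    have i1 := ih (gb p t g)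
    have i2 : 0 ≤ p * (1 - p) * ∑ s ∈ S, E p S (fun A => D s (hd t g) A ^ 2) :=
      mul_nonneg hp (Finset.sum_nonneg fun s _ => E_nonneg h0 h1 fun A _ => sq_nonneg _)
    have i3 := mul_nonneg hp i2
    nlinarith [i1, i2, i3]

/-- TARGET 2 (energy inequality). -/
theorem energy (p : ℝ) (h0 : 0 ≤ p) (h1 : p ≤ 1) (S : Finset α) (g : Finset α → ℝ) :
    2 * (E p S (fun A => g A ^ 2) - (E p S g) ^ 2) ≤
      p * (1 - p) * ∑ t ∈ S, E p S (fun A => (D t g A) ^ 2) +
      p * (1 - p) * ∑ t ∈ S, (E p S (D t g)) ^ 2 := by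
  induction S using Finset.induction_on generalizing g with
  | empty => simp [E_empty]
  | insert t S ht ih =>
    rw [var_ins p ht, en_ins p ht, w_ins p ht]
    have hp : 0 ≤ p * (1 - p) := mul_nonneg h0 (by linarith)
    have i1 := ih (gb p t g)
    have i2 := poincare p h0 h1 S (hd t g)
    have i3 := mul_le_mul_of_nonneg_left i2 hp
    nlinarith [i1, i2, i3]

end Pool.Agent.Helper729_cluster
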