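import Mathlib
import Pool.Agent.Helper729_cluster.Basic

/-! First potential lemma. -/

namespace Pool.Agent.Helper729_cluster

open Finset

variable {α : Type*} [DecidableEq α]

/-- `w ≤ (1+δ) log(1+w)` for `0 ≤ w ≤ δ`. -/
theorem w_le_log {w δ : ℝ} (hw : 0 ≤ w) (hwd : w ≤ δ) : w ≤ (1 + δ) * Real.log (1 + w) := by
  have h1 : 0 < 1 + w := by linarith
  have h2 := Real.one_sub_inv_le_log_of_pos h1
  have h3 : w / (1 + w) = 1 - (1 + w)⁻¹ := by field_simp; ring
  have h4 : w ≤ (1 + δ) * (w / (1 + w)) := by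
    rw [mul_div_assoc', le_div_iff₀ h1]
    nlinarith
  calc w ≤ (1 + δ) * (w / (1 + w)) := h4
    _ ≤ (1 + δ) * Real.log (1 + w) := by
      rw [h3]
      exact mul_le_mul_of_nonneg_left h2 (by linarith)

theorem caseN_pt {p δ a m0 m1 : ℝ} (hp : 0 ≤ p) (hδ : 0 ≤ δ) (ha : 0 < a)
    (ha1 : a ≤ 1) (h0 : 0 ≤ m0) (h01 : m0 ≤ m1) (hN : m1 ≤ (1 + δ) * m0) :
    (p * m1 + (1 - p) * m0) ^ a ≤ (1 + δ) * p * m1 ^ a + (1 - (1 + δ) * p) * m0 ^ a := by
  rcases h0.eq_or_lt with h | h
  · have hm1 : m1 = 0 := by subst h; simp at hN; linarith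
    subst hm1; rw [← h]
    simp [Real.zero_rpow ha.ne']
  · obtain ⟨w, hw⟩ : ∃ w, m1 = m0 * (1 + w) := ⟨m1 / m0 - 1, by field_simp; ring⟩
    have hw0 : 0 ≤ w := by
      by_contra hc
      push Not at hc
      nlinarith
    have hwd : w ≤ δ := by
      by_contra hc
      push Not at hc
      nlinarith
    have e1 : p * m1 + (1 - p) * m0 = m0 * (1 + p * w) := by rw [hw]; ring
    rw [e1, hw, Real.mul_rpow h.le (by positivity), Real.mul_rpow h.le (by positivity)]
    have hm : 0 < m0 ^ a := Real.rpow_pos_of_pos h a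
    have b1 : (1 + p * w) ^ a ≤ 1 + a * (p * w) := by
      have hpw : (-1 : ℝ) ≤ p * w := by
        have := mul_nonneg hp hw0
        linarith
      exact rpow_one_add_le_one_add_mul_self hpw ha.le ha1
    have b2 : 1 + a * Real.log (1 + w) ≤ (1 + w) ^ a := by
      rw [Real.rpow_def_of_pos (by linarith : (0 : ℝ) < 1 + w)]
      have := Real.add_one_le_exp (Real.log (1 + w) * a)
      linarith
    have b3 := w_le_log hw0 hwd
    have b4 : (1 + p * w) ^ a ≤ 1 + (1 + δ) * p * ((1 + w) ^ a - 1) := by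
      have s1 : a * (p * w) ≤ a * p * ((1 + δ) * Real.log (1 + w)) := by
        have := mul_le_mul_of_nonneg_left b3 (mul_nonneg ha.le hp)
        nlinarith
      have s2 : (1 + δ) * p * (a * Real.log (1 + w)) ≤ (1 + δ) * p * ((1 + w) ^ a - 1) :=
        mul_le_mul_of_nonneg_left (by linarith) (by positivity)
      nlinarith
    nlinarith [mul_le_mul_of_nonneg_left b4 hm.le]

theorem caseF_pt {p a m0 m1 : ℝ} (hp : 0 ≤ p) (hp1 : p ≤ 1) (ha : 0 < a)
    (ha1 : a ≤ 1) (h0 : 0 ≤ m0) (h01 : m0 ≤ m1) :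
    (p * m1 + (1 - p) * m0) ^ a ≤ p ^ a * m1 ^ a + (1 - p ^ a) * m0 ^ a := by
  obtain ⟨r, hr⟩ : ∃ r, r = 1 / a := ⟨_, rfl⟩
  have hr1 : 1 ≤ r := by rw [hr]; rw [le_div_iff₀ ha]; linarith
  have har : a * r = 1 := by rw [hr]; field_simp
  have hra : r * a = 1 := by rw [mul_comm]; exact har
  set x := m1 ^ a with hx
  set y := m0 ^ a with hy
  have hx0 : 0 ≤ x := Real.rpow_nonneg (h0.trans h01) a
  have hy0 : 0 ≤ y := Real.rpow_nonneg h0 a
  have hxy : y ≤ x := Real.rpow_le_rpow h0 h01 ha.le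
  have ex : m1 = x ^ r := by
    rw [hx, ← Real.rpow_mul (h0.trans h01), har, Real.rpow_one]
  have ey : m0 = y ^ r := by
    rw [hy, ← Real.rpow_mul h0, har, Real.rpow_one]
  have key := Real.Lp_add_le_of_nonneg (Finset.univ : Finset (Fin 2))
    (f := ![p ^ a * (x - y), 0]) (g := ![p ^ a * y, (1 - p) ^ a * y]) (p := r) hr1
    (by
      intro i _
      fin_cases i
      · simp only [Fin.zero_eta, Matrix.cons_val_zero]
        exact mul_nonneg (Real.rpow_nonneg hp a) (by linarith)
      · simp)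
    (by
      intro i _
      fin_cases i
      · simp only [Fin.zero_eta, Matrix.cons_val_zero]
        exact mul_nonneg (Real.rpow_nonneg hp a) hy0
      · simp only [Fin.mk_one, Matrix.cons_val_one]
        exact mul_nonneg (Real.rpow_nonneg (by linarith) a) hy0)
  have h1r : 1 / r = a := by rw [hr]; field_simp
  rw [h1r] at key
  simp only [Fin.sum_univ_two, Matrix.cons_val_zero, Matrix.cons_val_one] at key
  have hr0 : r ≠ 0 := by linarith
  have pa : ∀ z : ℝ, 0 ≤ z → (p ^ a * z) ^ r = p * z ^ r := by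
    intro z hz
    rw [Real.mul_rpow (Real.rpow_nonneg hp a) hz, ← Real.rpow_mul hp, har, Real.rpow_one]
  have pb : ∀ z : ℝ, 0 ≤ z → ((1 - p) ^ a * z) ^ r = (1 - p) * z ^ r := by
    intro z hz
    rw [Real.mul_rpow (Real.rpow_nonneg (by linarith) a) hz, ← Real.rpow_mul (by linarith), har,
      Real.rpow_one]
  have e1 : p ^ a * (x - y) + p ^ a * y = p ^ a * x := by ring
  rw [e1, zero_add, pa x hx0, pb y hy0, pa (x - y) (by linarith), pa y hy0,
    Real.zero_rpow hr0, add_zero] at key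
  rw [Real.mul_rpow hp (Real.rpow_nonneg (by linarith) r), ← Real.rpow_mul (sub_nonneg.2 hxy), hra,
    Real.rpow_one] at key
  have e2 : p * y ^ r + (1 - p) * y ^ r = y ^ r := by ring
  rw [e2, ← Real.rpow_mul hy0, hra, Real.rpow_one] at key
  rw [ex, ey]
  have e3 : (x ^ r) ^ a = x := by rw [← Real.rpow_mul hx0, hra, Real.rpow_one]
  linarith

/-- The family where all functions except the `j`-th get `t`. -/
def typ {d : ℕ} (t : α) (f : Fin (d + 1) → Finset α → ℝ) (j i : Fin (d + 1)) : Finset α → ℝ :=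
  if i = j then f i else up1 t (f i)

theorem typ_mono {d : ℕ} {t : α} {f : Fin (d + 1) → Finset α → ℝ} (hf : ∀ i, Monotone (f i))
    (j i : Fin (d + 1)) : Monotone (typ t f j i) := by
  unfold typ
  split_ifs
  · exact hf i
  · exact up1_mono (hf i)

theorem typ_nonneg {d : ℕ} {t : α} {f : Fin (d + 1) → Finset α → ℝ} (hf : ∀ i A, 0 ≤ f i A)
    (j i : Fin (d + 1)) (A : Finset α) : 0 ≤ typ t f j i A := by
  unfold typ up1
  split_ifs
  · exact hf i A
  · exact hf i _

theorem typ_le_one {d : ℕ} {t : α} {f : Fin (d + 1) → Finset α → ℝ} (hf : ∀ i A, f i A ≤ 1)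
    (j i : Fin (d + 1)) (A : Finset α) : typ t f j i A ≤ 1 := by
  unfold typ up1
  split_ifs
  · exact hf i A
  · exact hf i _

theorem E_typ {d : ℕ} {p : ℝ} {S : Finset α} {t : α} {f : Fin (d + 1) → Finset α → ℝ}
    (j i : Fin (d + 1)) :
    E p S (typ t f j i) = if i = j then E p S (f i) else E p S (up1 t (f i)) := by
  unfold typ
  split_ifs <;> rfl

theorem lift_type {d : ℕ} {t : α} {S : Finset α} (ht : t ∉ S)
    {f : Fin (d + 1) → Finset α → ℝ} {j : Fin (d + 1)} {A : Fin (d + 1) → Finset α}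
    (hA : ∀ i, A i ⊆ S) (hpos : ∀ i, 0 < typ t f j i (A i)) (hemp : ∀ x, ∃ i, x ∉ A i) :
    ∃ A' : Fin (d + 1) → Finset α, (∀ i, A' i ⊆ insert t S) ∧ (∀ i, 0 < f i (A' i)) ∧
      (∀ x, ∃ i, x ∉ A' i) ∧ (univ.biUnion A').card ≤ (univ.biUnion A).card + 1 := by
  refine ⟨fun i => if i = j then A i else insert t (A i), ?_, ?_, ?_, ?_⟩
  · intro i
    dsimp only
    split_ifs
    · exact (hA i).trans (subset_insert t S)
    · exact insert_subset_insert t (hA i)
  · intro i
    have h := hpos i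
    unfold typ at h
    dsimp only
    split_ifs with hij
    · simpa [hij] using h
    · simpa [hij, up1] using h
  · intro x
    by_cases hx : x = t
    · refine ⟨j, ?_⟩
      simp only [if_true]
      rw [hx]
      exact fun h => ht (hA j h)
    · obtain ⟨i, hi⟩ := hemp x
      refine ⟨i, ?_⟩
      dsimp only
      split_ifs
      · exact hi
      · rw [mem_insert]
        push Not
        exact ⟨hx, hi⟩
  · have : univ.biUnion (fun i => if i = j then A i else insert t (A i)) ⊆
        insert t (univ.biUnion A) := by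
      intro x hx
      rw [mem_biUnion] at hx
      obtain ⟨i, _, hi⟩ := hx
      rw [mem_insert, mem_biUnion]
      split_ifs at hi with hij
      · exact Or.inr ⟨i, mem_univ i, hi⟩
      · rw [mem_insert] at hi
        rcases hi with h | h
        · exact Or.inl h
        · exact Or.inr ⟨i, mem_univ i, h⟩
    exact (card_le_card this).trans (card_insert_le _ _)

/-- Sums of one modified coordinate. -/
theorem sum_ite_fin {d : ℕ} (x y : Fin (d + 1) → ℝ) (j : Fin (d + 1)) :
    ∑ i, (if i = j then x i else y i) = ∑ i, y i - y j + x j := by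
  have : ∀ i, (if i = j then x i else y i) = y i + (if i = j then x i - y i else 0) := by
    intro i; split_ifs <;> ring
  simp_rw [this]
  rw [sum_add_distrib, Finset.sum_ite_eq' univ j (fun i => x i - y i)]
  simp
  ring

theorem sum_sum_ite_fin {d : ℕ} (x y : Fin (d + 1) → ℝ) :
    ∑ j, ∑ i, (if i = j then x i else y i) = d * ∑ i, y i + ∑ i, x i := by
  simp_rw [sum_ite_fin]
  rw [sum_add_distrib, sum_sub_distrib]
  simp
  ring

/-- Pigeonhole for averages over `Fin (d+1)`. -/
theorem exists_ge_of_avg {d : ℕ} (X : Fin (d + 1) → ℝ) (c : ℝ) (h : (d + 1) * c ≤ ∑ j, X j) :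
    ∃ j, c ≤ X j := by
  by_contra hc
  push Not at hc
  have : ∑ j, X j < ∑ _j : Fin (d + 1), c := sum_lt_sum_of_nonempty univ_nonempty fun j _ => hc j
  simp at this
  linarith

/-- Solutions of the removal problem. -/
def Sol {d : ℕ} (S : Finset α) (f : Fin (d + 1) → Finset α → ℝ)
    (A : Fin (d + 1) → Finset α) : Prop :=
  (∀ i, A i ⊆ S) ∧ (∀ i, 0 < f i (A i)) ∧ (∀ x, ∃ i, x ∉ A i)

/-- First potential lemma. -/
theorem pm1 (d : ℕ) (hd : 1 ≤ d) (p δ a lam : ℝ) (hp : 0 < p) (hδ : 0 < δ)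
    (hp' : (1 + δ) * p < (d : ℝ) / (d + 1)) (ha : 0 < a) (ha1 : a ≤ 1)
    (hq : p ^ a < (d : ℝ) / (d + 1)) (hlam : 0 < lam)
    (hG : Real.exp lam ≤ 1 + ((d : ℝ) / (d + 1) - p ^ a) * (1 - (1 + δ) ^ (-a)))
    (S : Finset α) :
    ∀ f : Fin (d + 1) → Finset α → ℝ, (∀ i, Monotone (f i)) → (∀ i A, 0 ≤ f i A) →
      (∀ i A, f i A ≤ 1) → ∀ u : ℝ,
      Real.exp (lam * u) *
        (1 + (1 + δ) * p / ((d : ℝ) / (d + 1)) * (Real.exp lam - 1)) ^ S.card <
        ∑ i, (E p S (f i)) ^ a - d →
      ∃ A : Fin (d + 1) → Finset α, (∀ i, A i ⊆ S) ∧ (∀ i, 0 < f i (A i)) ∧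
        (∀ x, ∃ i, x ∉ A i) ∧ u + (univ.biUnion A).card < 0 := by
  have hd0 : (0 : ℝ) < d := by exact_mod_cast hd
  obtain ⟨P, hP⟩ : ∃ P, P = (d : ℝ) / (d + 1) := ⟨_, rfl⟩
  have hP0 : 0 < P := by rw [hP]; positivity
  have hP1 : P < 1 := by rw [hP, div_lt_one (by positivity)]; linarith
  have hPd : P * (d + 1) = d := by rw [hP]; field_simp
  rw [← hP] at hp' hq hG ⊢
  have hp1 : p ≤ 1 := by nlinarith
  set θ := (1 + δ) * p / P with hθ
  have hθ0 : 0 < θ := by rw [hθ]; positivity
  have hθ1 : θ < 1 := by rw [hθ, div_lt_one hP0]; exact hp'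
  have hθP : θ * P = (1 + δ) * p := by rw [hθ]; field_simp
  have hel : 1 < Real.exp lam := Real.one_lt_exp_iff.2 hlam
  set ρ := 1 + θ * (Real.exp lam - 1) with hρ
  have hρ1 : 1 ≤ ρ := by
    rw [hρ]
    have := mul_pos hθ0 (sub_pos.2 hel)
    linarith
  have hx0 : 0 < (1 + δ) ^ (-a) := Real.rpow_pos_of_pos (by linarith) _
  have hx1 : (1 + δ) ^ (-a) < 1 :=
    Real.rpow_lt_one_of_one_lt_of_neg (by linarith) (by linarith)
  have hpa0 : 0 < p ^ a := Real.rpow_pos_of_pos hp a
  have hpa1 : p ^ a ≤ 1 := Real.rpow_le_one hp.le hp1 ha.le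
  induction S using Finset.induction_on with
  | empty =>
    intro f hf h0 h1 u hu
    simp only [card_empty, pow_zero, mul_one, E_empty] at hu
    have hN1 : ∀ i, (f i ∅) ^ a ≤ 1 := fun i => Real.rpow_le_one (h0 i ∅) (h1 i ∅) ha.le
    have hup : Real.exp (lam * u) > 0 := Real.exp_pos _
    have hpos : ∀ j, 0 < f j ∅ := by
      intro j
      by_contra hc
      have hz : f j ∅ = 0 := le_antisymm (not_lt.1 hc) (h0 j ∅)
      have : ∑ i, (f i ∅) ^ a ≤ ∑ i, (if i = j then (0 : ℝ) else 1) := by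
        refine sum_le_sum fun i _ => ?_
        split_ifs with hij
        · rw [hij, hz, Real.zero_rpow ha.ne']
        · exact hN1 i
      rw [sum_ite_fin] at this
      simp at this
      linarith
    refine ⟨fun _ => ∅, by simp, hpos, by simp, ?_⟩
    have : ∑ i, (f i ∅) ^ a ≤ ∑ _i : Fin (d + 1), (1 : ℝ) := sum_le_sum fun i _ => hN1 i
    simp at this
    have hlt : Real.exp (lam * u) < 1 := by linarith
    rw [Real.exp_lt_one_iff] at hlt
    have hu0 : u < 0 := by
      by_contra hc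
      push Not at hc
      have := mul_nonneg hlam.le hc
      linarith
    have hb : (univ.biUnion fun _ : Fin (d + 1) => (∅ : Finset α)) = ∅ := by
      ext x; simp
    rw [hb]
    simpa using hu0
  | insert t S ht ih =>
    intro f hf h0 h1 u hu
    rw [card_insert_of_notMem ht] at hu
    -- means
    have hm : ∀ i, E p (insert t S) (f i) = p * E p S (up1 t (f i)) + (1 - p) * E p S (f i) :=
      fun i => E_insert p ht (f i)
    have hm0 : ∀ i, 0 ≤ E p S (f i) := fun i => E_nonneg hp.le hp1 fun A _ => h0 i A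
    have hm01 : ∀ i, E p S (f i) ≤ E p S (up1 t (f i)) := fun i => E_le_E_up1 hp.le hp1 (hf i)
    have hm1 : ∀ i, E p S (up1 t (f i)) ≤ 1 :=
      fun i => E_le_one hp.le hp1 fun A _ => h1 i _
    have hm10 : ∀ i, 0 ≤ E p S (up1 t (f i)) := fun i => (hm0 i).trans (hm01 i)
    simp_rw [hm] at hu
    set m1 : Fin (d + 1) → ℝ := fun i => E p S (up1 t (f i)) with hm1d
    set m0 : Fin (d + 1) → ℝ := fun i => E p S (f i) with hm0d
    have hu' : Real.exp (lam * u) * ρ ^ (S.card + 1) <
      ∑ i, (p * m1 i + (1 - p) * m0 i) ^ a - d := hu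
    -- the induction hypothesis for type j
    have typj : ∀ j, Real.exp (lam * (u + 1)) * ρ ^ S.card <
        ∑ i, (if i = j then (m0 i) ^ a else (m1 i) ^ a) - d →
        ∃ A : Fin (d + 1) → Finset α, (∀ i, A i ⊆ insert t S) ∧ (∀ i, 0 < f i (A i)) ∧
        (∀ x, ∃ i, x ∉ A i) ∧ u + (univ.biUnion A).card < 0 := by
      intro j hj
      obtain ⟨A, hA, hpos, hemp, hcard⟩ := ih (typ t f j) (typ_mono hf j) (typ_nonneg h0 j)
        (typ_le_one h1 j) (u + 1) (by
          refine lt_of_lt_of_eq hj ?_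
          congr 1
          refine sum_congr rfl fun i _ => ?_
          rw [E_typ]
          split_ifs <;> rfl)
      obtain ⟨A', hA', hpos', hemp', hcard'⟩ := lift_type ht hA hpos hemp
      refine ⟨A', hA', hpos', hemp', ?_⟩
      have : ((univ.biUnion A').card : ℝ) ≤ (univ.biUnion A).card + 1 := by exact_mod_cast hcard'
      linarith
    have hexp : Real.exp (lam * (u + 1)) = Real.exp (lam * u) * Real.exp lam := by
      rw [← Real.exp_add]; ring_nf
    have hE : 0 < Real.exp (lam * u) := Real.exp_pos _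
    have hρS : 0 < ρ ^ S.card := pow_pos (by linarith) _
    by_cases hcase : ∀ i, m1 i ≤ (1 + δ) * m0 i
    · -- Case N
      by_cases htm : Real.exp (lam * u) * ρ ^ S.card < ∑ i, (m0 i) ^ a - d
      · obtain ⟨A, hA, hpos, hemp, hcard⟩ := ih f hf h0 h1 u htm
        exact ⟨A, fun i => (hA i).trans (subset_insert t S), hpos, hemp, hcard⟩
      · by_contra hno
        have hall : ∀ j, ∑ i, (if i = j then (m0 i) ^ a else (m1 i) ^ a) - d ≤
            Real.exp (lam * (u + 1)) * ρ ^ S.card := by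
          intro j
          by_contra hc
          exact hno (typj j (not_le.1 hc))
        push Not at htm
        have hsum := sum_le_sum fun j (_ : j ∈ (univ : Finset (Fin (d + 1)))) => hall j
        rw [sum_sub_distrib, sum_sum_ite_fin] at hsum
        simp only [sum_const, card_univ, Fintype.card_fin, nsmul_eq_mul] at hsum
        push_cast at hsum
        have hpt : ∑ i, (p * m1 i + (1 - p) * m0 i) ^ a ≤
            ∑ i, ((1 + δ) * p * (m1 i) ^ a + (1 - (1 + δ) * p) * (m0 i) ^ a) :=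
          sum_le_sum fun i _ => caseN_pt hp.le hδ.le ha ha1 (hm0 i) (hm01 i) (hcase i)
        rw [sum_add_distrib, ← mul_sum, ← mul_sum] at hpt
        set X1 := ∑ i, (m1 i) ^ a
        set X0 := ∑ i, (m0 i) ^ a
        -- hsum : d * X1 + X0 - (d+1) * d ≤ (d+1) * (exp(λ(u+1)) ρ^S)
        have h3 : P * X1 + (1 - P) * X0 - d ≤ Real.exp (lam * u) * Real.exp lam * ρ ^ S.card := by
          rw [hexp] at hsum
          have hd1 : (0 : ℝ) < d + 1 := by linarith
          have e1 : P * X1 + (1 - P) * X0 - d = (d * X1 + X0 - (d + 1) * d) / (d + 1) := by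
            rw [hP]; field_simp; ring
          rw [e1, div_le_iff₀ hd1]
          linarith
        have h4 : (1 + δ) * p * X1 + (1 - (1 + δ) * p) * X0 - d =
            (1 - θ) * (X0 - d) + θ * (P * X1 + (1 - P) * X0 - d) := by
          rw [← hθP]; ring
        have h5 : (1 + δ) * p * X1 + (1 - (1 + δ) * p) * X0 - d ≤
            (1 - θ) * (Real.exp (lam * u) * ρ ^ S.card) +
              θ * (Real.exp (lam * u) * Real.exp lam * ρ ^ S.card) := by
          rw [h4]
          exact add_le_add (mul_le_mul_of_nonneg_left htm (by linarith))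
            (mul_le_mul_of_nonneg_left h3 hθ0.le)
        have h6 : (1 - θ) * (Real.exp (lam * u) * ρ ^ S.card) +
              θ * (Real.exp (lam * u) * Real.exp lam * ρ ^ S.card) =
              Real.exp (lam * u) * ρ ^ (S.card + 1) := by
          rw [pow_succ]; nth_rewrite 4 [hρ]; ring
        linarith
    · -- Case F
      push Not at hcase
      obtain ⟨i0, hi0⟩ := hcase
      have hMpos : 0 < ∑ i, (p * m1 i + (1 - p) * m0 i) ^ a - d :=
        lt_trans (mul_pos hE (pow_pos (by linarith) _)) hu'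
      set Mm := ∑ i, (p * m1 i + (1 - p) * m0 i) ^ a - d with hMm
      have hpt : ∑ i, (p * m1 i + (1 - p) * m0 i) ^ a ≤
          ∑ i, (p ^ a * (m1 i) ^ a + (1 - p ^ a) * (m0 i) ^ a) :=
        sum_le_sum fun i _ => caseF_pt hp.le hp1 ha ha1 (hm0 i) (hm01 i)
      rw [sum_add_distrib, ← mul_sum, ← mul_sum] at hpt
      -- N_{i0} ≥ M
      have hNle : ∀ i, (p * m1 i + (1 - p) * m0 i) ^ a ≤ 1 := fun i =>
        Real.rpow_le_one (add_nonneg (mul_nonneg hp.le (hm10 i))
          (mul_nonneg (by linarith) (hm0 i))) (by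
          have e1 : m1 i ≤ 1 := hm1 i
          have e2 : m0 i ≤ m1 i := hm01 i
          nlinarith) ha.le
      have hN0 : Mm ≤ (p * m1 i0 + (1 - p) * m0 i0) ^ a := by
        have : ∑ i, (p * m1 i + (1 - p) * m0 i) ^ a ≤
            ∑ i, (if i = i0 then (p * m1 i + (1 - p) * m0 i) ^ a else 1) := by
          refine sum_le_sum fun i _ => ?_
          split_ifs
          · exact le_rfl
          · exact hNle i
        rw [sum_ite_fin (fun i => (p * m1 i + (1 - p) * m0 i) ^ a) (fun _ => 1)] at this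
        simp at this
        rw [hMm]
        linarith
      have e2 : m0 i0 ≤ m1 i0 := hm01 i0
      have e3 : 0 ≤ m0 i0 := hm0 i0
      have e4 : 0 ≤ m1 i0 := hm10 i0
      have hN1 : Mm ≤ (m1 i0) ^ a := by
        refine hN0.trans (Real.rpow_le_rpow (add_nonneg (mul_nonneg hp.le e4)
          (mul_nonneg (by linarith) e3)) ?_ ha.le)
        nlinarith
      have hD0 : (m0 i0) ^ a ≤ (1 + δ) ^ (-a) * (m1 i0) ^ a := by
        have h7 : ((1 + δ) * m0 i0) ^ a ≤ (m1 i0) ^ a :=
          Real.rpow_le_rpow (mul_nonneg (by linarith) e3) hi0.le ha.le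
        rw [Real.mul_rpow (by linarith) e3] at h7
        have h8 : (1 + δ) ^ (-a) * (1 + δ) ^ a = 1 := by
          rw [← Real.rpow_add (by linarith)]; simp
        calc (m0 i0) ^ a = (1 + δ) ^ (-a) * ((1 + δ) ^ a * (m0 i0) ^ a) := by
              rw [← mul_assoc, h8, one_mul]
          _ ≤ (1 + δ) ^ (-a) * (m1 i0) ^ a := mul_le_mul_of_nonneg_left h7 hx0.le
      set X1 := ∑ i, (m1 i) ^ a with hX1
      set X0 := ∑ i, (m0 i) ^ a with hX0
      have hDs : (1 - (1 + δ) ^ (-a)) * Mm ≤ X1 - X0 := by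
        have h9 : (m1 i0) ^ a - (m0 i0) ^ a ≤ X1 - X0 := by
          rw [hX1, hX0, ← sum_sub_distrib]
          refine single_le_sum (f := fun i => (m1 i) ^ a - (m0 i) ^ a) (fun i _ => ?_)
            (mem_univ i0)
          exact sub_nonneg.2 (Real.rpow_le_rpow (hm0 i) (hm01 i) ha.le)
        have h10 : (1 - (1 + δ) ^ (-a)) * Mm ≤ (1 - (1 + δ) ^ (-a)) * (m1 i0) ^ a :=
          mul_le_mul_of_nonneg_left hN1 (by linarith)
        linarith
      have hqP : 0 < P - p ^ a := by linarith
      have havg : (d + 1) * (Real.exp lam * Mm + d) ≤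
          ∑ j, ∑ i, (if i = j then (m0 i) ^ a else (m1 i) ^ a) := by
        rw [sum_sum_ite_fin]
        change (d + 1) * (Real.exp lam * Mm + d) ≤ d * X1 + X0
        have h11 : Real.exp lam * Mm ≤ (1 + (P - p ^ a) * (1 - (1 + δ) ^ (-a))) * Mm :=
          mul_le_mul_of_nonneg_right hG hMpos.le
        have h12 : (P - p ^ a) * ((1 - (1 + δ) ^ (-a)) * Mm) ≤ (P - p ^ a) * (X1 - X0) :=
          mul_le_mul_of_nonneg_left hDs hqP.le
        have h13 : Real.exp lam * Mm + d ≤ X0 + P * (X1 - X0) := by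
          have h18 : Mm + d ≤ p ^ a * X1 + (1 - p ^ a) * X0 := by rw [hMm]; linarith
          have h19 : (1 + (P - p ^ a) * (1 - (1 + δ) ^ (-a))) * Mm =
              Mm + (P - p ^ a) * ((1 - (1 + δ) ^ (-a)) * Mm) := by ring
          have h20 : X0 + P * (X1 - X0) =
              (p ^ a * X1 + (1 - p ^ a) * X0) + (P - p ^ a) * (X1 - X0) := by ring
          rw [h19] at h11
          rw [h20]
          linarith
        have h14 : (d + 1) * (X0 + P * (X1 - X0)) = d * X1 + X0 := by
          have : (d + 1) * (X0 + P * (X1 - X0)) = (d + 1) * X0 + (P * (d + 1)) * (X1 - X0) := by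
            ring
          rw [this, hPd]; ring
        have hd1 : (0 : ℝ) < d + 1 := by linarith
        rw [← h14]
        exact mul_le_mul_of_nonneg_left h13 hd1.le
      obtain ⟨j, hj⟩ := exists_ge_of_avg _ _ havg
      refine typj j ?_
      have h15 : Real.exp (lam * (u + 1)) * ρ ^ S.card ≤
          Real.exp lam * (Real.exp (lam * u) * ρ ^ (S.card + 1)) := by
        rw [hexp, pow_succ]
        have : ρ ^ S.card * 1 ≤ ρ ^ S.card * ρ := mul_le_mul_of_nonneg_left hρ1 hρS.le
        calc Real.exp (lam * u) * Real.exp lam * ρ ^ S.card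
            = Real.exp (lam * u) * Real.exp lam * (ρ ^ S.card * 1) := by ring
          _ ≤ Real.exp (lam * u) * Real.exp lam * (ρ ^ S.card * ρ) :=
            mul_le_mul_of_nonneg_left this (by positivity)
          _ = Real.exp lam * (Real.exp (lam * u) * (ρ ^ S.card * ρ)) := by ring
      have h17 : Real.exp lam * (Real.exp (lam * u) * ρ ^ (S.card + 1)) < Real.exp lam * Mm :=
        mul_lt_mul_of_pos_left hu' (Real.exp_pos _)
      linarith

end Pool.Agent.Helper729_cluster
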