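import Mathlib
import Pool.Agent.Helper729_cluster.PM1

/-! Second potential lemma. -/

namespace Pool.Agent.Helper729_cluster

open Finset

variable {α : Type*} [DecidableEq α]

theorem caseN_log {p δ m0 m1 : ℝ} (hp : 0 ≤ p) (h0 : 0 < m0) (h01 : m0 ≤ m1)
    (hN : m1 ≤ (1 + δ) * m0) :
    Real.log (p * m1 + (1 - p) * m0) ≤
      (1 + δ) * p * Real.log m1 + (1 - (1 + δ) * p) * Real.log m0 := by
  obtain ⟨w, hw⟩ : ∃ w, m1 = m0 * (1 + w) := ⟨m1 / m0 - 1, by field_simp; ring⟩
  have hw0 : 0 ≤ w := by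
    by_contra hc
    push Not at hc
    nlinarith
  have hwd : w ≤ δ := by
    by_contra hc
    push Not at hc
    nlinarith
  have hpw : 0 ≤ p * w := mul_nonneg hp hw0
  have e1 : p * m1 + (1 - p) * m0 = m0 * (1 + p * w) := by rw [hw]; ring
  rw [e1, hw, Real.log_mul h0.ne' (by linarith), Real.log_mul h0.ne' (by linarith)]
  have h1 : Real.log (1 + p * w) ≤ p * w := by
    have := Real.log_le_sub_one_of_pos (by linarith : (0 : ℝ) < 1 + p * w)
    linarith
  have h2 := mul_le_mul_of_nonneg_left (w_le_log hw0 hwd) hp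
  nlinarith

/-- The case F step. -/
theorem pm2_caseF (d : ℕ) (p δ c2 ε z2 : ℝ) (hp : 0 < p) (hp1 : p < 1)
    (hδ : 0 < δ) (hstar1 : p + (1 - p) * Real.exp c2 * (p * Real.exp (ε / (d + 1))) ^ (d + 1) <
      p * Real.exp (ε / (d + 1)))
    (hz2 : 0 < z2) (hz2' : z2 ^ (d + 1) = (1 + p * δ) / (1 + δ))
    (hstar2 : p + (1 - p) * Real.exp c2 * z2 ^ (d + 1) < z2)
    (m1 m0 : Fin (d + 1) → ℝ) (h0 : ∀ i, 0 ≤ m0 i) (h01 : ∀ i, m0 i ≤ m1 i) (h1 : ∀ i, m1 i ≤ 1)
    (hpos : ∀ i, 0 < p * m1 i + (1 - p) * m0 i)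
    (halive : ε ≤ ∑ i, Real.log (p * m1 i + (1 - p) * m0 i) + (d + 1) * Real.log (1 / p))
    (hF : ∃ i, (1 + δ) * m0 i < m1 i) :
    ∃ j, 0 < m0 j ∧ ∑ i, Real.log (p * m1 i + (1 - p) * m0 i) + c2 ≤
      ∑ i, (if i = j then Real.log (m0 i) else Real.log (m1 i)) := by
  have hd1 : (0 : ℝ) < d + 1 := by positivity
  have hm1 : ∀ i, 0 < m1 i := by
    intro i
    have a1 := hpos i
    have a2 := h01 i
    by_contra hc
    push Not at hc
    nlinarith [h0 i]
  set μ : Fin (d + 1) → ℝ := fun i => p * m1 i + (1 - p) * m0 i with hμ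
  have hμm : ∀ i, μ i ≤ m1 i := by
    intro i
    have a2 := h01 i
    simp only [hμ]
    nlinarith
  -- total gain
  set Sg := ∑ i, (Real.log (m1 i) - Real.log (μ i)) with hSg
  have hSg' : Sg = ∑ i, Real.log (m1 i) - ∑ i, Real.log (μ i) := by
    rw [hSg, sum_sub_distrib]
  by_contra hno
  push Not at hno
  have key : ∀ j, m0 j ≤ m1 j * Real.exp (c2 - Sg) := by
    intro j
    by_cases hj : 0 < m0 j
    · have h2 := hno j hj
      rw [sum_ite_fin (fun i => Real.log (m0 i)) (fun i => Real.log (m1 i))] at h2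
      have h3 : Real.log (m0 j) < Real.log (m1 j) + (c2 - Sg) := by
        rw [hSg']
        change _ < ∑ i, Real.log (μ i) + c2 at h2
        linarith
      have h4 : Real.exp (Real.log (m0 j)) < Real.exp (Real.log (m1 j) + (c2 - Sg)) :=
        Real.exp_lt_exp.2 h3
      rw [Real.exp_log hj, Real.exp_add, Real.exp_log (hm1 j)] at h4
      exact h4.le
    · have : m0 j = 0 := le_antisymm (not_lt.1 hj) (h0 j)
      rw [this]
      exact (mul_pos (hm1 j) (Real.exp_pos _)).le
  set X := p + (1 - p) * Real.exp (c2 - Sg) with hX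
  have hXpos : 0 < X := by
    have : 0 ≤ (1 - p) * Real.exp (c2 - Sg) := mul_nonneg (by linarith) (Real.exp_pos _).le
    linarith
  have key2 : ∀ j, Real.log (μ j) ≤ Real.log (m1 j) + Real.log X := by
    intro j
    rw [← Real.log_mul (hm1 j).ne' hXpos.ne']
    refine Real.log_le_log (hpos j) ?_
    have h5 : (1 - p) * m0 j ≤ (1 - p) * (m1 j * Real.exp (c2 - Sg)) :=
      mul_le_mul_of_nonneg_left (key j) (by linarith)
    simp only [hμ, hX]
    linarith
  have key3 : -Sg ≤ (d + 1) * Real.log X := by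
    have h6 := sum_le_sum fun j (_ : j ∈ (univ : Finset (Fin (d + 1)))) => key2 j
    rw [sum_add_distrib] at h6
    simp only [sum_const, card_univ, Fintype.card_fin, nsmul_eq_mul] at h6
    push_cast at h6
    rw [hSg']
    linarith
  -- z
  set z := Real.exp (-Sg / (d + 1)) with hz
  have hzpos : 0 < z := Real.exp_pos _
  have hzpow : z ^ (d + 1) = Real.exp (-Sg) := by
    rw [hz, ← Real.exp_nat_mul]
    congr 1
    push_cast
    field_simp
  have hzX : z ≤ X := by
    have : -Sg / (d + 1) ≤ Real.log X := by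
      rw [div_le_iff₀ hd1]; linarith
    calc z ≤ Real.exp (Real.log X) := Real.exp_le_exp.2 this
      _ = X := Real.exp_log hXpos
  have hzX' : z ≤ p + (1 - p) * Real.exp c2 * z ^ (d + 1) := by
    rw [hzpow]
    have he : Real.exp (c2 - Sg) = Real.exp c2 * Real.exp (-Sg) := by
      rw [← Real.exp_add]; ring_nf
    rw [hX, he] at hzX
    linarith
  -- lower bound on z
  have hz1 : p * Real.exp (ε / (d + 1)) ≤ z := by
    have h7 : ∑ i, Real.log (m1 i) ≤ 0 := sum_nonpos fun i _ => Real.log_nonpos (hm1 i).le (h1 i)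
    have h8 : Sg ≤ (d + 1) * Real.log (1 / p) - ε := by
      rw [hSg']
      change ε ≤ ∑ i, Real.log (μ i) + _ at halive
      linarith
    have h9 : Real.log p + ε / (d + 1) ≤ -Sg / (d + 1) := by
      rw [le_div_iff₀ hd1, add_mul, div_mul_cancel₀ _ hd1.ne']
      have : Real.log (1 / p) = - Real.log p := by rw [one_div, Real.log_inv]
      rw [this] at h8
      linarith
    calc p * Real.exp (ε / (d + 1)) = Real.exp (Real.log p + ε / (d + 1)) := by
          rw [Real.exp_add, Real.exp_log hp]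
      _ ≤ z := Real.exp_le_exp.2 h9
  -- upper bound on z
  have hz2'' : z ≤ z2 := by
    obtain ⟨i, hi⟩ := hF
    have h10 : Real.log (m1 i) - Real.log (μ i) ≤ Sg :=
      single_le_sum (f := fun i => Real.log (m1 i) - Real.log (μ i))
        (fun j _ => sub_nonneg.2 (Real.log_le_log (hpos j) (hμm j))) (mem_univ i)
    have h11 : μ i ≤ m1 i * ((1 + p * δ) / (1 + δ)) := by
      rw [mul_div_assoc', le_div_iff₀ (by linarith)]
      simp only [hμ]
      have := mul_le_mul_of_nonneg_left hi.le (by linarith : (0 : ℝ) ≤ 1 - p)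
      nlinarith
    have h12 : Real.log (μ i) ≤ Real.log (m1 i) + Real.log ((1 + p * δ) / (1 + δ)) := by
      rw [← Real.log_mul (hm1 i).ne' (by positivity)]
      exact Real.log_le_log (hpos i) h11
    have h13 : Real.exp (-Sg) ≤ (1 + p * δ) / (1 + δ) := by
      rw [← Real.exp_log (by positivity : (0 : ℝ) < (1 + p * δ) / (1 + δ))]
      exact Real.exp_le_exp.2 (by linarith)
    rw [← hzpow, ← hz2'] at h13
    exact le_of_pow_le_pow_left₀ (Nat.succ_ne_zero d) hz2.le h13
  -- convexity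
  set K := (1 - p) * Real.exp c2 with hK
  have hK0 : 0 ≤ K := mul_nonneg (by linarith) (Real.exp_pos _).le
  set z1 := p * Real.exp (ε / (d + 1)) with hz1d
  have hz1pos : 0 < z1 := mul_pos hp (Real.exp_pos _)
  have hconv := (convexOn_pow (𝕜 := ℝ) (d + 1))
  rcases (hz1.trans hz2'').eq_or_lt with h | h
  · have hzz : z = z1 := le_antisymm (h ▸ hz2'') hz1
    rw [hzz] at hzX'
    linarith
  · obtain ⟨s, t, hs, ht, hst, hzst⟩ : ∃ s t : ℝ, 0 ≤ s ∧ 0 ≤ t ∧ s + t = 1 ∧
        s * z1 + t * z2 = z := by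
      refine ⟨(z2 - z) / (z2 - z1), (z - z1) / (z2 - z1), div_nonneg (by linarith) (by linarith),
        div_nonneg (by linarith) (by linarith), ?_, ?_⟩
      · have : z2 - z1 ≠ 0 := by linarith
        field_simp
        ring
      · have : z2 - z1 ≠ 0 := by linarith
        field_simp
        ring
    have h14 := hconv.2 (x := z1) hz1pos.le (y := z2) hz2.le hs ht hst
    simp only [smul_eq_mul] at h14
    rw [hzst] at h14
    have h15 : K * z ^ (d + 1) ≤ K * (s * z1 ^ (d + 1) + t * z2 ^ (d + 1)) :=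
      mul_le_mul_of_nonneg_left h14 hK0
    have h16 : s * (p + K * z1 ^ (d + 1)) ≤ s * z1 := mul_le_mul_of_nonneg_left hstar1.le hs
    have h17 : t * (p + K * z2 ^ (d + 1)) ≤ t * z2 := mul_le_mul_of_nonneg_left hstar2.le ht
    have h18 : p + K * z ^ (d + 1) ≤ z := by
      have : p = s * p + t * p := by rw [← add_mul, hst, one_mul]
      nlinarith
    -- need strictness
    rcases hs.eq_or_lt with hs0 | hs0
    · have ht1 : t = 1 := by linarith
      rw [← hs0, ht1] at hzst
      have : z = z2 := by linarith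
      rw [this] at hzX'
      linarith
    · have h16' : s * (p + K * z1 ^ (d + 1)) < s * z1 := mul_lt_mul_of_pos_left hstar1 hs0
      have : p = s * p + t * p := by rw [← add_mul, hst, one_mul]
      nlinarith

/-- Second potential lemma. -/
theorem pm2 (d : ℕ) (hd : 1 ≤ d) (p δ lam B c2 ε z2 : ℝ) (hp : 0 < p)
    (hδ : 0 < δ) (hp' : (1 + δ) * p < (d : ℝ) / (d + 1)) (hlam : 0 < lam)
    (hB : 0 ≤ B) (hc2 : 0 < c2) (hε : 0 < ε)
    (hstar1 : p + (1 - p) * Real.exp c2 * (p * Real.exp (ε / (d + 1))) ^ (d + 1) <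
      p * Real.exp (ε / (d + 1)))
    (hz2 : 0 < z2) (hz2' : z2 ^ (d + 1) = (1 + p * δ) / (1 + δ))
    (hstar2 : p + (1 - p) * Real.exp c2 * z2 ^ (d + 1) < z2) (S : Finset α) :
    ∀ (f : Fin (d + 1) → Finset α → ℝ), (∀ i, Monotone (f i)) → (∀ i A, 0 ≤ f i A) →
      (∀ i A, f i A ≤ 1) → ∀ uF uN : ℕ, (∀ i, 0 < E p S (f i)) →
      ε ≤ ∑ i, Real.log (E p S (f i)) + (d + 1) * Real.log (1 / p) - c2 * uF -
        B * Real.exp (lam * uN) *
          (1 + (1 + δ) * p / ((d : ℝ) / (d + 1)) * (Real.exp lam - 1)) ^ S.card →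
      ∃ (A : Fin (d + 1) → Finset α) (mF mN : ℕ), (∀ i, A i ⊆ S) ∧ (∀ i, 0 < f i (A i)) ∧
        (∀ x, ∃ i, x ∉ A i) ∧ (univ.biUnion A).card ≤ mF + mN ∧
        c2 * (uF + mF) ≤ (d + 1) * Real.log (1 / p) ∧
        B * Real.exp (lam * (uN + mN)) ≤ (d + 1) * Real.log (1 / p) := by
  have hd0 : (0 : ℝ) < d := by exact_mod_cast hd
  obtain ⟨P, hP⟩ : ∃ P, P = (d : ℝ) / (d + 1) := ⟨_, rfl⟩
  have hP0 : 0 < P := by rw [hP]; positivity
  have hP1 : P < 1 := by rw [hP, div_lt_one (by positivity)]; linarith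
  have hPd : P * (d + 1) = d := by rw [hP]; field_simp
  rw [← hP] at hp' ⊢
  have hp1 : p < 1 := by nlinarith
  set θ := (1 + δ) * p / P with hθ
  have hθ0 : 0 < θ := by rw [hθ]; positivity
  have hθ1 : θ < 1 := by rw [hθ, div_lt_one hP0]; exact hp'
  have hθP : θ * P = (1 + δ) * p := by rw [hθ]; field_simp
  have hel : 1 < Real.exp lam := Real.one_lt_exp_iff.2 hlam
  set ρ := 1 + θ * (Real.exp lam - 1) with hρ
  have hρ1 : 1 ≤ ρ := by
    rw [hρ]
    have := mul_pos hθ0 (sub_pos.2 hel)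
    linarith
  have hd1 : (0 : ℝ) < d + 1 := by linarith
  induction S using Finset.induction_on with
  | empty =>
    intro f hf h0 h1 uF uN hpos hXi
    simp only [card_empty, pow_zero, mul_one, E_empty] at hXi hpos
    have hlog : ∑ i, Real.log (f i ∅) ≤ 0 :=
      sum_nonpos fun i _ => Real.log_nonpos (h0 i ∅) (h1 i ∅)
    have hBn : 0 ≤ B * Real.exp (lam * uN) := mul_nonneg hB (Real.exp_pos _).le
    have hcn : 0 ≤ c2 * (uF : ℝ) := mul_nonneg hc2.le (Nat.cast_nonneg _)
    refine ⟨fun _ => ∅, 0, 0, by simp, hpos, by simp, ?_, ?_, ?_⟩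
    · have hb : (univ.biUnion fun _ : Fin (d + 1) => (∅ : Finset α)) = ∅ := by
        ext x; simp
      rw [hb]
      simp
    · push_cast
      rw [add_zero]
      linarith
    · push_cast
      rw [add_zero]
      linarith
  | insert t S ht ih =>
    intro f hf h0 h1 uF uN hpos hXi
    rw [card_insert_of_notMem ht] at hXi
    have hm : ∀ i, E p (insert t S) (f i) = p * E p S (up1 t (f i)) + (1 - p) * E p S (f i) :=
      fun i => E_insert p ht (f i)
    have hm0 : ∀ i, 0 ≤ E p S (f i) := fun i => E_nonneg hp.le hp1.le fun A _ => h0 i A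
    have hm01 : ∀ i, E p S (f i) ≤ E p S (up1 t (f i)) := fun i => E_le_E_up1 hp.le hp1.le (hf i)
    have hm1 : ∀ i, E p S (up1 t (f i)) ≤ 1 :=
      fun i => E_le_one hp.le hp1.le fun A _ => h1 i _
    have hm10 : ∀ i, 0 ≤ E p S (up1 t (f i)) := fun i => (hm0 i).trans (hm01 i)
    simp_rw [hm] at hXi hpos
    set m1 : Fin (d + 1) → ℝ := fun i => E p S (up1 t (f i)) with hm1d
    set m0 : Fin (d + 1) → ℝ := fun i => E p S (f i) with hm0d
    have hXi' : ε ≤ ∑ i, Real.log (p * m1 i + (1 - p) * m0 i) + (d + 1) * Real.log (1 / p) -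
      c2 * uF - B * Real.exp (lam * uN) * ρ ^ (S.card + 1) := hXi
    have hpos' : ∀ i, 0 < p * m1 i + (1 - p) * m0 i := hpos
    have hm1pos : ∀ i, 0 < m1 i := by
      intro i
      have a1 := hpos' i
      have a2 : m0 i ≤ m1 i := hm01 i
      by_contra hc
      push Not at hc
      nlinarith [show 0 ≤ m0 i from hm0 i]
    -- the type j instance with arbitrary new counters
    have typj : ∀ j, 0 < m0 j → ∀ uF' uN' : ℕ,
        ε ≤ ∑ i, (if i = j then Real.log (m0 i) else Real.log (m1 i)) +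
          (d + 1) * Real.log (1 / p) - c2 * uF' - B * Real.exp (lam * uN') * ρ ^ S.card →
        ∃ (A : Fin (d + 1) → Finset α) (mF mN : ℕ), (∀ i, A i ⊆ insert t S) ∧
          (∀ i, 0 < f i (A i)) ∧
          (∀ x, ∃ i, x ∉ A i) ∧ (univ.biUnion A).card ≤ mF + mN + 1 ∧
          c2 * (uF' + mF) ≤ (d + 1) * Real.log (1 / p) ∧
          B * Real.exp (lam * (uN' + mN)) ≤ (d + 1) * Real.log (1 / p) := by
      intro j hj uF' uN' hX
      obtain ⟨A, mF, mN, hA, hposA, hemp, hcard, h5, h6⟩ := ih (typ t f j) (typ_mono hf j)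
        (typ_nonneg h0 j) (typ_le_one h1 j) uF' uN' (by
          intro i
          rw [E_typ]
          split_ifs with hij
          · rw [hij]; exact hj
          · exact hm1pos i) (by
          have hs : ∑ i, Real.log (E p S (typ t f j i)) =
              ∑ i, (if i = j then Real.log (m0 i) else Real.log (m1 i)) := by
            refine sum_congr rfl fun i _ => ?_
            rw [E_typ]
            split_ifs <;> rfl
          rw [hs]
          exact hX)
      obtain ⟨A', hA', hposA', hemp', hcard'⟩ := lift_type ht hA hposA hemp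
      exact ⟨A', mF, mN, hA', hposA', hemp', hcard'.trans (by omega), h5, h6⟩
    have hρS : 0 < ρ ^ S.card := pow_pos (by linarith) _
    have hρSS : ρ ^ S.card ≤ ρ ^ (S.card + 1) := pow_le_pow_right₀ hρ1 (Nat.le_succ _)
    by_cases hcase : ∀ i, m1 i ≤ (1 + δ) * m0 i
    · -- Case N
      have hm0pos : ∀ i, 0 < m0 i := by
        intro i
        have a1 := hm1pos i
        have a2 := hcase i
        by_contra hc
        push Not at hc
        nlinarith
      by_contra hno
      -- type minus fails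
      have htm : ∑ i, Real.log (m0 i) + (d + 1) * Real.log (1 / p) - c2 * uF -
          B * Real.exp (lam * uN) * ρ ^ S.card < ε := by
        by_contra hc
        push Not at hc
        obtain ⟨A, mF, mN, hA, hposA, hemp, hcard, h5, h6⟩ := ih f hf h0 h1 uF uN hm0pos hc
        exact hno ⟨A, mF, mN, fun i => (hA i).trans (subset_insert t S), hposA, hemp, hcard, h5, h6⟩
      have hall : ∀ j, ∑ i, (if i = j then Real.log (m0 i) else Real.log (m1 i)) +
          (d + 1) * Real.log (1 / p) - c2 * uF -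
          B * Real.exp (lam * ((uN + 1 : ℕ) : ℝ)) * ρ ^ S.card ≤ ε := by
        intro j
        by_contra hc
        push Not at hc
        obtain ⟨A, mF, mN, hA, hposA, hemp, hcard, h5, h6⟩ := typj j (hm0pos j) uF (uN + 1) hc.le
        refine hno ⟨A, mF, mN + 1, hA, hposA, hemp, by omega, h5, ?_⟩
        push_cast at h6 ⊢
        have : lam * ((uN : ℝ) + (mN + 1)) = lam * ((uN : ℝ) + 1 + mN) := by ring
        rw [this]
        exact h6
      have hsum := sum_le_sum fun j (_ : j ∈ (univ : Finset (Fin (d + 1)))) => hall j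
      rw [sum_sub_distrib, sum_sub_distrib, sum_add_distrib, sum_sum_ite_fin] at hsum
      simp only [sum_const, card_univ, Fintype.card_fin, nsmul_eq_mul] at hsum
      push_cast at hsum
      have hpt : ∑ i, Real.log (p * m1 i + (1 - p) * m0 i) ≤
          ∑ i, ((1 + δ) * p * Real.log (m1 i) + (1 - (1 + δ) * p) * Real.log (m0 i)) :=
        sum_le_sum fun i _ => caseN_log hp.le (hm0pos i) (hm01 i) (hcase i)
      rw [sum_add_distrib, ← mul_sum, ← mul_sum] at hpt
      set X1 := ∑ i, Real.log (m1 i)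
      set X0 := ∑ i, Real.log (m0 i)
      set Lg := (d + 1) * Real.log (1 / p) with hLg
      have hexp : Real.exp (lam * ((uN : ℝ) + 1)) = Real.exp (lam * uN) * Real.exp lam := by
        rw [← Real.exp_add]; ring_nf
      rw [hexp] at hsum
      set Q := B * Real.exp (lam * uN) * ρ ^ S.card with hQ
      have hQ2 : B * (Real.exp (lam * uN) * Real.exp lam) * ρ ^ S.card = Real.exp lam * Q := by
        rw [hQ]; ring
      rw [hQ2] at hsum
      have h3 : P * X1 + (1 - P) * X0 + Lg - c2 * uF - Real.exp lam * Q ≤ ε := by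
        have e1 : P * X1 + (1 - P) * X0 + Lg - c2 * uF - Real.exp lam * Q =
            (d * X1 + X0 + (d + 1) * Lg - (d + 1) * (c2 * uF) -
              (d + 1) * (Real.exp lam * Q)) / (d + 1) := by
          rw [hP]; field_simp; ring
        rw [e1, div_le_iff₀ hd1]
        linarith
      have h4 : (1 - θ) * (X0 + Lg - c2 * uF - Q) < (1 - θ) * ε :=
        mul_lt_mul_of_pos_left htm (by linarith)
      have h5 : θ * (P * X1 + (1 - P) * X0 + Lg - c2 * uF - Real.exp lam * Q) ≤ θ * ε :=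
        mul_le_mul_of_nonneg_left h3 hθ0.le
      have h6 : B * Real.exp (lam * uN) * ρ ^ (S.card + 1) =
          (1 - θ) * Q + θ * (Real.exp lam * Q) := by
        rw [hQ, pow_succ]; nth_rewrite 2 [hρ]; ring
      have h7 : (1 + δ) * p * X1 + (1 - (1 + δ) * p) * X0 =
          (1 - θ) * X0 + θ * (P * X1 + (1 - P) * X0) := by
        rw [← hθP]; ring
      rw [h6] at hXi'
      rw [h7] at hpt
      have h8 : (1 - θ) * (X0 + Lg - c2 * uF - Q) +
          θ * (P * X1 + (1 - P) * X0 + Lg - c2 * uF - Real.exp lam * Q) =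
          ((1 - θ) * X0 + θ * (P * X1 + (1 - P) * X0)) + Lg - c2 * uF -
            ((1 - θ) * Q + θ * (Real.exp lam * Q)) := by ring
      have h9 : (1 - θ) * ε + θ * ε = ε := by ring
      linarith
    · -- Case F
      push Not at hcase
      have hQn : 0 ≤ B * Real.exp (lam * uN) := mul_nonneg hB (Real.exp_pos _).le
      have hQS : B * Real.exp (lam * uN) * ρ ^ S.card ≤
          B * Real.exp (lam * uN) * ρ ^ (S.card + 1) := mul_le_mul_of_nonneg_left hρSS hQn
      have hQ0 : 0 ≤ B * Real.exp (lam * uN) * ρ ^ (S.card + 1) :=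
        mul_nonneg hQn (pow_nonneg (by linarith) _)
      have hcn : 0 ≤ c2 * (uF : ℝ) := mul_nonneg hc2.le (Nat.cast_nonneg _)
      obtain ⟨j, hj, hj2⟩ := pm2_caseF d p δ c2 ε z2 hp hp1 hδ hstar1 hz2 hz2' hstar2 m1 m0
        hm0 hm01 hm1 hpos' (by linarith) hcase
      obtain ⟨A, mF, mN, hA, hposA, hemp, hcard, h5, h6⟩ := typj j hj (uF + 1) uN (by
        push_cast
        linarith)
      refine ⟨A, mF + 1, mN, hA, hposA, hemp, by omega, ?_, h6⟩
      push_cast at h5 ⊢
      linarith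

end Pool.Agent.Helper729_cluster
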