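import Mathlib
import Pool.Agent.Helper729_cluster.Basic

/-! Part of the proof of MP_b0b8df_co. -/

namespace Pool.Agent.Helper729_cluster

open Finset

variable {α : Type*} [DecidableEq α]

/-- TARGET 1: E of the derivative in terms of the set without `t`. -/
theorem E_D_insert (p : ℝ) {S : Finset α} {t : α} (ht : t ∉ S) (g : Finset α → ℝ) :
    E p (insert t S) (D t g) = E p S (up1 t g) - E p S g := by
  rw [E_insert p ht]
  have h1 : E p S (up1 t (D t g)) = E p S (up1 t g) - E p S g := by
    rw [← E_sub]
    apply E_congr
    intro A hA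
    have htA : t ∉ A := fun h => ht (hA h)
    simp only [up1, D]
    rw [Finset.insert_idem, Finset.erase_insert htA]
  have h2 : E p S (D t g) = E p S (up1 t g) - E p S g := by
    rw [← E_sub]
    apply E_congr
    intro A hA
    have htA : t ∉ A := fun h => ht (hA h)
    simp only [up1, D]
    rw [Finset.erase_eq_of_notMem htA]
  rw [h1, h2]
  ring

/-- Adding `t` commutes with the derivative in another direction. -/
theorem up1_D_of_ne {s t : α} (hst : s ≠ t) (g : Finset α → ℝ) :
    up1 t (D s g) = D s (up1 t g) := by
  funext A
  simp only [up1, D]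
  rw [Finset.insert_comm, Finset.erase_insert_of_ne (Ne.symm hst)]

/-- TARGET 2 (Russo). -/
theorem hasDerivAt_E (p : ℝ) (S : Finset α) (g : Finset α → ℝ) :
    HasDerivAt (fun q => E q S g) (∑ t ∈ S, E p S (D t g)) p := by
  induction S using Finset.induction_on generalizing g with
  | empty =>
    simp only [E_empty, Finset.sum_empty]
    exact hasDerivAt_const p _
  | insert t S ht ih =>
    have hfun : (fun q => E q (insert t S) g)
        = fun q => q * E q S (up1 t g) + (1 - q) * E q S g := by
      funext q
      exact E_insert q ht g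
    rw [hfun]
    have h1 := (hasDerivAt_id p).mul (ih (up1 t g))
    have h2 := ((hasDerivAt_const p (1 : ℝ)).sub (hasDerivAt_id p)).mul (ih g)
    have h3 := h1.add h2
    have hS : ∑ s ∈ S, E p (insert t S) (D s g)
        = p * ∑ s ∈ S, E p S (D s (up1 t g)) + (1 - p) * ∑ s ∈ S, E p S (D s g) := by
      rw [Finset.mul_sum, Finset.mul_sum, ← Finset.sum_add_distrib]
      apply Finset.sum_congr rfl
      intro s hs
      have hst : s ≠ t := fun h => ht (h ▸ hs)
      rw [E_insert p ht, up1_D_of_ne hst]
    rw [Finset.sum_insert ht, E_D_insert p ht, hS]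
    refine h3.congr_deriv ?_
    simp only [id, Pi.sub_apply]
    ring

end Pool.Agent.Helper729_cluster
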