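import Mathlib
import Pool.Agent.Helper729_cluster.Basic

/-! Part of the proof of MP_b0b8df_co. -/

namespace Pool.Agent.Helper729_cluster

open Finset

variable {α : Type*} [DecidableEq α]

/-- Indicator of the up-closure of `F`. -/
noncomputable def upF (F : Finset (Finset α)) (A : Finset α) : ℝ :=
  if ∃ B ∈ F, B ⊆ A then 1 else 0

theorem E_card1 (p : ℝ) (S : Finset α) : E p S (fun A => (A.card : ℝ)) = S.card * p := by
  induction S using Finset.induction_on with
  | empty => rw [E_empty]; simp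
  | insert t S ht ih =>
    rw [E_insert p ht]
    have h1 : E p S (up1 t (fun A => (A.card : ℝ))) = E p S (fun A => (A.card : ℝ) + 1) := by
      apply E_congr
      intro A hA
      have : t ∉ A := fun h => ht (hA h)
      simp [up1, Finset.card_insert_of_notMem this]
    have h2 : E p S (fun A => (A.card : ℝ) + 1) = S.card * p + 1 := by
      have := E_add p S (fun A => (A.card : ℝ)) (fun _ => (1 : ℝ))
      rw [this, ih, E_const]
    rw [h1, h2, ih, Finset.card_insert_of_notMem ht]
    push_cast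
    ring

theorem E_card2 (p : ℝ) (S : Finset α) :
    E p S (fun A => (A.card : ℝ) ^ 2) = S.card * p * (1 - p) + (S.card * p) ^ 2 := by
  induction S using Finset.induction_on with
  | empty => rw [E_empty]; simp
  | insert t S ht ih =>
    rw [E_insert p ht]
    have h1 : E p S (up1 t (fun A => (A.card : ℝ) ^ 2)) =
        E p S (fun A => (A.card : ℝ) ^ 2 + (2 * (A.card : ℝ) + 1)) := by
      apply E_congr
      intro A hA
      have : t ∉ A := fun h => ht (hA h)
      simp only [up1, Finset.card_insert_of_notMem this]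
      push_cast
      ring
    have h2 : E p S (fun A => (A.card : ℝ) ^ 2 + (2 * (A.card : ℝ) + 1)) =
        S.card * p * (1 - p) + (S.card * p) ^ 2 + (2 * (S.card * p) + 1) := by
      have e1 := E_add p S (fun A => (A.card : ℝ) ^ 2) (fun A => (2 * (A.card : ℝ) + 1))
      have e2 := E_add p S (fun A => (2 * (A.card : ℝ))) (fun _ => (1 : ℝ))
      have e3 := E_smul p S 2 (fun A => (A.card : ℝ))
      rw [e1, e2, e3, ih, E_const, E_card1]
    rw [h1, h2, ih, Finset.card_insert_of_notMem ht]
    push_cast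
    ring

/-- TARGET 1 -/
theorem E_variance (p : ℝ) (S : Finset α) :
    E p S (fun A => ((A.card : ℝ) - S.card * p) ^ 2) = S.card * p * (1 - p) := by
  have h1 : E p S (fun A => ((A.card : ℝ) - S.card * p) ^ 2) =
      E p S (fun A => ((A.card : ℝ) ^ 2 - (2 * (S.card * p)) * (A.card : ℝ)) + (S.card * p) ^ 2) := by
    apply E_congr
    intro A _
    ring
  have e1 := E_add p S (fun A => ((A.card : ℝ) ^ 2 - (2 * (S.card * p)) * (A.card : ℝ)))
    (fun _ => ((S.card : ℝ) * p) ^ 2)
  have e2 := E_sub p S (fun A => ((A.card : ℝ) ^ 2)) (fun A => (2 * (S.card * p)) * (A.card : ℝ))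
  have e3 := E_smul p S (2 * (S.card * p)) (fun A => (A.card : ℝ))
  rw [h1, e1, e2, e3, E_const, E_card1, E_card2]
  ring

/-- TARGET 2 -/
theorem E_tail (p : ℝ) (h0 : 0 ≤ p) (h1 : p ≤ 1) (S : Finset α) (k : ℕ)
    (hk : (k : ℝ) < S.card * p) :
    1 - S.card * p / (S.card * p - k) ^ 2 ≤ E p S (fun A => if k ≤ A.card then 1 else 0) := by
  set M : ℝ := S.card * p with hM
  have hd : 0 < M - k := by linarith
  have hd2 : 0 < (M - k) ^ 2 := by positivity
  have hN : 0 ≤ M := by positivity
  have key : E p S (fun A => 1 - (1 / (M - k) ^ 2) * ((A.card : ℝ) - S.card * p) ^ 2) ≤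
      E p S (fun A => if k ≤ A.card then 1 else 0) := by
    apply E_mono h0 h1
    intro A _
    by_cases hA : k ≤ A.card
    · rw [if_pos hA]
      have : 0 ≤ (1 / (M - k) ^ 2) * ((A.card : ℝ) - S.card * p) ^ 2 := by positivity
      linarith
    · rw [if_neg hA]
      have hA' : (A.card : ℝ) < k := by exact_mod_cast (not_le.mp hA)
      have : 1 ≤ (1 / (M - k) ^ 2) * ((A.card : ℝ) - S.card * p) ^ 2 := by
        rw [one_div, inv_mul_eq_div, le_div_iff₀ hd2, one_mul]
        have h3 : ((A.card : ℝ) - S.card * p) ^ 2 = (M - A.card) ^ 2 := by rw [hM]; ring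
        rw [h3]
        apply pow_le_pow_left₀ hd.le
        linarith
      linarith
  have e1 := E_sub p S (fun _ => (1 : ℝ))
    (fun A => (1 / (M - k) ^ 2) * ((A.card : ℝ) - S.card * p) ^ 2)
  have e2 := E_smul p S (1 / (M - k) ^ 2) (fun A => ((A.card : ℝ) - S.card * p) ^ 2)
  rw [e1, e2, E_const, E_variance] at key
  refine le_trans ?_ key
  have h4 : 1 / (M - k) ^ 2 * (S.card * p * (1 - p)) ≤ M / (M - k) ^ 2 := by
    rw [one_div, inv_mul_eq_div]
    apply div_le_div_of_nonneg_right _ hd2.le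
    rw [← hM]
    nlinarith
  linarith

theorem card_super (S B : Finset α) (hB : B ⊆ S) (j : ℕ) (hj : B.card ≤ j) :
    ((S.powersetCard j).filter (fun A => B ⊆ A)).card = (S.card - B.card).choose (j - B.card) := by
  rw [← Finset.card_sdiff_of_subset hB, ← Finset.card_powersetCard]
  symm
  apply Finset.card_bij (fun A _ => A ∪ B)
  · intro A hA
    rw [Finset.mem_powersetCard] at hA
    rw [Finset.mem_filter, Finset.mem_powersetCard]
    refine ⟨⟨?_, ?_⟩, Finset.subset_union_right⟩
    · exact Finset.union_subset (hA.1.trans Finset.sdiff_subset) hB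
    · rw [Finset.card_union_of_disjoint, hA.2]
      · omega
      · exact Finset.disjoint_of_subset_left hA.1 Finset.sdiff_disjoint
  · intro A₁ h₁ A₂ h₂ h
    rw [Finset.mem_powersetCard] at h₁ h₂
    have d1 : Disjoint A₁ B := Finset.disjoint_of_subset_left h₁.1 Finset.sdiff_disjoint
    have d2 : Disjoint A₂ B := Finset.disjoint_of_subset_left h₂.1 Finset.sdiff_disjoint
    have e1 : (A₁ ∪ B) \ B = A₁ := Finset.union_sdiff_cancel_right d1
    have e2 : (A₂ ∪ B) \ B = A₂ := Finset.union_sdiff_cancel_right d2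
    rw [← e1, ← e2]
    rw [h]
  · intro A hA
    rw [Finset.mem_filter, Finset.mem_powersetCard] at hA
    refine ⟨A \ B, ?_, ?_⟩
    · rw [Finset.mem_powersetCard]
      refine ⟨Finset.sdiff_subset_sdiff hA.1.1 (le_refl _), ?_⟩
      rw [Finset.card_sdiff_of_subset hA.2, hA.1.2]
    · exact Finset.sdiff_union_of_subset hA.2

theorem lym_nat (S : Finset α) (F : Finset (Finset α)) (k j : ℕ) (hkj : k ≤ j)
    (hF : ∀ B ∈ F, B ⊆ S ∧ B.card = k) :
    F.card * (S.card - k).choose (j - k) ≤
      ((S.powersetCard j).filter (fun A => ∃ B ∈ F, B ⊆ A)).card * j.choose k := by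
  set G := (S.powersetCard j).filter (fun A => ∃ B ∈ F, B ⊆ A) with hG
  have h1 : ∑ B ∈ F, (G.filter (fun A => B ⊆ A)).card = ∑ A ∈ G, (F.filter (fun B => B ⊆ A)).card := by
    simp only [Finset.card_filter]
    rw [Finset.sum_comm]
  have h2 : ∑ B ∈ F, (G.filter (fun A => B ⊆ A)).card = F.card * (S.card - k).choose (j - k) := by
    rw [Finset.sum_const_nat]
    intro B hB
    have h3 : G.filter (fun A => B ⊆ A) = (S.powersetCard j).filter (fun A => B ⊆ A) := by
      ext A
      simp only [hG, Finset.mem_filter]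
      constructor
      · rintro ⟨⟨a, _⟩, b⟩
        exact ⟨a, b⟩
      · rintro ⟨a, b⟩
        exact ⟨⟨a, B, hB, b⟩, b⟩
    have h4 := card_super S B (hF B hB).1 j (by rw [(hF B hB).2]; exact hkj)
    rw [h3, h4, (hF B hB).2]
  have h5 : ∑ A ∈ G, (F.filter (fun B => B ⊆ A)).card ≤ G.card * j.choose k := by
    rw [← smul_eq_mul]
    apply Finset.sum_le_card_nsmul
    intro A hA
    rw [hG, Finset.mem_filter, Finset.mem_powersetCard] at hA
    have h6 : F.filter (fun B => B ⊆ A) ⊆ A.powersetCard k := by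
      intro B hB
      rw [Finset.mem_filter] at hB
      rw [Finset.mem_powersetCard]
      exact ⟨hB.2, (hF B hB.1).2⟩
    have h7 := Finset.card_le_card h6
    rw [Finset.card_powersetCard, hA.1.2] at h7
    exact h7
  rw [← h2, h1]
  exact h5

/-- TARGET 3 -/
theorem lym_up (S : Finset α) (F : Finset (Finset α)) (k j : ℕ) (hkj : k ≤ j) (hj : j ≤ S.card)
    (hF : ∀ B ∈ F, B ⊆ S ∧ B.card = k) :
    (F.card : ℝ) / (S.card.choose k : ℝ) * (S.card.choose j : ℝ) ≤
      (((S.powersetCard j).filter (fun A => ∃ B ∈ F, B ⊆ A)).card : ℝ) := by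
  have h1 := lym_nat S F k j hkj hF
  have h2 : S.card.choose j * j.choose k = S.card.choose k * (S.card - k).choose (j - k) :=
    Nat.choose_mul hkj
  have h3 : 0 < S.card.choose k := Nat.choose_pos (hkj.trans hj)
  have h4 : 0 < j.choose k := Nat.choose_pos hkj
  have h3' : (0 : ℝ) < (S.card.choose k : ℝ) := by exact_mod_cast h3
  have h4' : (0 : ℝ) < (j.choose k : ℝ) := by exact_mod_cast h4
  have h1' : (F.card : ℝ) * ((S.card - k).choose (j - k) : ℝ) ≤
      (((S.powersetCard j).filter (fun A => ∃ B ∈ F, B ⊆ A)).card : ℝ) * (j.choose k : ℝ) := by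
    exact_mod_cast h1
  have h2' : (S.card.choose j : ℝ) * (j.choose k : ℝ) =
      (S.card.choose k : ℝ) * ((S.card - k).choose (j - k) : ℝ) := by exact_mod_cast h2
  rw [div_mul_eq_mul_div, div_le_iff₀ h3']
  set X := (((S.powersetCard j).filter (fun A => ∃ B ∈ F, B ⊆ A)).card : ℝ)
  by_contra hcon
  push Not at hcon
  have h5 : X * (S.card.choose k : ℝ) * (j.choose k : ℝ) <
      (F.card : ℝ) * (S.card.choose j : ℝ) * (j.choose k : ℝ) := by
    apply mul_lt_mul_of_pos_right hcon h4'
  have h6 : (F.card : ℝ) * (S.card.choose j : ℝ) * (j.choose k : ℝ) =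
      (F.card : ℝ) * ((S.card - k).choose (j - k) : ℝ) * (S.card.choose k : ℝ) := by
    rw [mul_assoc, h2']; ring
  have h7 : (F.card : ℝ) * ((S.card - k).choose (j - k) : ℝ) * (S.card.choose k : ℝ) ≤
      X * (j.choose k : ℝ) * (S.card.choose k : ℝ) := by
    apply mul_le_mul_of_nonneg_right h1' h3'.le
  nlinarith

omit [DecidableEq α] in
theorem E_split (p : ℝ) (S : Finset α) (g : Finset α → ℝ) :
    E p S g = ∑ j ∈ range (S.card + 1),
      p ^ j * (1 - p) ^ (S.card - j) * ∑ A ∈ S.powersetCard j, g A := by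
  unfold E
  rw [Finset.sum_powerset]
  apply Finset.sum_congr rfl
  intro j _
  rw [Finset.mul_sum]
  apply Finset.sum_congr rfl
  intro A hA
  rw [Finset.mem_powersetCard] at hA
  rw [hA.2]

/-- TARGET 4 -/
theorem transfer (p : ℝ) (h0 : 0 ≤ p) (h1 : p ≤ 1) (S : Finset α) (F : Finset (Finset α)) (k : ℕ)
    (hF : ∀ B ∈ F, B ⊆ S ∧ B.card = k) (hk : (k : ℝ) < S.card * p) :
    (F.card : ℝ) / (S.card.choose k : ℝ) * (1 - S.card * p / (S.card * p - k) ^ 2) ≤
      E p S (upF F) := by
  have hc : 0 ≤ (F.card : ℝ) / (S.card.choose k : ℝ) := by positivity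
  have h2 := mul_le_mul_of_nonneg_left (E_tail p h0 h1 S k hk) hc
  refine h2.trans ?_
  rw [← E_smul, E_split, E_split]
  apply Finset.sum_le_sum
  intro j hj
  rw [Finset.mem_range] at hj
  have hw : 0 ≤ p ^ j * (1 - p) ^ (S.card - j) :=
    mul_nonneg (pow_nonneg h0 _) (pow_nonneg (by linarith) _)
  apply mul_le_mul_of_nonneg_left _ hw
  by_cases hkj : k ≤ j
  · have e1 : ∑ A ∈ S.powersetCard j,
        (F.card : ℝ) / (S.card.choose k : ℝ) * (if k ≤ A.card then (1 : ℝ) else 0) =
        (F.card : ℝ) / (S.card.choose k : ℝ) * (S.card.choose j : ℝ) := by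
      have : ∀ A ∈ S.powersetCard j,
          (F.card : ℝ) / (S.card.choose k : ℝ) * (if k ≤ A.card then (1 : ℝ) else 0) =
          (F.card : ℝ) / (S.card.choose k : ℝ) := by
        intro A hA
        rw [Finset.mem_powersetCard] at hA
        rw [hA.2, if_pos hkj, mul_one]
      rw [Finset.sum_congr rfl this, Finset.sum_const, Finset.card_powersetCard, nsmul_eq_mul]
      ring
    have e2 : ∑ A ∈ S.powersetCard j, upF F A =
        (((S.powersetCard j).filter (fun A => ∃ B ∈ F, B ⊆ A)).card : ℝ) := by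
      unfold upF
      rw [Finset.sum_ite, Finset.sum_const_zero, add_zero, Finset.sum_const, nsmul_eq_mul, mul_one]
    rw [e1, e2]
    exact lym_up S F k j hkj (by omega) hF
  · apply Finset.sum_le_sum
    intro A hA
    rw [Finset.mem_powersetCard] at hA
    rw [hA.2, if_neg hkj, mul_zero]
    unfold upF
    split_ifs <;> norm_num

end Pool.Agent.Helper729_cluster
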