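import Mathlib
import Pool.Agent.Helper729_cluster.Basic
import Pool.Agent.Helper729_cluster.PM1
import Pool.Agent.Helper729_cluster.PM2
import Pool.Agent.Helper729_cluster.Energy
import Pool.Agent.Helper729_cluster.Russo
import Pool.Agent.Helper729_cluster.Transfer

/-! Cluster-free families (with repetition allowed), and first consequences for the up-closure. -/

namespace Pool.Agent.Helper729_cluster

open Finset

/-- No `d+1` members (repetitions allowed) with empty intersection and union of size at most `s`. -/
def NoCl {α : Type} [DecidableEq α] (d : ℕ) (s : ℝ) (F : Finset (Finset α)) : Prop :=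
  ∀ B : Fin (d + 1) → Finset α, (∀ i, B i ∈ F) → (∀ x, ∃ i, x ∉ B i) →
    s < ((univ.biUnion B).card : ℝ)

theorem upF_mono {α : Type} [DecidableEq α] (F : Finset (Finset α)) : Monotone (upF F) := by
  intro A B hAB
  unfold upF
  split_ifs with h1 h2
  · exact le_rfl
  · obtain ⟨C, hC, hCA⟩ := h1
    exact absurd ⟨C, hC, hCA.trans hAB⟩ h2
  · norm_num
  · exact le_rfl

theorem upF_nonneg {α : Type} [DecidableEq α] (F : Finset (Finset α)) (A : Finset α) :
    0 ≤ upF F A := by
  unfold upF
  split_ifs <;> norm_num

theorem upF_le_one {α : Type} [DecidableEq α] (F : Finset (Finset α)) (A : Finset α) :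
    upF F A ≤ 1 := by
  unfold upF
  split_ifs <;> norm_num

theorem upF_zero_or_one {α : Type} [DecidableEq α] (F : Finset (Finset α)) (A : Finset α) :
    upF F A = 0 ∨ upF F A = 1 := by
  unfold upF
  split_ifs <;> simp

theorem upF_pos {α : Type} [DecidableEq α] {F : Finset (Finset α)} {A : Finset α}
    (h : 0 < upF F A) : ∃ B ∈ F, B ⊆ A := by
  unfold upF at h
  split_ifs at h with h1
  · exact h1
  · exact absurd h (lt_irrefl 0)

/-- A solution of the removal problem for `upF F` has a large union. -/
theorem NoCl.union_lt {α : Type} [DecidableEq α] {d : ℕ} {s : ℝ} {F : Finset (Finset α)}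
    (h : NoCl d s F) (A : Fin (d + 1) → Finset α) (hA : ∀ i, 0 < upF F (A i))
    (hemp : ∀ x, ∃ i, x ∉ A i) : s < ((univ.biUnion A).card : ℝ) := by
  choose B hB hBA using fun i => upF_pos (hA i)
  have h1 := h B hB (fun x => by
    obtain ⟨i, hi⟩ := hemp x
    exact ⟨i, fun hx => hi (hBA i hx)⟩)
  refine h1.trans_le ?_
  have : univ.biUnion B ⊆ univ.biUnion A := by
    intro x hx
    rw [mem_biUnion] at hx ⊢
    obtain ⟨i, hi, hx⟩ := hx
    exact ⟨i, hi, hBA i hx⟩
  exact_mod_cast card_le_card this

/-- The same with one set avoiding `x` and `x` allowed in the others. -/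
theorem NoCl.union_lt' {α : Type} [DecidableEq α] {d : ℕ} {s : ℝ} {F : Finset (Finset α)}
    (h : NoCl d s F) (x : α) (A : Fin (d + 1) → Finset α) (hx0 : x ∉ A 0)
    (h0 : 0 < upF F (A 0)) (hA : ∀ i, i ≠ 0 → 0 < upF F (insert x (A i)))
    (hemp : ∀ y, ∃ i, y ∉ A i) : s < ((univ.biUnion A).card : ℝ) + 1 := by
  have h1 := h.union_lt (fun i => if i = 0 then A i else insert x (A i)) (by
    intro i
    split_ifs with hi
    · rw [hi]; exact h0
    · exact hA i hi) (by
    intro y
    by_cases hy : y = x
    · refine ⟨0, ?_⟩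
      simpa [hy] using hx0
    · obtain ⟨i, hi⟩ := hemp y
      refine ⟨i, ?_⟩
      split_ifs
      · exact hi
      · rw [mem_insert]; push Not; exact ⟨hy, hi⟩)
  refine h1.trans_le ?_
  have : univ.biUnion (fun i => if i = 0 then A i else insert x (A i)) ⊆
      insert x (univ.biUnion A) := by
    intro y hy
    rw [mem_biUnion] at hy
    obtain ⟨i, _, hi⟩ := hy
    rw [mem_insert, mem_biUnion]
    split_ifs at hi with hij
    · exact Or.inr ⟨i, mem_univ i, hi⟩
    · rw [mem_insert] at hi
      rcases hi with h | h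
      · exact Or.inl h
      · exact Or.inr ⟨i, mem_univ i, h⟩
  have h2 := (card_le_card this).trans (card_insert_le _ _)
  exact_mod_cast h2

end Pool.Agent.Helper729_cluster
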