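import Mathlib

/-! Part of the proof of MP_b0b8df_co. -/

namespace Pool.Agent.Helper729_cluster

open Finset

theorem rho_pow_le (d : ℕ) (hd : 1 ≤ d) (ζ : ℝ) (hζ : 0 < ζ) (hζ1 : ζ ≤ 1 / 2) (n m k : ℕ)
    (hm : m ≤ n) (hn : 0 < n) (p lam : ℝ) (hp0 : 0 ≤ p)
    (hp : p ≤ (1 + ζ / 28) * ((k : ℝ) / n)) (hlam : 0 < lam) (hlam1 : lam ≤ ζ / 28) :
    (1 + (1 + ζ / 28) * p / ((d : ℝ) / (d + 1)) * (Real.exp lam - 1)) ^ m ≤
      Real.exp (lam * ((((d : ℝ) + 1) / d + ζ / 2) * k)) := by
  have hd' : (1:ℝ) ≤ d := by exact_mod_cast hd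
  have hd0 : (0:ℝ) < d := by linarith
  have hn' : (0:ℝ) < n := by exact_mod_cast hn
  have hm' : (m:ℝ) ≤ n := by exact_mod_cast hm
  have hk0 : (0:ℝ) ≤ k := Nat.cast_nonneg k
  set D : ℝ := ζ / 28 with hD
  have hD0 : 0 < D := by positivity
  have hD1 : D ≤ 1 / 56 := by rw [hD]; linarith
  have hζD : ζ / 2 = 14 * D := by rw [hD]; ring
  set y : ℝ := Real.exp lam - 1 with hy
  have hy0 : 0 ≤ y := by
    have := Real.add_one_le_exp lam
    rw [hy]; linarith
  have hy1 : y ≤ lam * (1 + D) := by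
    have h1 := Real.abs_exp_sub_one_sub_id_le (x := lam) (by rw [abs_of_pos hlam]; linarith)
    have h2 := le_of_abs_le h1
    rw [hy]
    nlinarith
  set c : ℝ := ((d : ℝ) + 1) / d with hc
  have hc0 : 0 < c := by positivity
  have hc2 : c ≤ 2 := by
    rw [hc, div_le_iff₀ hd0]; linarith
  have hth : (1 + D) * p / ((d : ℝ) / (d + 1)) = (1 + D) * p * c := by
    rw [hc]; field_simp
  rw [hth, hζD]
  set th : ℝ := (1 + D) * p * c with hthd
  have hth0 : 0 ≤ th := by positivity
  have hx : 0 ≤ th * y := by positivity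
  calc (1 + th * y) ^ m ≤ (Real.exp (th * y)) ^ m := by
        apply pow_le_pow_left₀ (by positivity)
        have := Real.add_one_le_exp (th * y)
        linarith
    _ = Real.exp (m * (th * y)) := by rw [← Real.exp_nat_mul]
    _ ≤ Real.exp (lam * ((c + 14 * D) * k)) := by
        apply Real.exp_le_exp.mpr
        have hnp : n * p ≤ (1 + D) * k := by
          calc n * p ≤ n * ((1 + D) * ((k : ℝ) / n)) := by gcongr
            _ = (1 + D) * k := by field_simp
        have hcube : (1 + D) ^ 3 ≤ 1 + 7 * D := by nlinarith [mul_pos hD0 hD0, mul_pos (mul_pos hD0 hD0) hD0]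
        calc (m:ℝ) * (th * y) ≤ n * (th * y) := by gcongr
          _ = (n * p) * ((1 + D) * c) * y := by rw [hthd]; ring
          _ ≤ ((1 + D) * k) * ((1 + D) * c) * (lam * (1 + D)) := by gcongr
          _ = lam * k * c * (1 + D) ^ 3 := by ring
          _ ≤ lam * k * c * (1 + 7 * D) := by gcongr
          _ = lam * k * (c + 7 * D * c) := by ring
          _ ≤ lam * k * (c + 7 * D * 2) := by gcongr
          _ = lam * ((c + 14 * D) * k) := by ring

end Pool.Agent.Helper729_cluster
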