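import Mathlib
import Pool.Agent.Helper729_cluster.Defs2
import Pool.Agent.Helper729_cluster.Rho

/-! Part of the proof of MP_b0b8df_co. -/

namespace Pool.Agent.Helper729_cluster

open Finset


theorem boost_aux1 (P δ ξ κ : ℝ) (hδ : 0 < δ) (hδ1 : δ ≤ 1 / 56) (hP1 : P < 1)
    (hPζ : 0 < P - 28 * δ)
    (hkn' : κ ≤ P - 28 * δ) (hξk : ξ ≤ (1 + δ) * κ) : (1 + δ) * ξ < P := by
  have h1 : ξ ≤ (1 + δ) * (P - 28 * δ) :=
    hξk.trans (mul_le_mul_of_nonneg_left hkn' (by linarith))
  have h2 : (1 + δ) * ξ ≤ (1 + δ) * ((1 + δ) * (P - 28 * δ)) :=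
    mul_le_mul_of_nonneg_left h1 (by linarith)
  have h0 : (1 + δ) * (1 + δ) ≤ 1 + 3 * δ := by nlinarith
  have h3 : (1 + δ) * ((1 + δ) * (P - 28 * δ)) ≤ (1 + 3 * δ) * (P - 28 * δ) := by
    rw [← mul_assoc]
    exact mul_le_mul_of_nonneg_right h0 hPζ.le
  have h4 : (1 + 3 * δ) * (P - 28 * δ) < P := by
    have : δ * P < δ := by nlinarith
    have h5 : 0 < δ * δ := by positivity
    nlinarith
  linarith

theorem boost_aux2 (P δ a lam : ℝ) (hP0 : 0 < P) (hP1 : P < 1) (hδ : 0 < δ) (hδ1 : δ ≤ 1 / 56)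
    (ha : 0 < a) (ha1 : a ≤ 1) (hlamdef : lam = (P - P ^ 2) * Real.log (1 + δ) / 4 * a)
    (hlam : 0 < lam) (hlam1 : lam ≤ δ) :
    Real.exp lam ≤ 1 + (P - P ^ 2) * (1 - (1 + δ) ^ (-a)) := by
  have hlog1 : 0 < Real.log (1 + δ) := Real.log_pos (by linarith)
  have hlog2 : Real.log (1 + δ) ≤ δ := by
    have := Real.log_le_sub_one_of_pos (show 0 < 1 + δ by linarith)
    linarith
  have hPP : 0 < P - P ^ 2 := by nlinarith
  have h1 : Real.exp lam ≤ 1 + 2 * lam := by
    have h := Real.abs_exp_sub_one_sub_id_le (x := lam) (by rw [abs_of_pos hlam]; linarith)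
    have h' := (abs_le.1 h).2
    nlinarith
  have h2 : (1 + δ) ^ (-a) = Real.exp (- (a * Real.log (1 + δ))) := by
    rw [Real.rpow_def_of_pos (by linarith)]
    congr 1; ring
  have hy0 : 0 < a * Real.log (1 + δ) := by positivity
  have hy1 : a * Real.log (1 + δ) ≤ 1 / 56 := by
    have := mul_le_mul ha1 hlog2 hlog1.le (by norm_num)
    linarith
  have h3 : Real.exp (- (a * Real.log (1 + δ))) ≤ 1 - (a * Real.log (1 + δ)) / 2 := by
    generalize a * Real.log (1 + δ) = y at hy0 hy1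
    have h := Real.abs_exp_sub_one_sub_id_le (x := -y) (by rw [abs_neg, abs_of_pos hy0]; linarith)
    have h' := (abs_le.1 h).2
    nlinarith
  rw [h2]
  have h4 : (P - P ^ 2) * ((a * Real.log (1 + δ)) / 2) ≤
      (P - P ^ 2) * (1 - Real.exp (- (a * Real.log (1 + δ)))) :=
    mul_le_mul_of_nonneg_left (by linarith) hPP.le
  have h5 : 2 * lam = (P - P ^ 2) * ((a * Real.log (1 + δ)) / 2) := by
    rw [hlamdef]; ring
  linarith

/-- TARGET: boost for small density. -/
theorem boost (d : ℕ) (hd : 1 ≤ d) (ζ : ℝ) (hζ : 0 < ζ) (hζ1 : ζ ≤ 1 / 2) (K : ℝ) (hK : 1 ≤ K) :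
    ∃ η4 : ℝ, 0 < η4 ∧ η4 ≤ 1 ∧ ∃ C : ℝ, 0 < C ∧ ∀ (α : Type) [DecidableEq α] (S : Finset α)
      (F : Finset (Finset α)) (k : ℕ) (ξ : ℝ) (x : α), 1 ≤ k → C * Real.log S.card ≤ k →
      (k : ℝ) ≤ ((d : ℝ) / (d + 1) - ζ) * S.card →
      NoCl d ((((d : ℝ) + 1) / d + ζ) * k) F →
      (k : ℝ) / S.card ≤ ξ → ξ ≤ (1 + ζ / 28) * ((k : ℝ) / S.card) →
      ξ ≤ ((d : ℝ) / (d + 1)) ^ 2 → x ∈ S →
      1 - η4 ≤ E ξ (S.erase x) (up1 x (upF F)) → E ξ (S.erase x) (upF F) ≤ ξ ^ K := by
  classical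
  have hd0 : (0 : ℝ) < d := by exact_mod_cast (show 0 < d by omega)
  set P : ℝ := (d : ℝ) / (d + 1) with hPdef
  have hP0 : 0 < P := by positivity
  have hP1 : P < 1 := by rw [hPdef, div_lt_one (by positivity)]; linarith
  set L : ℝ := - Real.log P with hLdef
  have hL : 0 < L := by
    have := Real.log_neg hP0 hP1
    linarith
  have hlogP : Real.log P = - L := by rw [hLdef]; ring
  set δ : ℝ := ζ / 28 with hδdef
  have hδ : 0 < δ := by positivity
  have hδ1 : δ ≤ 1 / 56 := by rw [hδdef]; linarith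
  have hlog1 : 0 < Real.log (1 + δ) := Real.log_pos (by linarith)
  have hlog2 : Real.log (1 + δ) ≤ δ := by
    have := Real.log_le_sub_one_of_pos (show 0 < 1 + δ by linarith)
    linarith
  set c : ℝ := (P - P ^ 2) * Real.log (1 + δ) / 4 with hcdef
  have hPP : 0 < P - P ^ 2 := by nlinarith
  have hPP1 : P - P ^ 2 ≤ 1 := by nlinarith
  have hc : 0 < c := by positivity
  have hc1 : c ≤ δ / 4 := by
    rw [hcdef]
    have := mul_le_mul hPP1 hlog2 hlog1.le (by norm_num)
    linarith only [this]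
  have hPK : ∀ r : ℝ, P ^ r = Real.exp (- L * r) := by
    intro r
    rw [Real.rpow_def_of_pos hP0, hlogP]
  have hQ0 : 0 < P ^ (2 * K) := Real.rpow_pos_of_pos hP0 _
  have hQ1 : P ^ (2 * K) ≤ 1 := Real.rpow_le_one hP0.le hP1.le (by linarith)
  refine ⟨P ^ (2 * K) / (2 * d), by positivity, ?_, (1 + Real.log 2 + 2 * K * L) / (ζ * c * L), ?_, ?_⟩
  · rw [div_le_one (by positivity)]
    have : (1 : ℝ) ≤ d := by exact_mod_cast hd
    linarith
  · have := Real.log_pos (show (1 : ℝ) < 2 by norm_num)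
    positivity
  intro α _ S F k ξ x hk1 hkC hkn hNo hkξ hξk hξP hxS hmu
  have hk0 : (1 : ℝ) ≤ k := by exact_mod_cast hk1
  have hn1 : 1 ≤ S.card := Finset.card_pos.2 ⟨x, hxS⟩
  have hn0 : (0 : ℝ) < S.card := by exact_mod_cast hn1
  have hkn' : (k : ℝ) / S.card ≤ P - ζ := by
    rw [div_le_iff₀ hn0]; exact hkn
  have hκ0 : 0 < (k : ℝ) / S.card := div_pos (by linarith) hn0
  have hξ0 : 0 < ξ := lt_of_lt_of_le hκ0 hkξ
  have hPsq : P ^ 2 < 1 := by linarith only [hPP, hP1]
  have hξ1 : ξ < 1 := lt_of_le_of_lt hξP hPsq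
  have hPζ : 0 < P - ζ := lt_of_lt_of_le hκ0 hkn'
  have hζδ : ζ = 28 * δ := by rw [hδdef]; ring
  have hp' : (1 + δ) * ξ < P :=
    boost_aux1 P δ ξ _ hδ hδ1 hP1 (by linarith) (by linarith) hξk
  -- the exponent
  set M : ℝ := - Real.log ξ with hMdef
  have hM : 2 * L ≤ M := by
    have := Real.log_le_log hξ0 hξP
    rw [Real.log_pow] at this
    push_cast at this
    linarith
  have hM0 : 0 < M := by linarith
  set a : ℝ := 2 * L / M with hadef
  have ha : 0 < a := by positivity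
  have ha1 : a ≤ 1 := by rw [hadef, div_le_one hM0]; exact hM
  have hξa : ξ ^ a = P ^ 2 := by
    have e1 : P ^ 2 = Real.exp (- (2 * L)) := by
      have h := Real.exp_log (show 0 < P ^ 2 by positivity)
      rw [← h, Real.log_pow, hlogP]
      congr 1
      push_cast
      ring
    have e2 : Real.log ξ = - M := by rw [hMdef]; ring
    rw [Real.rpow_def_of_pos hξ0, e1, e2, hadef]
    congr 1
    field_simp
  set lam : ℝ := c * a with hlamdef
  have hlam : 0 < lam := by positivity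
  have hlam1 : lam ≤ δ := by
    rw [hlamdef]
    have := mul_le_mul hc1 ha1 ha.le (by positivity)
    linarith
  have hq : ξ ^ a < P := by rw [hξa]; linarith
  have hG : Real.exp lam ≤ 1 + (P - ξ ^ a) * (1 - (1 + δ) ^ (-a)) := by
    rw [hξa]
    exact boost_aux2 P δ a lam hP0 hP1 hδ hδ1 ha ha1 rfl hlam hlam1
  -- the hypothesis of pm1 fails
  set V : Finset α := S.erase x with hVdef
  set mu0 : ℝ := E ξ V (upF F) with hmu0
  set mu1 : ℝ := E ξ V (up1 x (upF F)) with hmu1
  have hmu0nn : 0 ≤ mu0 := E_nonneg hξ0.le hξ1.le (fun A _ => upF_nonneg F A)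
  have hmu1nn : 0 ≤ mu1 := E_nonneg hξ0.le hξ1.le (fun A _ => upF_nonneg F _)
  have hmu1le : mu1 ≤ 1 := E_le_one hξ0.le hξ1.le (fun A _ => upF_le_one F _)
  have key : mu0 ^ a + d * mu1 ^ a - d ≤
      Real.exp (lam * (-((((d : ℝ) + 1) / d + ζ) * k - 1))) *
        (1 + (1 + δ) * ξ / P * (Real.exp lam - 1)) ^ V.card := by
    by_contra hcon
    push Not at hcon
    obtain ⟨A, hAV, hA0, hAe, hAc⟩ := pm1 d hd ξ δ a lam hξ0 hδ hp' ha ha1 hq hlam hG V
      (fun i => if i = 0 then upF F else up1 x (upF F))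
      (by
        intro i
        by_cases hi : i = 0
        · simp only [hi, if_true]; exact upF_mono F
        · simp only [hi, if_false]; exact up1_mono (upF_mono F))
      (by
        intro i A
        by_cases hi : i = 0
        · simp only [hi, if_true]; exact upF_nonneg F A
        · simp only [hi, if_false]; exact upF_nonneg F _)
      (by
        intro i A
        by_cases hi : i = 0
        · simp only [hi, if_true]; exact upF_le_one F A
        · simp only [hi, if_false]; exact upF_le_one F _)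
      (-((((d : ℝ) + 1) / d + ζ) * k - 1))
      (by
        rw [Fin.sum_univ_succ]
        have e1 : ∀ i : Fin d, (E ξ V (if (Fin.succ i) = 0 then upF F else up1 x (upF F))) ^ a = mu1 ^ a := by
          intro i
          rw [if_neg (Fin.succ_ne_zero i)]
        simp only [e1, if_true, Finset.sum_const, Finset.card_univ, Fintype.card_fin, nsmul_eq_mul]
        exact hcon)
    have hlt := hNo.union_lt' x A
      (fun h => Finset.notMem_erase x S (hAV 0 h))
      (by simpa using hA0 0)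
      (by
        intro i hi
        have := hA0 i
        simp only [hi, if_false] at this
        exact this)
      hAe
    linarith
  have hrho := rho_pow_le d hd ζ hζ hζ1 S.card V.card k (Finset.card_le_card (Finset.erase_subset x S))
    hn1 ξ lam hξ0.le hξk hlam hlam1
  have hRHS : Real.exp (lam * (-((((d : ℝ) + 1) / d + ζ) * k - 1))) *
        (1 + (1 + δ) * ξ / P * (Real.exp lam - 1)) ^ V.card ≤ P ^ (2 * K) / 2 := by
    have h1 : Real.exp (lam * (-((((d : ℝ) + 1) / d + ζ) * k - 1))) *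
        (1 + (1 + δ) * ξ / P * (Real.exp lam - 1)) ^ V.card ≤
        Real.exp (lam * (-((((d : ℝ) + 1) / d + ζ) * k - 1))) *
        Real.exp (lam * ((((d : ℝ) + 1) / d + ζ / 2) * k)) :=
      mul_le_mul_of_nonneg_left hrho (Real.exp_pos _).le
    refine h1.trans ?_
    rw [← Real.exp_add, hPK, ← Real.exp_log (show (0:ℝ) < 2 by norm_num), ← Real.exp_sub,
      Real.exp_log (show (0:ℝ) < 2 by norm_num)]
    apply Real.exp_le_exp.2
    -- lam * k ≥ 2 c L C
    have hlogn : M ≤ Real.log S.card := by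
      have h2 := Real.log_le_log hκ0 hkξ
      rw [Real.log_div (by positivity) hn0.ne'] at h2
      have h3 := Real.log_nonneg hk0
      linarith
    have hCk : (1 + Real.log 2 + 2 * K * L) / (ζ * c * L) * M ≤ k := by
      refine le_trans (mul_le_mul_of_nonneg_left hlogn ?_) hkC
      have := Real.log_pos (show (1 : ℝ) < 2 by norm_num)
      positivity
    have h5 : (1 + Real.log 2 + 2 * K * L) * M ≤ k * (ζ * c * L) := by
      rw [div_mul_eq_mul_div, div_le_iff₀ (by positivity)] at hCk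
      exact hCk
    have h6 : 1 + Real.log 2 + 2 * K * L ≤ lam * (ζ / 2 * k) := by
      rw [hlamdef, hadef]
      have e : c * (2 * L / M) * (ζ / 2 * k) = k * (ζ * c * L) / M := by
        field_simp
      rw [e, le_div_iff₀ hM0]
      exact h5
    have e2 : lam * (-((((d : ℝ) + 1) / d + ζ) * k - 1)) + lam * ((((d : ℝ) + 1) / d + ζ / 2) * k)
        = lam - lam * (ζ / 2 * k) := by ring
    have e3 : -L * (2 * K) = -(2 * K * L) := by ring
    rw [e2, e3]
    linarith
  have hmu1a : mu1 ≤ mu1 ^ a := by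
    have := Real.rpow_le_rpow_of_exponent_ge' hmu1nn hmu1le ha.le ha1
    rwa [Real.rpow_one] at this
  have hd1 : (d : ℝ) * (1 - P ^ (2 * K) / (2 * d)) = d - P ^ (2 * K) / 2 := by
    field_simp
  have hfin : mu0 ^ a ≤ P ^ (2 * K) := by
    have h1 := key.trans hRHS
    have h2 : (d : ℝ) * (1 - P ^ (2 * K) / (2 * d)) ≤ d * mu1 ^ a :=
      mul_le_mul_of_nonneg_left (hmu.trans hmu1a) hd0.le
    rw [hd1] at h2
    linarith
  have hPow : P ^ (2 * K) = (ξ ^ K) ^ a := by
    rw [← Real.rpow_mul hξ0.le, mul_comm K a, Real.rpow_mul hξ0.le, hξa,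
      Real.rpow_mul hP0.le]
    norm_num
  rw [hPow] at hfin
  exact (Real.rpow_le_rpow_iff hmu0nn (Real.rpow_nonneg hξ0.le _) ha).1 hfin

end Pool.Agent.Helper729_cluster
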