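import Mathlib

/-! Patterns hit by a family. -/

namespace Pool.Agent.Helper729_cluster

open Finset

variable {α : Type*} [DecidableEq α]

/-- Some member of `BB` contains `T` and misses `Z`. -/
def good (BB : Finset (Finset α)) (T Z : Finset α) : Prop := ∃ B ∈ BB, T ⊆ B ∧ Disjoint B Z

instance (BB : Finset (Finset α)) (T Z : Finset α) : Decidable (good BB T Z) := by
  unfold good; infer_instance

end Pool.Agent.Helper729_cluster
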