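import Mathlib
import Pool.Agent.Helper729_cluster.Good

/-! Part of the proof of MP_b0b8df_co. -/

namespace Pool.Agent.Helper729_cluster

open Finset

variable {α : Type*} [DecidableEq α]

section J3430
variable {β : Type*} [Fintype β] [DecidableEq β]

theorem cl_perm (T Z T' Z' : Finset β) (h : Disjoint T Z) (h' : Disjoint T' Z')
    (hc : T.card = T'.card) (hz : Z.card = Z'.card) :
    ∃ τ : Equiv.Perm β, T.map τ.toEmbedding = T' ∧ Z.map τ.toEmbedding = Z' := by
  let e1 : T ≃ T' := Finset.equivOfCardEq hc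
  let e2 : Z ≃ Z' := Finset.equivOfCardEq hz
  let e : {x // x ∈ T ∪ Z} ≃ {x // x ∈ T' ∪ Z'} :=
    (Equiv.Finset.union T Z h).symm.trans
      ((Equiv.sumCongr e1 e2).trans (Equiv.Finset.union T' Z' h'))
  let τ : Equiv.Perm β := e.extendSubtype
  have h1 : ∀ x ∈ T, τ x ∈ T' := by
    intro x hx
    have hx' : x ∈ T ∪ Z := Finset.mem_union_left _ hx
    have e3 : τ x = e ⟨x, hx'⟩ := Equiv.extendSubtype_apply_of_mem e x hx'
    have e4 : (Equiv.Finset.union T Z h).symm ⟨x, hx'⟩ = Sum.inl ⟨x, hx⟩ :=
      Equiv.Finset.union_symm_left h hx hx'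
    rw [e3]
    simp only [e, Equiv.trans_apply, e4, Equiv.sumCongr_apply, Sum.map_inl, Equiv.Finset.union_inl]
    exact (e1 ⟨x, hx⟩).2
  have h2 : ∀ x ∈ Z, τ x ∈ Z' := by
    intro x hx
    have hx' : x ∈ T ∪ Z := Finset.mem_union_right _ hx
    have e3 : τ x = e ⟨x, hx'⟩ := Equiv.extendSubtype_apply_of_mem e x hx'
    have e4 : (Equiv.Finset.union T Z h).symm ⟨x, hx'⟩ = Sum.inr ⟨x, hx⟩ :=
      Equiv.Finset.union_symm_right h hx hx'
    rw [e3]
    simp only [e, Equiv.trans_apply, e4, Equiv.sumCongr_apply, Sum.map_inr, Equiv.Finset.union_inr]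
    exact (e2 ⟨x, hx⟩).2
  refine ⟨τ, ?_, ?_⟩
  · apply Finset.eq_of_subset_of_card_le
    · intro y hy
      obtain ⟨x, hx, rfl⟩ := Finset.mem_map.1 hy
      exact h1 x hx
    · rw [Finset.card_map, hc]
  · apply Finset.eq_of_subset_of_card_le
    · intro y hy
      obtain ⟨x, hx, rfl⟩ := Finset.mem_map.1 hy
      exact h2 x hx
    · rw [Finset.card_map, hz]

theorem cl_avg {G X : Type*} [Group G] [Fintype G] [DecidableEq X] (φ : G → X) (O F : Finset X)
    (hφ : ∀ σ, φ σ ∈ O) (hO : ∀ y ∈ O, ∀ y' ∈ O, ∃ τ : G, ∀ σ, φ σ = y → φ (τ * σ) = y')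
    (hF : F ⊆ O) :
    (univ.filter (fun σ => φ σ ∈ F)).card * O.card = F.card * Fintype.card G := by
  have hle : ∀ y ∈ O, ∀ y' ∈ O, (univ.filter (fun σ => φ σ = y)).card ≤
      (univ.filter (fun σ => φ σ = y')).card := by
    intro y hy y' hy'
    obtain ⟨τ, hτ⟩ := hO y hy y' hy'
    apply Finset.card_le_card_of_injOn (fun σ => τ * σ)
    · intro σ hσ
      simp only [coe_filter, mem_univ, true_and, Set.mem_ofPred_eq] at hσ ⊢
      exact hτ σ hσ
    · intro σ _ σ' _ h
      exact mul_left_cancel h
  have hy0 : φ 1 ∈ O := hφ 1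
  set s := (univ.filter (fun σ => φ σ = φ 1)).card with hsdef
  have hs : ∀ y ∈ O, (univ.filter (fun σ => φ σ = y)).card = s :=
    fun y hy => le_antisymm (hle y hy _ hy0) (hle _ hy0 y hy)
  have h1 : ∀ F ⊆ O, (univ.filter (fun σ => φ σ ∈ F)).card = F.card * s := by
    intro F hF
    rw [Finset.card_eq_sum_card_fiberwise (f := φ) (t := F) (by intro σ hσ; simpa using hσ)]
    rw [Finset.sum_congr rfl (g := fun _ => s)]
    · simp
    · intro y hy
      rw [← hs y (hF hy)]
      congr 1
      ext σ
      simp only [mem_filter, mem_univ, true_and]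
      constructor
      · exact fun h => h.2
      · rintro rfl
        exact ⟨hy, rfl⟩
  have h2 := h1 O (Finset.Subset.refl _)
  have h3 : (univ.filter (fun σ => φ σ ∈ O)) = univ := by
    ext σ
    simp [hφ]
  rw [h3, Finset.card_univ] at h2
  rw [h1 F hF, h2]
  ring

/-- one set -/
theorem cl_count1 (R : Finset β) (F : Finset (Finset β)) (hF : ∀ S ∈ F, S.card = R.card) :
    (univ.filter (fun σ : Equiv.Perm β => R.map σ.toEmbedding ∈ F)).card *
      (Fintype.card β).choose R.card = F.card * Fintype.card (Equiv.Perm β) := by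
  have h := cl_avg (G := Equiv.Perm β) (fun σ => R.map σ.toEmbedding)
    ((univ : Finset β).powersetCard R.card) F ?_ ?_ ?_
  · rwa [Finset.card_powersetCard, Finset.card_univ] at h
  · intro σ
    rw [Finset.mem_powersetCard]
    exact ⟨Finset.subset_univ _, Finset.card_map _⟩
  · intro y hy y' hy'
    rw [Finset.mem_powersetCard] at hy hy'
    obtain ⟨τ, h1, -⟩ := cl_perm y ∅ y' ∅ (Finset.disjoint_empty_right _)
      (Finset.disjoint_empty_right _) (hy.2.trans hy'.2.symm) rfl
    refine ⟨τ, ?_⟩
    rintro σ rfl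
    rw [← h1, Finset.map_map]
    rfl
  · intro S hS
    rw [Finset.mem_powersetCard]
    exact ⟨Finset.subset_univ _, hF S hS⟩

/-- two sets -/
theorem cl_count2 (P Q : Finset β) (hPQ : Disjoint P Q)
    (g : Finset β → Finset β → Prop) [∀ S Z, Decidable (g S Z)] :
    (univ.filter (fun σ : Equiv.Perm β => g (P.map σ.toEmbedding) (Q.map σ.toEmbedding))).card *
      ((Fintype.card β).choose P.card * (Fintype.card β - P.card).choose Q.card) =
    (∑ S ∈ (univ : Finset β).powersetCard P.card,
      (((univ \ S).powersetCard Q.card).filter (fun Z => g S Z)).card) *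
      Fintype.card (Equiv.Perm β) := by
  set O : Finset ((_ : Finset β) × Finset β) :=
    ((univ : Finset β).powersetCard P.card).sigma (fun S => (univ \ S).powersetCard Q.card) with hO
  set F : Finset ((_ : Finset β) × Finset β) :=
    ((univ : Finset β).powersetCard P.card).sigma
      (fun S => ((univ \ S).powersetCard Q.card).filter (fun Z => g S Z)) with hF
  have hmemO : ∀ y : (_ : Finset β) × Finset β, y ∈ O ↔
      y.1.card = P.card ∧ y.2.card = Q.card ∧ Disjoint y.1 y.2 := by
    intro y
    rw [hO, Finset.mem_sigma, Finset.mem_powersetCard, Finset.mem_powersetCard]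
    constructor
    · rintro ⟨⟨-, h1⟩, h2, h3⟩
      exact ⟨h1, h3, (Finset.disjoint_of_subset_left h2 Finset.sdiff_disjoint).symm⟩
    · rintro ⟨h1, h2, h3⟩
      refine ⟨⟨Finset.subset_univ _, h1⟩, ?_, h2⟩
      intro x hx
      rw [Finset.mem_sdiff]
      exact ⟨Finset.mem_univ _, fun hx' => (Finset.disjoint_left.1 h3 hx') hx⟩
  have h := cl_avg (G := Equiv.Perm β) (fun σ => (⟨P.map σ.toEmbedding, Q.map σ.toEmbedding⟩ : (_ : Finset β) × Finset β))
    O F ?_ ?_ ?_
  · have hcO : O.card = (Fintype.card β).choose P.card * (Fintype.card β - P.card).choose Q.card := by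
      rw [hO, Finset.card_sigma]
      rw [Finset.sum_congr rfl (g := fun _ => (Fintype.card β - P.card).choose Q.card)]
      · rw [Finset.sum_const, Finset.card_powersetCard, Finset.card_univ, smul_eq_mul]
      · intro S hS
        rw [Finset.mem_powersetCard] at hS
        rw [Finset.card_powersetCard, Finset.card_sdiff_of_subset (Finset.subset_univ _), Finset.card_univ, hS.2]
    have hcF : F.card = ∑ S ∈ (univ : Finset β).powersetCard P.card,
      (((univ \ S).powersetCard Q.card).filter (fun Z => g S Z)).card := by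
      rw [hF, Finset.card_sigma]
    rw [hcO, hcF] at h
    rw [← h]
    congr 2
    ext σ
    simp only [mem_filter, mem_univ, true_and]
    have hm := (hmemO ⟨P.map σ.toEmbedding, Q.map σ.toEmbedding⟩).2
      ⟨Finset.card_map _, Finset.card_map _, (Finset.disjoint_map _).2 hPQ⟩
    rw [hO, Finset.mem_sigma] at hm
    rw [hF, Finset.mem_sigma, Finset.mem_filter]
    constructor
    · intro hg
      exact ⟨hm.1, hm.2, hg⟩
    · intro hg
      exact hg.2.2
  · intro σ
    rw [hmemO]
    exact ⟨Finset.card_map _, Finset.card_map _, (Finset.disjoint_map _).2 hPQ⟩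
  · rintro ⟨y1, y2⟩ hy ⟨z1, z2⟩ hz
    rw [hmemO] at hy hz
    obtain ⟨τ, h1, h2⟩ := cl_perm y1 y2 z1 z2 hy.2.2 hz.2.2 (hy.1.trans hz.1.symm) (hy.2.1.trans hz.2.1.symm)
    refine ⟨τ, ?_⟩
    intro σ hσ
    simp only [Sigma.mk.injEq, heq_eq_eq] at hσ ⊢
    rw [← h1, ← h2, ← hσ.1, ← hσ.2, Finset.map_map, Finset.map_map]
    exact ⟨rfl, rfl⟩
  · intro y hy
    rw [hF, Finset.mem_sigma, Finset.mem_filter] at hy
    rw [hO, Finset.mem_sigma]
    exact ⟨hy.1, hy.2.1⟩

theorem cl_main (ι : β ↪ α) (BB GG : Finset (Finset α)) (d a0 b : ℕ)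
    (hd : 1 ≤ d) (hV : d * a0 + b ≤ Fintype.card β)
    (hgood : ∀ (T : Fin d → Finset α) (Z : Finset α), (∀ i, T i ⊆ univ.map ι) → (∀ i, (T i).card = a0) →
      (∀ i j, i ≠ j → Disjoint (T i) (T j)) → Z ⊆ univ.map ι → Z.card = b → (∀ i, Disjoint (T i) Z) →
      good BB (univ.biUnion T) Z → ∃ i, Z ∪ (univ.erase i).biUnion T ∈ GG) :
    (∑ S ∈ (univ : Finset β).powersetCard (d * a0),
        ((((univ \ S).powersetCard b).filter (fun Z => good BB (S.map ι) (Z.map ι))).card)) *
      ((Fintype.card β).choose ((d - 1) * a0 + b)) ≤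
    d * GG.card * ((Fintype.card β).choose (d * a0) * (Fintype.card β - d * a0).choose b) := by
  obtain ⟨e0⟩ : Nonempty ((Fin d × Fin a0) ⊕ Fin b ↪ β) := by
    apply Function.Embedding.nonempty_of_card_le
    simpa using hV
  let P : Fin d → Finset β := fun i => univ.map ⟨fun j : Fin a0 => e0 (Sum.inl (i, j)), fun j j' h => by
    have := e0.injective h
    simpa using this⟩
  let Q : Finset β := univ.map ⟨fun j : Fin b => e0 (Sum.inr j), fun j j' h => by
    have := e0.injective h
    simpa using this⟩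
  have hPc : ∀ i, (P i).card = a0 := by
    intro i
    simp [P]
  have hQc : Q.card = b := by simp [Q]
  have hPP : ∀ i j, i ≠ j → Disjoint (P i) (P j) := by
    intro i j hij
    rw [Finset.disjoint_left]
    intro x hx hx'
    simp only [P, Finset.mem_map, mem_univ, true_and, Function.Embedding.coeFn_mk] at hx hx'
    obtain ⟨k, rfl⟩ := hx
    obtain ⟨k', hk'⟩ := hx'
    have := e0.injective hk'
    simp only [Sum.inl.injEq, Prod.mk.injEq] at this
    exact hij this.1.symm
  have hPQ : ∀ i, Disjoint (P i) Q := by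
    intro i
    rw [Finset.disjoint_left]
    intro x hx hx'
    simp only [P, Q, Finset.mem_map, mem_univ, true_and, Function.Embedding.coeFn_mk] at hx hx'
    obtain ⟨k, rfl⟩ := hx
    obtain ⟨k', hk'⟩ := hx'
    have := e0.injective hk'
    simp at this
  set PU : Finset β := univ.biUnion P with hPU
  have hPUc : PU.card = d * a0 := by
    rw [hPU, Finset.card_biUnion (fun i _ j _ hij => hPP i j hij)]
    simp [hPc]
  have hPUQ : Disjoint PU Q := by
    rw [hPU, Finset.disjoint_biUnion_left]
    exact fun i _ => hPQ i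
  let R : Fin d → Finset β := fun i => Q ∪ (univ.erase i).biUnion P
  have hRc : ∀ i, (R i).card = (d - 1) * a0 + b := by
    intro i
    have h1 : Disjoint Q ((univ.erase i).biUnion P) := by
      rw [Finset.disjoint_biUnion_right]
      exact fun j _ => (hPQ j).symm
    simp only [R]
    rw [Finset.card_union_of_disjoint h1, hQc, Finset.card_biUnion (fun i _ j _ hij => hPP i j hij),
      Finset.sum_congr rfl (fun j _ => hPc j), Finset.sum_const, Finset.card_erase_of_mem (Finset.mem_univ i),
      Finset.card_univ, Fintype.card_fin, smul_eq_mul]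
    ring
  have hA := cl_count2 PU Q hPUQ (fun S Z => good BB (S.map ι) (Z.map ι))
  rw [hPUc, hQc] at hA
  set Gs := univ.filter (fun σ : Equiv.Perm β => good BB ((PU.map σ.toEmbedding).map ι) ((Q.map σ.toEmbedding).map ι)) with hGs
  -- (b)
  let F1 : Finset (Finset β) := ((univ : Finset β).powersetCard ((d - 1) * a0 + b)).filter (fun S => S.map ι ∈ GG)
  have hF1 : F1.card ≤ GG.card := by
    apply Finset.card_le_card_of_injOn (fun S => S.map ι)
    · intro S hS
      have hS' : S ∈ F1 := hS
      exact (Finset.mem_filter.1 hS').2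
    · intro S _ S' _ h
      exact Finset.map_injective ι h
  have hsub : Gs ⊆ univ.biUnion (fun i : Fin d => univ.filter (fun σ : Equiv.Perm β => (R i).map σ.toEmbedding ∈ F1)) := by
    intro σ hσ
    have hσ' := (Finset.mem_filter.1 hσ).2
    have key := hgood (fun i => ((P i).map σ.toEmbedding).map ι) ((Q.map σ.toEmbedding).map ι)
      (fun i => Finset.map_subset_map.2 (Finset.subset_univ _))
      (fun i => by rw [Finset.card_map, Finset.card_map, hPc])
      (fun i j hij => (Finset.disjoint_map _).2 ((Finset.disjoint_map _).2 (hPP i j hij)))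
      (Finset.map_subset_map.2 (Finset.subset_univ _))
      (by rw [Finset.card_map, Finset.card_map, hQc])
      (fun i => (Finset.disjoint_map _).2 ((Finset.disjoint_map _).2 (hPQ i)))
      (by
        have e : (univ.biUnion fun i => ((P i).map σ.toEmbedding).map ι) = (PU.map σ.toEmbedding).map ι := by
          rw [hPU]
          ext x
          simp only [Finset.mem_biUnion, Finset.mem_map]
          constructor
          · rintro ⟨i, hi, y, ⟨z, hz, rfl⟩, rfl⟩
            exact ⟨_, ⟨z, ⟨i, hi, hz⟩, rfl⟩, rfl⟩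
          · rintro ⟨y, ⟨z, ⟨i, hi, hz⟩, rfl⟩, rfl⟩
            exact ⟨i, hi, _, ⟨z, hz, rfl⟩, rfl⟩
        rw [e]
        exact hσ')
    obtain ⟨i, hi⟩ := key
    rw [Finset.mem_biUnion]
    refine ⟨i, Finset.mem_univ _, ?_⟩
    rw [Finset.mem_filter]
    refine ⟨Finset.mem_univ _, ?_⟩
    rw [Finset.mem_filter, Finset.mem_powersetCard]
    refine ⟨⟨Finset.subset_univ _, by rw [Finset.card_map, hRc]⟩, ?_⟩
    have e : ((R i).map σ.toEmbedding).map ι = (Q.map σ.toEmbedding).map ι ∪
        (univ.erase i).biUnion (fun i => ((P i).map σ.toEmbedding).map ι) := by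
      ext x
      simp only [R, Finset.mem_map, Finset.mem_union, Finset.mem_biUnion]
      constructor
      · rintro ⟨y, ⟨z, hz, rfl⟩, rfl⟩
        rcases hz with hz | ⟨j, hj, hz⟩
        · exact Or.inl ⟨_, ⟨z, hz, rfl⟩, rfl⟩
        · exact Or.inr ⟨j, hj, _, ⟨z, hz, rfl⟩, rfl⟩
      · rintro (⟨y, ⟨z, hz, rfl⟩, rfl⟩ | ⟨j, hj, y, ⟨z, hz, rfl⟩, rfl⟩)
        · exact ⟨_, ⟨z, Or.inl hz, rfl⟩, rfl⟩
        · exact ⟨_, ⟨z, Or.inr ⟨j, hj, hz⟩, rfl⟩, rfl⟩
    rw [e]
    exact hi
  have hB : Gs.card * (Fintype.card β).choose ((d - 1) * a0 + b) ≤ d * (GG.card * Fintype.card (Equiv.Perm β)) := by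
    calc Gs.card * (Fintype.card β).choose ((d - 1) * a0 + b)
        ≤ (∑ i : Fin d, (univ.filter (fun σ : Equiv.Perm β => (R i).map σ.toEmbedding ∈ F1)).card) *
            (Fintype.card β).choose ((d - 1) * a0 + b) := by
          gcongr
          exact (Finset.card_le_card hsub).trans Finset.card_biUnion_le
      _ = ∑ i : Fin d, (univ.filter (fun σ : Equiv.Perm β => (R i).map σ.toEmbedding ∈ F1)).card *
            (Fintype.card β).choose ((d - 1) * a0 + b) := by rw [Finset.sum_mul]
      _ = ∑ _i : Fin d, F1.card * Fintype.card (Equiv.Perm β) := by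
          apply Finset.sum_congr rfl
          intro i _
          have := cl_count1 (R i) F1 (by
            intro S hS
            rw [hRc]
            exact (Finset.mem_powersetCard.1 (Finset.mem_filter.1 hS).1).2)
          rw [hRc] at this
          exact this
      _ = d * (F1.card * Fintype.card (Equiv.Perm β)) := by simp
      _ ≤ _ := by gcongr
  have hpos : 0 < Fintype.card (Equiv.Perm β) := Fintype.card_pos
  apply Nat.le_of_mul_le_mul_left _ hpos
  calc Fintype.card (Equiv.Perm β) * ((∑ S ∈ (univ : Finset β).powersetCard (d * a0),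
        ((((univ \ S).powersetCard b).filter (fun Z => good BB (S.map ι) (Z.map ι))).card)) *
      ((Fintype.card β).choose ((d - 1) * a0 + b)))
      = ((∑ S ∈ (univ : Finset β).powersetCard (d * a0),
        ((((univ \ S).powersetCard b).filter (fun Z => good BB (S.map ι) (Z.map ι))).card)) *
          Fintype.card (Equiv.Perm β)) * ((Fintype.card β).choose ((d - 1) * a0 + b)) := by ring
    _ = (Gs.card * ((Fintype.card β).choose (d * a0) * (Fintype.card β - d * a0).choose b)) *
        ((Fintype.card β).choose ((d - 1) * a0 + b)) := by rw [← hA]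
    _ = (Gs.card * ((Fintype.card β).choose ((d - 1) * a0 + b))) *
        ((Fintype.card β).choose (d * a0) * (Fintype.card β - d * a0).choose b) := by ring
    _ ≤ (d * (GG.card * Fintype.card (Equiv.Perm β))) *
        ((Fintype.card β).choose (d * a0) * (Fintype.card β - d * a0).choose b) := by gcongr
    _ = _ := by ring

end J3430

/-- TARGET 2 -/
theorem bootstrap_count (V : Finset α) (BB GG : Finset (Finset α)) (d a0 b : ℕ)
    (hd : 1 ≤ d) (hV : d * a0 + b ≤ V.card)
    (hGG : ∀ G ∈ GG, G ⊆ V ∧ G.card = (d - 1) * a0 + b)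
    (hgood : ∀ (T : Fin d → Finset α) (Z : Finset α), (∀ i, T i ⊆ V) → (∀ i, (T i).card = a0) →
      (∀ i j, i ≠ j → Disjoint (T i) (T j)) → Z ⊆ V → Z.card = b → (∀ i, Disjoint (T i) Z) →
      good BB (univ.biUnion T) Z → ∃ i, Z ∪ (univ.erase i).biUnion T ∈ GG) :
    (∑ T ∈ V.powersetCard (d * a0),
        ((((V \ T).powersetCard b).filter (fun Z => good BB T Z)).card : ℝ)) *
      (V.card.choose ((d - 1) * a0 + b) : ℝ) ≤
    d * GG.card * ((V.card.choose (d * a0) : ℝ) * ((V.card - d * a0).choose b : ℝ)) := by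
  classical
  set ι : {x // x ∈ V} ↪ α := Function.Embedding.subtype (fun x => x ∈ V) with hι
  have hVm : (univ : Finset {x // x ∈ V}).map ι = V := by
    ext x
    simp [hι]
  have hN : Fintype.card {x // x ∈ V} = V.card := Fintype.card_coe V
  have h := cl_main ι BB GG d a0 b hd (by rw [hN]; exact hV) (by rw [hVm]; exact hgood)
  rw [hN] at h
  have hsum : (∑ S ∈ (univ : Finset {x // x ∈ V}).powersetCard (d * a0),
        ((((univ \ S).powersetCard b).filter (fun Z => good BB (S.map ι) (Z.map ι))).card)) =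
      ∑ T ∈ V.powersetCard (d * a0), (((V \ T).powersetCard b).filter (fun Z => good BB T Z)).card := by
    have e1 : V.powersetCard (d * a0) =
        ((univ : Finset {x // x ∈ V}).powersetCard (d * a0)).map (mapEmbedding ι).toEmbedding := by
      rw [← Finset.powersetCard_map, hVm]
    rw [e1, Finset.sum_map]
    apply Finset.sum_congr rfl
    intro S _
    have e2 : V \ (mapEmbedding ι).toEmbedding S = (univ \ S).map ι := by
      rw [Finset.map_sdiff, hVm]
      rfl
    rw [e2, Finset.powersetCard_map, Finset.filter_map, Finset.card_map]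
    rfl
  rw [hsum] at h
  exact_mod_cast h

end Pool.Agent.Helper729_cluster
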