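import Mathlib

/-! Part of the proof of MP_b0b8df_co. -/

namespace Pool.Agent.Helper729_cluster

open Finset

variable {α : Type*} [DecidableEq α]

/-- `t log t`. -/
noncomputable def phi (t : ℝ) : ℝ := t * Real.log t


theorem phi_zero : phi 0 = 0 := by simp [phi]

theorem pw (a p q m : ℝ) (ha : 0 ≤ a) (hp : 0 ≤ p) (hq : 0 ≤ q) (hm : 0 < m)
    (hp' : 0 < a → 0 < p) (hq' : 0 < a → 0 < q) :
    a - p * q / m ≤ phi a - a * Real.log p - a * Real.log q + a * Real.log m := by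
  rcases ha.eq_or_lt with h0 | h0
  · rw [← h0, phi_zero]
    have : 0 ≤ p * q / m := by positivity
    simp only [zero_mul]
    linarith
  · have hp0 := hp' h0
    have hq0 := hq' h0
    have ht : 0 < a * m / (p * q) := by positivity
    have h1 := Real.one_sub_inv_le_log_of_pos ht
    have h2 : Real.log (a * m / (p * q)) = Real.log a + Real.log m - (Real.log p + Real.log q) := by
      rw [Real.log_div (by positivity) (by positivity), Real.log_mul h0.ne' hm.ne',
        Real.log_mul hp0.ne' hq0.ne']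
    rw [h2] at h1
    have h3 := mul_le_mul_of_nonneg_left h1 h0.le
    have h4 : a * (1 - (a * m / (p * q))⁻¹) = a - p * q / m := by
      field_simp
    rw [h4] at h3
    unfold phi
    linarith

theorem swap_sum (W : Finset α) (f : α → α → ℝ) :
    ∑ y ∈ W, ∑ z ∈ W.erase y, f y z = ∑ z ∈ W, ∑ y ∈ W.erase z, f y z := by
  refine Finset.sum_comm' ?_
  intro x y
  simp only [Finset.mem_erase]
  constructor
  · rintro ⟨hx, hne, hy⟩; exact ⟨⟨fun h => hne h.symm, hx⟩, hy⟩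
  · rintro ⟨⟨hne, hx⟩, hy⟩; exact ⟨hx, fun h => hne h.symm, hy⟩

/-- TARGET -/
theorem pair_ineq (W : Finset α) (F : α → α → ℝ) (F1 : α → ℝ) (m : ℝ) (hW : 2 ≤ W.card)
    (hF0 : ∀ y ∈ W, ∀ z ∈ W, 0 ≤ F y z) (hsymm : ∀ y ∈ W, ∀ z ∈ W, F y z = F z y)
    (hF1 : ∀ y ∈ W, ((W.card : ℝ) - 1) * F1 y = ∑ z ∈ W.erase y, F y z)
    (hm : (W.card : ℝ) * m = ∑ y ∈ W, F1 y) :
    0 ≤ ∑ y ∈ W, ∑ z ∈ W.erase y, phi (F y z) - 2 * ((W.card : ℝ) - 1) * ∑ y ∈ W, phi (F1 y)
      + (W.card : ℝ) * ((W.card : ℝ) - 1) * phi m := by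
  have hw : (2 : ℝ) ≤ (W.card : ℝ) := by exact_mod_cast hW
  set w : ℝ := (W.card : ℝ) with hwdef
  have hw1 : 0 < w - 1 := by linarith
  have hF1nn : ∀ y ∈ W, 0 ≤ F1 y := by
    intro y hy
    have h1 : 0 ≤ ∑ z ∈ W.erase y, F y z :=
      Finset.sum_nonneg fun z hz => hF0 y hy z (Finset.mem_of_mem_erase hz)
    rw [← hF1 y hy] at h1
    exact nonneg_of_mul_nonneg_right h1 hw1
  have hF1pos : ∀ y ∈ W, ∀ z ∈ W.erase y, 0 < F y z → 0 < F1 y := by
    intro y hy z hz hpos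
    have h1 : F y z ≤ ∑ z ∈ W.erase y, F y z :=
      Finset.single_le_sum (f := fun z => F y z)
        (fun z hz => hF0 y hy z (Finset.mem_of_mem_erase hz)) hz
    rw [← hF1 y hy] at h1
    exact (pos_iff_pos_of_mul_pos (lt_of_lt_of_le hpos h1)).1 hw1
  have hmnn : 0 ≤ m := by
    have h1 : 0 ≤ ∑ y ∈ W, F1 y := Finset.sum_nonneg hF1nn
    rw [← hm] at h1
    exact nonneg_of_mul_nonneg_right h1 (by linarith)
  rcases hmnn.eq_or_lt with hm0 | hmpos
  · have h1 : ∑ y ∈ W, F1 y = 0 := by rw [← hm, ← hm0, mul_zero]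
    have h2 : ∀ y ∈ W, F1 y = 0 := (Finset.sum_eq_zero_iff_of_nonneg hF1nn).1 h1
    have h3 : ∀ y ∈ W, ∀ z ∈ W.erase y, F y z = 0 := by
      intro y hy
      have h4 : ∑ z ∈ W.erase y, F y z = 0 := by rw [← hF1 y hy, h2 y hy, mul_zero]
      exact (Finset.sum_eq_zero_iff_of_nonneg
        (fun z hz => hF0 y hy z (Finset.mem_of_mem_erase hz))).1 h4
    have h5 : ∑ y ∈ W, ∑ z ∈ W.erase y, phi (F y z) = 0 :=
      Finset.sum_eq_zero fun y hy => Finset.sum_eq_zero fun z hz => by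
        rw [h3 y hy z hz, phi_zero]
    have h6 : ∑ y ∈ W, phi (F1 y) = 0 :=
      Finset.sum_eq_zero fun y hy => by rw [h2 y hy, phi_zero]
    rw [h5, h6, ← hm0, phi_zero]
    simp
  · have hpt : ∀ y ∈ W, ∀ z ∈ W.erase y, F y z - F1 y * F1 z / m ≤
        phi (F y z) - F y z * Real.log (F1 y) - F y z * Real.log (F1 z) + F y z * Real.log m := by
      intro y hy z hz
      have hzW := Finset.mem_of_mem_erase hz
      have hyz : y ∈ W.erase z := Finset.mem_erase.2 ⟨(Finset.ne_of_mem_erase hz).symm, hy⟩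
      refine pw _ _ _ _ (hF0 y hy z hzW) (hF1nn y hy) (hF1nn z hzW) hmpos
        (hF1pos y hy z hz) (fun h => hF1pos z hzW y hyz ?_)
      rwa [← hsymm y hy z hzW]
    have hsum := Finset.sum_le_sum fun y hy => Finset.sum_le_sum (hpt y hy)
    have eB : ∑ y ∈ W, ∑ z ∈ W.erase y, F y z * Real.log (F1 y) =
        (w - 1) * ∑ y ∈ W, phi (F1 y) := by
      rw [Finset.mul_sum]
      refine Finset.sum_congr rfl fun y hy => ?_
      rw [← Finset.sum_mul, ← hF1 y hy, phi]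
      ring
    have eC : ∑ y ∈ W, ∑ z ∈ W.erase y, F y z * Real.log (F1 z) =
        (w - 1) * ∑ y ∈ W, phi (F1 y) := by
      rw [swap_sum W (fun y z => F y z * Real.log (F1 z)), ← eB]
      refine Finset.sum_congr rfl fun y hy => Finset.sum_congr rfl fun z hz => ?_
      rw [hsymm z (Finset.mem_of_mem_erase hz) y hy]
    have eE : ∑ y ∈ W, ∑ z ∈ W.erase y, F y z = (w - 1) * (w * m) := by
      rw [hm, Finset.mul_sum]
      exact Finset.sum_congr rfl fun y hy => (hF1 y hy).symm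
    have eD : ∑ y ∈ W, ∑ z ∈ W.erase y, F y z * Real.log m = w * (w - 1) * phi m := by
      have : ∑ y ∈ W, ∑ z ∈ W.erase y, F y z * Real.log m =
          (∑ y ∈ W, ∑ z ∈ W.erase y, F y z) * Real.log m := by
        rw [Finset.sum_mul]
        exact Finset.sum_congr rfl fun y _ => (Finset.sum_mul _ _ _).symm
      rw [this, eE, phi]; ring
    have eG : ∑ y ∈ W, ∑ z ∈ W.erase y, F1 y * F1 z / m =
        ((w * m) ^ 2 - ∑ y ∈ W, F1 y ^ 2) / m := by
      have h1 : ∀ y ∈ W, ∑ z ∈ W.erase y, F1 y * F1 z / m = (F1 y * (w * m) - F1 y ^ 2) / m := by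
        intro y hy
        rw [← Finset.sum_div, ← Finset.mul_sum]
        have : ∑ z ∈ W.erase y, F1 z = w * m - F1 y := by
          rw [hm, ← Finset.add_sum_erase W F1 hy]; ring
        rw [this]; ring
      rw [Finset.sum_congr rfl h1, ← Finset.sum_div, Finset.sum_sub_distrib, ← Finset.sum_mul, ← hm]
      ring
    have hCS : (w * m) ^ 2 ≤ w * ∑ y ∈ W, F1 y ^ 2 := by
      rw [hm, hwdef]
      exact sq_sum_le_card_mul_sum_sq
    have hS : w * m ^ 2 ≤ ∑ y ∈ W, F1 y ^ 2 := by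
      have hwpos : 0 < w := by linarith
      have : w * (w * m ^ 2) ≤ w * ∑ y ∈ W, F1 y ^ 2 := by nlinarith
      exact le_of_mul_le_mul_left this hwpos
    have hG : ((w * m) ^ 2 - ∑ y ∈ W, F1 y ^ 2) / m ≤ (w - 1) * (w * m) := by
      rw [div_le_iff₀ hmpos]
      nlinarith
    simp only [Finset.sum_sub_distrib, Finset.sum_add_distrib] at hsum
    rw [eB, eC, eD, eE, eG] at hsum
    linarith

end Pool.Agent.Helper729_cluster
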