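import Mathlib
import Pool.Agent.Helper729_cluster.PairIneq

/-! Part of the proof of MP_b0b8df_co. -/

namespace Pool.Agent.Helper729_cluster

open Finset

variable {α : Type*} [DecidableEq α]

/-- Average of `phi (M T)` over the `j`-subsets `T` of `V`. -/
noncomputable def lev (V : Finset α) (M : Finset α → ℝ) (j : ℕ) : ℝ :=
  (∑ T ∈ V.powersetCard j, phi (M T)) / (V.card.choose j : ℝ)

/-- TARGET 1 -/
theorem sum_chain (V : Finset α) (h : Finset α → ℝ) (j : ℕ) :
    ∑ T ∈ V.powersetCard j, ∑ y ∈ V \ T, h (insert y T) =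
      ((j : ℝ) + 1) * ∑ T ∈ V.powersetCard (j + 1), h T := by
  classical
  have h1 : ∑ T ∈ V.powersetCard j, ∑ y ∈ V \ T, h (insert y T) =
      ∑ T' ∈ V.powersetCard (j + 1), ∑ y ∈ T', h T' := by
    rw [Finset.sum_sigma', Finset.sum_sigma']
    refine Finset.sum_bij' (fun p _ => (⟨insert p.2 p.1, p.2⟩ : Σ _ : Finset α, α))
      (fun p _ => (⟨p.1.erase p.2, p.2⟩ : Σ _ : Finset α, α)) ?_ ?_ ?_ ?_ ?_
    · rintro ⟨T, y⟩ hp
      simp only [Finset.mem_sigma, Finset.mem_powersetCard, Finset.mem_sdiff] at hp ⊢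
      refine ⟨⟨Finset.insert_subset hp.2.1 hp.1.1, ?_⟩, Finset.mem_insert_self _ _⟩
      rw [Finset.card_insert_of_notMem hp.2.2, hp.1.2]
    · rintro ⟨T, y⟩ hp
      simp only [Finset.mem_sigma, Finset.mem_powersetCard, Finset.mem_sdiff] at hp ⊢
      refine ⟨⟨(Finset.erase_subset _ _).trans hp.1.1, ?_⟩, hp.1.1 hp.2, Finset.notMem_erase _ _⟩
      rw [Finset.card_erase_of_mem hp.2, hp.1.2]
      rfl
    · rintro ⟨T, y⟩ hp
      simp only [Finset.mem_sigma, Finset.mem_powersetCard, Finset.mem_sdiff] at hp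
      simp only [Finset.erase_insert hp.2.2]
    · rintro ⟨T, y⟩ hp
      simp only [Finset.mem_sigma, Finset.mem_powersetCard] at hp
      simp only [Finset.insert_erase hp.2]
    · rintro ⟨T, y⟩ hp
      rfl
  rw [h1, Finset.mul_sum]
  refine Finset.sum_congr rfl fun T hT => ?_
  rw [Finset.sum_const, (Finset.mem_powersetCard.1 hT).2, nsmul_eq_mul]
  push_cast
  ring

/-- TARGET 2 -/
theorem lev_second_diff (V : Finset α) (M : Finset α → ℝ) (J : ℕ) (hJ : J ≤ V.card)
    (hM0 : ∀ T ⊆ V, 0 ≤ M T)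
    (harm : ∀ T ⊆ V, T.card < J →
      ((V.card : ℝ) - T.card) * M T = ∑ y ∈ V \ T, M (insert y T))
    (j : ℕ) (hj : j + 2 ≤ J) :
    0 ≤ lev V M (j + 2) - 2 * lev V M (j + 1) + lev V M j := by
  classical
  set N := V.card with hN
  have hNj : j + 2 ≤ N := hj.trans hJ
  -- the inequality for one set
  have key : ∀ T ∈ V.powersetCard j,
      0 ≤ ∑ y ∈ V \ T, ∑ z ∈ V \ insert y T, phi (M (insert z (insert y T)))
        - 2 * (((N : ℝ) - j) - 1) * ∑ y ∈ V \ T, phi (M (insert y T))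
        + ((N : ℝ) - j) * (((N : ℝ) - j) - 1) * phi (M T) := by
    intro T hT
    rw [Finset.mem_powersetCard] at hT
    have hcard : (V \ T).card = N - j := by
      rw [Finset.card_sdiff_of_subset hT.1, hT.2]
    have hcr : (((V \ T).card : ℕ) : ℝ) = (N : ℝ) - j := by
      rw [hcard, Nat.cast_sub (by omega)]
    have herase : ∀ y ∈ V \ T, V \ insert y T = (V \ T).erase y := by
      intro y _
      ext x
      simp only [Finset.mem_sdiff, Finset.mem_insert, Finset.mem_erase]
      tauto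
    have hsub : ∀ y ∈ V \ T, insert y T ⊆ V := fun y hy =>
      Finset.insert_subset (Finset.mem_sdiff.1 hy).1 hT.1
    have h1 := pair_ineq (V \ T) (fun y z => M (insert z (insert y T))) (fun y => M (insert y T)) (M T)
      (by rw [hcard]; omega)
      (fun y hy z hz => hM0 _ (Finset.insert_subset (Finset.mem_sdiff.1 hz).1 (hsub y hy)))
      (fun y _ z _ => by simp only [Finset.insert_comm z y T])
      (fun y hy => by
        have h2 := harm (insert y T) (hsub y hy) (by
          rw [Finset.card_insert_of_notMem (Finset.mem_sdiff.1 hy).2, hT.2]; omega)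
        rw [Finset.card_insert_of_notMem (Finset.mem_sdiff.1 hy).2, hT.2, herase y hy] at h2
        rw [← h2, hcr]
        push_cast
        ring)
      (by
        have h2 := harm T hT.1 (by rw [hT.2]; omega)
        rw [← h2, hcr, hT.2])
    rw [hcr] at h1
    refine le_trans h1 (le_of_eq ?_)
    congr 2
    refine Finset.sum_congr rfl fun y hy => ?_
    rw [herase y hy]
  have hsum := Finset.sum_nonneg key
  rw [Finset.sum_add_distrib, Finset.sum_sub_distrib, ← Finset.mul_sum, ← Finset.mul_sum] at hsum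
  have e1 := sum_chain V (fun T => phi (M T)) j
  have e2 := sum_chain V (fun T => phi (M T)) (j + 1)
  have e3 := sum_chain V (fun T' => ∑ z ∈ V \ T', phi (M (insert z T'))) j
  rw [e1, e3, e2] at hsum
  set S0 := ∑ T ∈ V.powersetCard j, phi (M T) with hS0
  set S1 := ∑ T ∈ V.powersetCard (j + 1), phi (M T) with hS1
  set S2 := ∑ T ∈ V.powersetCard (j + 1 + 1), phi (M T) with hS2
  have c1 : ((N.choose (j + 1) : ℕ) : ℝ) * ((j : ℝ) + 1) = (N.choose j : ℕ) * ((N : ℝ) - j) := by
    have := Nat.choose_succ_right_eq N j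
    have h2 : ((N.choose (j + 1) * (j + 1) : ℕ) : ℝ) = ((N.choose j * (N - j) : ℕ) : ℝ) := by
      rw [this]
    push_cast [Nat.cast_sub (by omega : j ≤ N)] at h2
    exact h2
  have c2 : ((N.choose (j + 1 + 1) : ℕ) : ℝ) * ((j : ℝ) + 1 + 1) =
      (N.choose (j + 1) : ℕ) * ((N : ℝ) - j - 1) := by
    have := Nat.choose_succ_right_eq N (j + 1)
    have h2 : ((N.choose (j + 1 + 1) * (j + 1 + 1) : ℕ) : ℝ) =
        ((N.choose (j + 1) * (N - (j + 1)) : ℕ) : ℝ) := by
      rw [this]
    push_cast [Nat.cast_sub (by omega : j + 1 ≤ N)] at h2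
    rw [h2]
    ring
  have p0 : (0 : ℝ) < (N.choose j : ℕ) := by exact_mod_cast Nat.choose_pos (by omega)
  have p1 : (0 : ℝ) < (N.choose (j + 1) : ℕ) := by exact_mod_cast Nat.choose_pos (by omega)
  have p2 : (0 : ℝ) < (N.choose (j + 1 + 1) : ℕ) := by exact_mod_cast Nat.choose_pos (by omega)
  have hNjr : (j : ℝ) + 2 ≤ N := by exact_mod_cast hNj
  have hj0 : (0 : ℝ) ≤ j := Nat.cast_nonneg _
  show 0 ≤ S2 / ((N.choose (j + 1 + 1) : ℕ) : ℝ) - 2 * (S1 / ((N.choose (j + 1) : ℕ) : ℝ)) +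
    S0 / ((N.choose j : ℕ) : ℝ)
  have q1 : ((N.choose (j + 1) : ℕ) : ℝ) = (N.choose j : ℕ) * ((N : ℝ) - j) / ((j : ℝ) + 1) := by
    rw [eq_div_iff (by linarith)]
    exact c1
  have q2 : ((N.choose (j + 1 + 1) : ℕ) : ℝ) =
      (N.choose j : ℕ) * ((N : ℝ) - j) * ((N : ℝ) - j - 1) / (((j : ℝ) + 1) * ((j : ℝ) + 1 + 1)) := by
    rw [eq_div_iff (by positivity)]
    rw [mul_comm ((j : ℝ) + 1), ← mul_assoc, c2, mul_right_comm, c1]
  set c := ((N.choose j : ℕ) : ℝ) with hc
  have hd : (0 : ℝ) < (N : ℝ) - j := by linarith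
  have hd1 : (0 : ℝ) < (N : ℝ) - j - 1 := by linarith
  have hD : 0 < c * ((N : ℝ) - j) * ((N : ℝ) - j - 1) := by positivity
  have e : S2 / ((N.choose (j + 1 + 1) : ℕ) : ℝ) - 2 * (S1 / ((N.choose (j + 1) : ℕ) : ℝ)) + S0 / c =
      (((j : ℝ) + 1) * ((((j + 1 : ℕ) : ℝ) + 1) * S2) - 2 * ((N : ℝ) - j - 1) * (((j : ℝ) + 1) * S1) +
        ((N : ℝ) - j) * ((N : ℝ) - j - 1) * S0) / (c * ((N : ℝ) - j) * ((N : ℝ) - j - 1)) := by
    rw [q1, q2]
    have hj1 : (j : ℝ) + 1 ≠ 0 := by positivity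
    have hj2 : (j : ℝ) + 1 + 1 ≠ 0 := by positivity
    have hd' := hd.ne'
    have hd1' := hd1.ne'
    have hp := p0.ne'
    field_simp
    push_cast
    ring
  rw [e]
  exact div_nonneg hsum hD.le

/-- TARGET 3 -/
theorem convex_seq (x : ℕ → ℝ) (J : ℕ) (hx : ∀ j, j + 2 ≤ J → 0 ≤ x (j + 2) - 2 * x (j + 1) + x j)
    (a : ℕ) (ha : a ≤ J) : (J : ℝ) * x a ≤ ((J : ℝ) - a) * x 0 + a * x J := by
  -- increments
  have hinc : ∀ i k, i ≤ k → k + 1 ≤ J → x (i + 1) - x i ≤ x (k + 1) - x k := by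
    intro i k hik
    induction k, hik using Nat.le_induction with
    | base => intro _; exact le_refl _
    | succ k hik ih =>
      intro hk
      have h1 := ih (by omega)
      have h2 := hx k (by omega)
      have e : x (k + 2) = x (k + 1 + 1) := rfl
      linarith
  rcases Nat.eq_or_lt_of_le ha with h | h
  · subst h
    nlinarith
  · -- left part
    have hL : ∀ i, i ≤ a → x a - x (a - i) ≤ i * (x (a + 1) - x a) := by
      intro i
      induction i with
      | zero => intro _; simp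
      | succ i ih =>
        intro hi
        have h1 := ih (by omega)
        have h2 := hinc (a - (i + 1)) a (by omega) (by omega)
        have e1 : a - (i + 1) + 1 = a - i := by omega
        rw [e1] at h2
        push_cast
        linarith
    have hR : ∀ i, a + i ≤ J → (i : ℝ) * (x (a + 1) - x a) ≤ x (a + i) - x a := by
      intro i
      induction i with
      | zero => intro _; simp
      | succ i ih =>
        intro hi
        have h1 := ih (by omega)
        have h2 := hinc a (a + i) (by omega) (by omega)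
        have e1 : a + i + 1 = a + (i + 1) := by omega
        rw [e1] at h2
        push_cast
        linarith
    have h1 := hL a le_rfl
    have h2 := hR (J - a) (by omega)
    rw [Nat.sub_self] at h1
    rw [show a + (J - a) = J by omega, Nat.cast_sub ha] at h2
    set D := x (a + 1) - x a
    have h3 : ((J : ℝ) - a) * (x a - x 0) ≤ ((J : ℝ) - a) * (a * D) :=
      mul_le_mul_of_nonneg_left h1 (by
        have : (a : ℝ) ≤ J := by exact_mod_cast ha
        linarith)
    have h4 : (a : ℝ) * (((J : ℝ) - a) * D) ≤ a * (x J - x a) :=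
      mul_le_mul_of_nonneg_left h2 (Nat.cast_nonneg _)
    nlinarith

/-- TARGET 4 -/
theorem harmonic_convex (V : Finset α) (M : Finset α → ℝ) (J : ℕ) (hJ : J ≤ V.card)
    (hM0 : ∀ T ⊆ V, 0 ≤ M T)
    (harm : ∀ T ⊆ V, T.card < J →
      ((V.card : ℝ) - T.card) * M T = ∑ y ∈ V \ T, M (insert y T))
    (a : ℕ) (ha : a ≤ J) :
    (J : ℝ) * lev V M a ≤ ((J : ℝ) - a) * lev V M 0 + a * lev V M J := by
  exact convex_seq (fun j => lev V M j) J (fun j hj => lev_second_diff V M J hJ hM0 harm j hj) a ha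

end Pool.Agent.Helper729_cluster
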