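import Mathlib
import Pool.Agent.Helper729_cluster.Harmonic
import Pool.Agent.Helper729_cluster.Good

/-! Part of the proof of MP_b0b8df_co. -/

namespace Pool.Agent.Helper729_cluster

open Finset

variable {α : Type*} [DecidableEq α]

/-- Density of the members of `BB` containing `T` and missing `Z`. -/
noncomputable def M2 (N k : ℕ) (BB : Finset (Finset α)) (T Z : Finset α) : ℝ :=
  ((BB.filter (fun B => T ⊆ B ∧ Disjoint B Z)).card : ℝ) /
    ((N - T.card - Z.card).choose (k - T.card) : ℝ)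

/-- number of members of `BB` containing `T` and missing `Z` -/
def dg (BB : Finset (Finset α)) (T Z : Finset α) : ℕ := (BB.filter (fun B => T ⊆ B ∧ Disjoint B Z)).card

lemma M2_eq (N k : ℕ) (BB : Finset (Finset α)) (T Z : Finset α) :
    M2 N k BB T Z = (dg BB T Z : ℝ) / ((N - T.card - Z.card).choose (k - T.card) : ℝ) := rfl

lemma M2_nonneg (N k : ℕ) (BB : Finset (Finset α)) (T Z : Finset α) : 0 ≤ M2 N k BB T Z := by
  unfold M2; positivity

lemma sum_dg_T (V : Finset α) (BB : Finset (Finset α)) (k : ℕ)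
    (hBB : ∀ B ∈ BB, B ⊆ V ∧ B.card = k) (T Z : Finset α) :
    ∑ y ∈ V \ T, dg BB (insert y T) Z = (k - T.card) * dg BB T Z := by
  unfold dg
  simp_rw [card_filter]
  rw [sum_comm, mul_sum]
  refine sum_congr rfl (fun B hB => ?_)
  obtain ⟨hBV, hBk⟩ := hBB B hB
  by_cases h : T ⊆ B ∧ Disjoint B Z
  · rw [if_pos h, ← card_filter, mul_one]
    have : (V \ T).filter (fun y => insert y T ⊆ B ∧ Disjoint B Z) = B \ T := by
      ext y
      simp only [mem_filter, mem_sdiff, insert_subset_iff]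
      constructor
      · rintro ⟨⟨_, h2⟩, ⟨h3, _⟩, _⟩; exact ⟨h3, h2⟩
      · rintro ⟨h2, h3⟩; exact ⟨⟨hBV h2, h3⟩, ⟨h2, h.1⟩, h.2⟩
    rw [this, card_sdiff_of_subset h.1, hBk]
  · rw [if_neg h, mul_zero]
    refine sum_eq_zero (fun y _ => ?_)
    rw [if_neg]
    rintro ⟨h1, h2⟩
    exact h ⟨fun x hx => h1 (mem_insert_of_mem hx), h2⟩

lemma sum_dg_Z (V : Finset α) (BB : Finset (Finset α)) (k : ℕ)
    (hBB : ∀ B ∈ BB, B ⊆ V ∧ B.card = k) (T Z : Finset α) (hZ : Z ⊆ V \ T) :
    ∑ y ∈ (V \ T) \ Z, dg BB T (insert y Z) = (V.card - k - Z.card) * dg BB T Z := by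
  unfold dg
  simp_rw [card_filter]
  rw [sum_comm, mul_sum]
  refine sum_congr rfl (fun B hB => ?_)
  obtain ⟨hBV, hBk⟩ := hBB B hB
  by_cases h : T ⊆ B ∧ Disjoint B Z
  · rw [if_pos h, ← card_filter, mul_one]
    have : ((V \ T) \ Z).filter (fun y => T ⊆ B ∧ Disjoint B (insert y Z)) = (V \ B) \ Z := by
      ext y
      simp only [mem_filter, mem_sdiff, disjoint_insert_right]
      constructor
      · rintro ⟨⟨⟨h1, _⟩, h3⟩, _, h5, _⟩; exact ⟨⟨h1, h5⟩, h3⟩
      · rintro ⟨⟨h1, h2⟩, h3⟩; exact ⟨⟨⟨h1, fun hy => h2 (h.1 hy)⟩, h3⟩, h.1, h2, h.2⟩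
    have hZ' : Z ⊆ V \ B := by
      intro z hz
      rw [mem_sdiff]
      exact ⟨(mem_sdiff.1 (hZ hz)).1, fun hzB => (disjoint_left.1 h.2) hzB hz⟩
    rw [this, card_sdiff_of_subset hZ', card_sdiff_of_subset hBV, hBk]
  · rw [if_neg h, mul_zero]
    refine sum_eq_zero (fun y _ => ?_)
    rw [if_neg]
    rintro ⟨h1, h2⟩
    rw [disjoint_insert_right] at h2
    exact h ⟨h1, h2.2⟩

lemma phi_nat (m : ℕ) (hm : m ≤ 1) : phi (m : ℝ) = 0 := by
  interval_cases m <;> simp [phi]

lemma dg_le_one_T (V : Finset α) (BB : Finset (Finset α)) (k : ℕ)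
    (hBB : ∀ B ∈ BB, B ⊆ V ∧ B.card = k) (T Z : Finset α) (hT : T.card = k) : dg BB T Z ≤ 1 := by
  unfold dg
  rw [card_le_one]
  intro B hB C hC
  rw [mem_filter] at hB hC
  have h1 : T = B := eq_of_subset_of_card_le hB.2.1 (by rw [(hBB B hB.1).2, hT])
  have h2 : T = C := eq_of_subset_of_card_le hC.2.1 (by rw [(hBB C hC.1).2, hT])
  rw [← h1, ← h2]

lemma dg_le_one_Z (V : Finset α) (BB : Finset (Finset α)) (k : ℕ)
    (hBB : ∀ B ∈ BB, B ⊆ V ∧ B.card = k) (T Z : Finset α) (hZV : Z ⊆ V) (hZ : Z.card = V.card - k)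
    (hk : k ≤ V.card) : dg BB T Z ≤ 1 := by
  unfold dg
  rw [card_le_one]
  have key : ∀ B ∈ BB.filter (fun B => T ⊆ B ∧ Disjoint B Z), B = V \ Z := by
    intro B hB
    rw [mem_filter] at hB
    have h1 : B ⊆ V \ Z := by
      intro x hx
      rw [mem_sdiff]
      exact ⟨(hBB B hB.1).1 hx, fun hz => (disjoint_left.1 hB.2.2) hx hz⟩
    refine eq_of_subset_of_card_le h1 ?_
    rw [card_sdiff_of_subset hZV, (hBB B hB.1).2, hZ]
    omega
  intro B hB C hC
  rw [key B hB, key C hC]

/-- TARGET 1 -/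
theorem lev_T (V : Finset α) (BB : Finset (Finset α)) (k a : ℕ)
    (hBB : ∀ B ∈ BB, B ⊆ V ∧ B.card = k) (hk0 : 0 < k) (hkN : k < V.card) (ha : a ≤ k) :
    (k : ℝ) * lev V (fun T => M2 V.card k BB T ∅) a ≤
      ((k : ℝ) - a) * phi ((BB.card : ℝ) / (V.card.choose k : ℝ)) := by
  have h := harmonic_convex V (fun T => M2 V.card k BB T ∅) k hkN.le
    (fun T _ => M2_nonneg _ _ _ _ _) (by
      intro T hT hTk
      have hsum := sum_dg_T V BB k hBB T ∅
      have hTN : T.card < V.card := hTk.trans hkN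
      have hterm : ∀ y ∈ V \ T, M2 V.card k BB (insert y T) ∅ =
          (dg BB (insert y T) ∅ : ℝ) / ((V.card - T.card - 1).choose (k - T.card - 1) : ℝ) := by
        intro y hy
        rw [M2_eq, card_insert_of_notMem (mem_sdiff.1 hy).2, card_empty]
        congr 3
      rw [sum_congr rfl hterm, ← sum_div, ← Nat.cast_sum, hsum]
      simp only [M2_eq, card_empty, Nat.sub_zero]
      have hc := Nat.add_one_mul_choose_eq (V.card - T.card - 1) (k - T.card - 1)
      have e1 : V.card - T.card - 1 + 1 = V.card - T.card := by omega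
      have e2 : k - T.card - 1 + 1 = k - T.card := by omega
      rw [e1, e2] at hc
      have hc' : ((V.card - T.card : ℕ) : ℝ) * ((V.card - T.card - 1).choose (k - T.card - 1) : ℝ) =
          ((V.card - T.card).choose (k - T.card) : ℝ) * ((k - T.card : ℕ) : ℝ) := by exact_mod_cast hc
      have p1 : 0 < (V.card - T.card).choose (k - T.card) := Nat.choose_pos (by omega)
      have p2 : 0 < (V.card - T.card - 1).choose (k - T.card - 1) := Nat.choose_pos (by omega)
      have p1' : ((V.card - T.card).choose (k - T.card) : ℝ) ≠ 0 := by exact_mod_cast p1.ne'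
      have p2' : ((V.card - T.card - 1).choose (k - T.card - 1) : ℝ) ≠ 0 := by exact_mod_cast p2.ne'
      rw [← Nat.cast_sub hTN.le, Nat.cast_mul, mul_div_assoc', div_eq_div_iff p1' p2']
      calc ((V.card - T.card : ℕ) : ℝ) * (dg BB T ∅ : ℝ) * ((V.card - T.card - 1).choose (k - T.card - 1) : ℝ)
          = (((V.card - T.card : ℕ) : ℝ) * ((V.card - T.card - 1).choose (k - T.card - 1) : ℝ)) * (dg BB T ∅ : ℝ) := by ring
        _ = _ := by rw [hc']; ring) a ha
  have h0 : lev V (fun T => M2 V.card k BB T ∅) 0 = phi ((BB.card : ℝ) / (V.card.choose k : ℝ)) := by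
    unfold lev
    rw [powersetCard_zero, sum_singleton, Nat.choose_zero_right, Nat.cast_one, div_one]
    show phi (M2 V.card k BB ∅ ∅) = _
    rw [M2_eq]
    unfold dg
    have : BB.filter (fun B => (∅ : Finset α) ⊆ B ∧ Disjoint B ∅) = BB :=
      filter_true_of_mem (fun B _ => ⟨empty_subset B, disjoint_empty_right B⟩)
    rw [this]
    simp
  have hk' : lev V (fun T => M2 V.card k BB T ∅) k = 0 := by
    unfold lev
    rw [sum_eq_zero, zero_div]
    intro T hT
    rw [mem_powersetCard] at hT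
    show phi (M2 V.card k BB T ∅) = 0
    rw [M2_eq, hT.2, Nat.sub_self, Nat.choose_zero_right, Nat.cast_one, div_one]
    exact phi_nat _ (dg_le_one_T V BB k hBB T ∅ hT.2)
  rw [h0, hk', mul_zero, add_zero] at h
  exact h

/-- TARGET 2 -/
theorem lev_Z (V : Finset α) (BB : Finset (Finset α)) (k a b : ℕ)
    (hBB : ∀ B ∈ BB, B ⊆ V ∧ B.card = k) (hk0 : 0 < k) (hkN : k < V.card) (ha : a ≤ k)
    (hb : b ≤ V.card - k) (T : Finset α) (hT : T ⊆ V) (hTa : T.card = a) :
    ((V.card : ℝ) - k) * lev (V \ T) (fun Z => M2 V.card k BB T Z) b ≤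
      ((V.card : ℝ) - k - b) * phi (M2 V.card k BB T ∅) := by
  have hcV : (V \ T).card = V.card - a := by rw [card_sdiff_of_subset hT, hTa]
  have h := harmonic_convex (V \ T) (fun Z => M2 V.card k BB T Z) (V.card - k) (by rw [hcV]; omega)
    (fun Z _ => M2_nonneg _ _ _ _ _) (by
      intro Z hZ hZk
      have hsum := sum_dg_Z V BB k hBB T Z hZ
      have hterm : ∀ y ∈ (V \ T) \ Z, M2 V.card k BB T (insert y Z) =
          (dg BB T (insert y Z) : ℝ) / ((V.card - a - Z.card - 1).choose (k - a) : ℝ) := by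
        intro y hy
        rw [M2_eq, card_insert_of_notMem (mem_sdiff.1 hy).2, hTa]
        congr 3
      rw [sum_congr rfl hterm, ← sum_div, ← Nat.cast_sum, hsum]
      simp only [M2_eq, hTa]
      have hc := Nat.choose_mul_succ_eq (V.card - a - Z.card - 1) (k - a)
      have e1 : V.card - a - Z.card - 1 + 1 = V.card - a - Z.card := by omega
      have e2 : V.card - a - Z.card - (k - a) = V.card - k - Z.card := by omega
      rw [e1, e2] at hc
      have hc' : ((V.card - a - Z.card - 1).choose (k - a) : ℝ) * ((V.card - a - Z.card : ℕ) : ℝ) =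
          ((V.card - a - Z.card).choose (k - a) : ℝ) * ((V.card - k - Z.card : ℕ) : ℝ) := by
        exact_mod_cast hc
      have p1 : 0 < (V.card - a - Z.card).choose (k - a) := Nat.choose_pos (by omega)
      have p2 : 0 < (V.card - a - Z.card - 1).choose (k - a) := Nat.choose_pos (by omega)
      have p1' : ((V.card - a - Z.card).choose (k - a) : ℝ) ≠ 0 := by exact_mod_cast p1.ne'
      have p2' : ((V.card - a - Z.card - 1).choose (k - a) : ℝ) ≠ 0 := by exact_mod_cast p2.ne'
      have e3 : (((V \ T).card : ℝ) - Z.card) = ((V.card - a - Z.card : ℕ) : ℝ) := by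
        rw [hcV, Nat.cast_sub (by omega : Z.card ≤ V.card - a)]
      rw [e3, Nat.cast_mul, mul_div_assoc', div_eq_div_iff p1' p2']
      calc ((V.card - a - Z.card : ℕ) : ℝ) * (dg BB T Z : ℝ) * ((V.card - a - Z.card - 1).choose (k - a) : ℝ)
          = (((V.card - a - Z.card - 1).choose (k - a) : ℝ) * ((V.card - a - Z.card : ℕ) : ℝ)) * (dg BB T Z : ℝ) := by ring
        _ = _ := by rw [hc']; ring) b hb
  have h0 : lev (V \ T) (fun Z => M2 V.card k BB T Z) 0 = phi (M2 V.card k BB T ∅) := by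
    unfold lev
    rw [powersetCard_zero, sum_singleton, Nat.choose_zero_right, Nat.cast_one, div_one]
  have hk' : lev (V \ T) (fun Z => M2 V.card k BB T Z) (V.card - k) = 0 := by
    unfold lev
    rw [sum_eq_zero, zero_div]
    intro Z hZ
    rw [mem_powersetCard] at hZ
    show phi (M2 V.card k BB T Z) = 0
    have e : V.card - a - (V.card - k) = k - a := by omega
    rw [M2_eq, hZ.2, hTa, e, Nat.choose_self, Nat.cast_one, div_one]
    exact phi_nat _ (dg_le_one_Z V BB k hBB T Z (hZ.1.trans sdiff_subset) hZ.2 hkN.le)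
  rw [h0, hk', mul_zero, add_zero, Nat.cast_sub hkN.le] at h
  exact h

/-- the multinomial identity -/
lemma choose_id (N k a b : ℕ) (hk : k ≤ N) (ha : a ≤ k) (hb : b ≤ N - k) :
    N.choose a * (N - a).choose b * (N - a - b).choose (k - a) =
      N.choose k * (k.choose a * (N - k).choose b) := by
  have h1 : N.choose k * k.choose a = N.choose a * (N - a).choose (k - a) := Nat.choose_mul ha
  obtain ⟨n, rfl⟩ : ∃ n, N = a + n := ⟨N - a, by omega⟩
  obtain ⟨r, rfl⟩ : ∃ r, k = a + r := ⟨k - a, by omega⟩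
  have e1 : a + n - a = n := by omega
  have e2 : a + r - a = r := by omega
  have e3 : a + n - (a + r) = n - r := by omega
  rw [e1, e2] at h1
  rw [e1, e2, e3, ← mul_assoc, h1]
  rw [e3] at hb
  have hrb : r + b ≤ n := by omega
  have h2 : n.choose (r + b) * (r + b).choose r = n.choose r * (n - r).choose b := by
    have := Nat.choose_mul (n := n) (k := r + b) (s := r) (by omega)
    rwa [show r + b - r = b by omega] at this
  have h3 : n.choose (r + b) * (r + b).choose b = n.choose b * (n - b).choose r := by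
    have := Nat.choose_mul (n := n) (k := r + b) (s := b) (by omega)
    rwa [show r + b - b = r by omega] at this
  have h4 : (r + b).choose r = (r + b).choose b := Nat.choose_symm_add
  rw [h4] at h2
  rw [mul_assoc, mul_assoc, ← h3, h2]

lemma sum_dg_all (V : Finset α) (BB : Finset (Finset α)) (k a b : ℕ)
    (hBB : ∀ B ∈ BB, B ⊆ V ∧ B.card = k) :
    ∑ T ∈ V.powersetCard a, ∑ Z ∈ (V \ T).powersetCard b, dg BB T Z =
      BB.card * (k.choose a * (V.card - k).choose b) := by
  unfold dg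
  simp_rw [card_filter]
  have h1 : ∀ T ∈ V.powersetCard a, ∑ Z ∈ (V \ T).powersetCard b, ∑ B ∈ BB,
      (if T ⊆ B ∧ Disjoint B Z then 1 else 0) =
      ∑ B ∈ BB, if T ⊆ B then (V.card - k).choose b else 0 := by
    intro T hT
    rw [sum_comm]
    refine sum_congr rfl (fun B hB => ?_)
    obtain ⟨hBV, hBk⟩ := hBB B hB
    by_cases h : T ⊆ B
    · rw [if_pos h, ← card_filter]
      have : ((V \ T).powersetCard b).filter (fun Z => T ⊆ B ∧ Disjoint B Z) = (V \ B).powersetCard b := by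
        ext Z
        simp only [mem_filter, mem_powersetCard, subset_sdiff]
        constructor
        · rintro ⟨⟨⟨h1, _⟩, h3⟩, _, h5⟩; exact ⟨⟨h1, h5.symm⟩, h3⟩
        · rintro ⟨⟨h1, h2⟩, h3⟩; exact ⟨⟨⟨h1, disjoint_of_subset_right h h2⟩, h3⟩, h, h2.symm⟩
      rw [this, card_powersetCard, card_sdiff_of_subset hBV, hBk]
    · rw [if_neg h]
      exact sum_eq_zero (fun Z _ => if_neg (fun hh => h hh.1))
  rw [sum_congr rfl h1, sum_comm]
  have h2 : ∀ B ∈ BB, ∑ T ∈ V.powersetCard a, (if T ⊆ B then (V.card - k).choose b else 0) =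
      k.choose a * (V.card - k).choose b := by
    intro B hB
    obtain ⟨hBV, hBk⟩ := hBB B hB
    rw [← sum_filter]
    have : (V.powersetCard a).filter (fun T => T ⊆ B) = B.powersetCard a := by
      ext T
      simp only [mem_filter, mem_powersetCard]
      constructor
      · rintro ⟨⟨_, h2⟩, h3⟩; exact ⟨h3, h2⟩
      · rintro ⟨h1, h2⟩; exact ⟨⟨h1.trans hBV, h2⟩, h1⟩
    rw [this, sum_const, card_powersetCard, hBk, smul_eq_mul]
  rw [sum_congr rfl h2, sum_const, smul_eq_mul]

lemma phi_ge (c : ℝ) (hc : 0 < c) (g : ℝ) (hg : 0 ≤ g) :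
    g * Real.log c + g - c * (if 0 < g then 1 else 0) ≤ phi g := by
  unfold phi
  by_cases h : 0 < g
  · rw [if_pos h, mul_one]
    have h1 := Real.one_sub_inv_le_log_of_pos (div_pos h hc)
    rw [inv_div, Real.log_div h.ne' hc.ne'] at h1
    have h2 := mul_le_mul_of_nonneg_left h1 hg
    have h3 : g * (1 - c / g) = g - c := by field_simp
    rw [h3] at h2
    linarith
  · have h0 : g = 0 := le_antisymm (not_lt.1 h) hg
    subst h0
    simp

/-- TARGET 3 -/
theorem shadow_ineq (V : Finset α) (BB : Finset (Finset α)) (k a b : ℕ)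
    (hBB : ∀ B ∈ BB, B ⊆ V ∧ B.card = k) (hne : BB.Nonempty)
    (hk0 : 0 < k) (hkN : k < V.card) (ha : a ≤ k) (hb : b ≤ V.card - k) :
    ((BB.card : ℝ) / (V.card.choose k : ℝ)) ^
        (1 - (1 - (a : ℝ) / k) * (1 - (b : ℝ) / ((V.card : ℝ) - k))) *
      ((V.card.choose a : ℝ) * ((V.card - a).choose b : ℝ)) ≤
    ∑ T ∈ V.powersetCard a,
      ((((V \ T).powersetCard b).filter (fun Z => good BB T Z)).card : ℝ) := by
  set N := V.card with hN
  set μ : ℝ := (BB.card : ℝ) / (N.choose k : ℝ) with hμ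
  set D : ℝ := (N.choose a : ℝ) * ((N - a).choose b : ℝ) with hD
  set G : ℝ := ∑ T ∈ V.powersetCard a,
      ((((V \ T).powersetCard b).filter (fun Z => good BB T Z)).card : ℝ) with hG
  have hkR : (0 : ℝ) < k := by exact_mod_cast hk0
  have hNk : (0 : ℝ) < (N : ℝ) - k := by
    have : (k : ℝ) < N := by exact_mod_cast hkN
    linarith
  have hCk : (0 : ℝ) < (N.choose k : ℝ) := by exact_mod_cast Nat.choose_pos hkN.le
  have hμ0 : 0 < μ := div_pos (by exact_mod_cast hne.card_pos) hCk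
  have hCa : (0 : ℝ) < (N.choose a : ℝ) := by exact_mod_cast Nat.choose_pos (by omega)
  have hCb : (0 : ℝ) < ((N - a).choose b : ℝ) := by exact_mod_cast Nat.choose_pos (by omega)
  have hD0 : 0 < D := mul_pos hCa hCb
  -- the double sum of phi
  set S : ℝ := ∑ T ∈ V.powersetCard a, ∑ Z ∈ (V \ T).powersetCard b, phi (M2 N k BB T Z) with hS
  have hbR : (0 : ℝ) ≤ (N : ℝ) - k - b := by
    have h1 : b + k ≤ N := by omega
    have h2 : (b : ℝ) + k ≤ N := by exact_mod_cast h1
    linarith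
  have hup : (k : ℝ) * ((N - k) * S) ≤ (N - k - b) * ((k - a) * (D * phi μ)) := by
    have h1 : ∀ T ∈ V.powersetCard a, ((N : ℝ) - k) * ∑ Z ∈ (V \ T).powersetCard b, phi (M2 N k BB T Z) ≤
        ((N : ℝ) - k - b) * (((N - a).choose b : ℝ) * phi (M2 N k BB T ∅)) := by
      intro T hT
      rw [mem_powersetCard] at hT
      have h2 := lev_Z V BB k a b hBB hk0 hkN ha hb T hT.1 hT.2
      unfold lev at h2
      rw [card_sdiff_of_subset hT.1, hT.2] at h2
      rw [mul_div_assoc', div_le_iff₀ hCb] at h2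
      calc _ ≤ _ := h2
        _ = _ := by ring
    have h3 : ((N : ℝ) - k) * S ≤ ((N : ℝ) - k - b) * (((N - a).choose b : ℝ) *
        ∑ T ∈ V.powersetCard a, phi (M2 N k BB T ∅)) := by
      rw [hS, mul_sum, mul_sum, mul_sum]
      exact sum_le_sum h1
    have h4 := lev_T V BB k a hBB hk0 hkN ha
    unfold lev at h4
    rw [mul_div_assoc', div_le_iff₀ hCa] at h4
    calc (k : ℝ) * ((N - k) * S) ≤ k * (((N : ℝ) - k - b) * (((N - a).choose b : ℝ) *
        ∑ T ∈ V.powersetCard a, phi (M2 N k BB T ∅))) := mul_le_mul_of_nonneg_left h3 hkR.le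
      _ = ((N : ℝ) - k - b) * ((N - a).choose b : ℝ) * (k * ∑ T ∈ V.powersetCard a, phi (M2 N k BB T ∅)) := by ring
      _ ≤ ((N : ℝ) - k - b) * ((N - a).choose b : ℝ) * (((k : ℝ) - a) * phi μ * (N.choose a : ℝ)) :=
          mul_le_mul_of_nonneg_left h4 (mul_nonneg hbR hCb.le)
      _ = _ := by rw [hD]; ring
  -- the double sum of the densities
  have hmass : ∑ T ∈ V.powersetCard a, ∑ Z ∈ (V \ T).powersetCard b, M2 N k BB T Z = D * μ := by
    have h1 : ∀ T ∈ V.powersetCard a, ∀ Z ∈ (V \ T).powersetCard b, M2 N k BB T Z =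
        (dg BB T Z : ℝ) / ((N - a - b).choose (k - a) : ℝ) := by
      intro T hT Z hZ
      rw [mem_powersetCard] at hT hZ
      rw [M2_eq, hT.2, hZ.2]
    have h2 : ∑ T ∈ V.powersetCard a, ∑ Z ∈ (V \ T).powersetCard b, M2 N k BB T Z =
        (((∑ T ∈ V.powersetCard a, ∑ Z ∈ (V \ T).powersetCard b, dg BB T Z : ℕ)) : ℝ) /
          ((N - a - b).choose (k - a) : ℝ) := by
      rw [Nat.cast_sum, sum_div]
      refine sum_congr rfl (fun T hT => ?_)
      rw [Nat.cast_sum, sum_div]
      exact sum_congr rfl (fun Z hZ => h1 T hT Z hZ)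
    rw [h2, sum_dg_all V BB k a b hBB]
    have h3 := choose_id N k a b hkN.le ha hb
    have h3' : (N.choose a : ℝ) * ((N - a).choose b : ℝ) * ((N - a - b).choose (k - a) : ℝ) =
      (N.choose k : ℝ) * ((k.choose a : ℝ) * ((N - k).choose b : ℝ)) := by exact_mod_cast h3
    have p1 : ((N - a - b).choose (k - a) : ℝ) ≠ 0 := by
      have : 0 < (N - a - b).choose (k - a) := Nat.choose_pos (by omega)
      exact_mod_cast this.ne'
    rw [hD, hμ, mul_div_assoc', div_eq_div_iff p1 hCk.ne']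
    push_cast
    calc (BB.card : ℝ) * ((k.choose a : ℝ) * ((N - k).choose b : ℝ)) * (N.choose k : ℝ)
        = BB.card * ((N.choose k : ℝ) * ((k.choose a : ℝ) * ((N - k).choose b : ℝ))) := by ring
      _ = _ := by rw [← h3']; ring
  -- positivity of densities is goodness
  have hgood : ∀ T Z : Finset α, T ∈ V.powersetCard a → Z ∈ (V \ T).powersetCard b →
      (0 < M2 N k BB T Z ↔ good BB T Z) := by
    intro T Z hT hZ
    rw [mem_powersetCard] at hT hZ
    rw [M2_eq, hT.2, hZ.2]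
    have p1 : (0 : ℝ) < ((N - a - b).choose (k - a) : ℝ) := by
      have : 0 < (N - a - b).choose (k - a) := Nat.choose_pos (by omega)
      exact_mod_cast this
    rw [div_pos_iff_of_pos_right p1, Nat.cast_pos]
    unfold dg good
    rw [card_pos]
    constructor
    · rintro ⟨B, hB⟩
      rw [mem_filter] at hB
      exact ⟨B, hB.1, hB.2⟩
    · rintro ⟨B, hB, h⟩
      exact ⟨B, mem_filter.2 ⟨hB, h⟩⟩
  have hG' : ∑ T ∈ V.powersetCard a, ∑ Z ∈ (V \ T).powersetCard b,
      (if 0 < M2 N k BB T Z then (1 : ℝ) else 0) = G := by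
    rw [hG]
    refine sum_congr rfl (fun T hT => ?_)
    rw [card_filter, Nat.cast_sum]
    refine sum_congr rfl (fun Z hZ => ?_)
    by_cases h : good BB T Z
    · rw [if_pos h, if_pos ((hgood T Z hT hZ).2 h)]; simp
    · rw [if_neg h, if_neg (fun hh => h ((hgood T Z hT hZ).1 hh))]; simp
  have hlow : ∀ c : ℝ, 0 < c → D * μ * Real.log c + D * μ - c * G ≤ S := by
    intro c hc
    have h1 : ∑ T ∈ V.powersetCard a, ∑ Z ∈ (V \ T).powersetCard b,
        (M2 N k BB T Z * Real.log c + M2 N k BB T Z - c * (if 0 < M2 N k BB T Z then 1 else 0)) ≤ S := by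
      rw [hS]
      exact sum_le_sum (fun T _ => sum_le_sum (fun Z _ => phi_ge c hc _ (M2_nonneg _ _ _ _ _)))
    refine le_trans (le_of_eq ?_) h1
    simp_rw [sum_sub_distrib, sum_add_distrib, ← mul_sum, ← sum_mul]
    rw [hmass, hG']
  have hG0 : 0 < G := by
    by_contra hcon
    have hGnn : 0 ≤ G := by rw [hG]; exact sum_nonneg (fun _ _ => Nat.cast_nonneg _)
    have hGz : G = 0 := le_antisymm (not_lt.1 hcon) hGnn
    have h1 : ∀ T ∈ V.powersetCard a, ∀ Z ∈ (V \ T).powersetCard b, M2 N k BB T Z = 0 := by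
      intro T hT Z hZ
      by_contra hne0
      have hpos : 0 < M2 N k BB T Z := lt_of_le_of_ne (M2_nonneg _ _ _ _ _) (Ne.symm hne0)
      have h2 : (0 : ℝ) < ∑ T ∈ V.powersetCard a, ∑ Z ∈ (V \ T).powersetCard b,
          (if 0 < M2 N k BB T Z then (1 : ℝ) else 0) := by
        refine sum_pos' (fun T _ => sum_nonneg (fun Z _ => by split_ifs <;> norm_num)) ⟨T, hT, ?_⟩
        refine sum_pos' (fun Z _ => by split_ifs <;> norm_num) ⟨Z, hZ, ?_⟩
        rw [if_pos hpos]; norm_num
      rw [hG', hGz] at h2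
      exact lt_irrefl _ h2
    have h2 : D * μ = 0 := by
      rw [← hmass]
      exact sum_eq_zero (fun T hT => sum_eq_zero (fun Z hZ => h1 T hT Z hZ))
    exact (mul_pos hD0 hμ0).ne' h2
  -- combine
  have hDm : 0 < D * μ := mul_pos hD0 hμ0
  have h1 := hlow (D * μ / G) (div_pos hDm hG0)
  rw [div_mul_cancel₀ _ hG0.ne', add_sub_cancel_right] at h1
  set e : ℝ := 1 - (1 - (a : ℝ) / k) * (1 - (b : ℝ) / ((N : ℝ) - k)) with he
  have h2 : S ≤ (1 - e) * (D * phi μ) := by
    have h3 : (k : ℝ) * (N - k) * ((1 - e) * (D * phi μ)) = (N - k - b) * ((k - a) * (D * phi μ)) := by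
      rw [he]
      field_simp
      ring
    have h4 : (k : ℝ) * (N - k) * S ≤ (k : ℝ) * (N - k) * ((1 - e) * (D * phi μ)) := by
      rw [h3]; calc _ = _ := by ring
        _ ≤ _ := hup
    exact le_of_mul_le_mul_left h4 (mul_pos hkR hNk)
  have h3 : D * μ * Real.log (D * μ / G) ≤ D * μ * ((1 - e) * Real.log μ) := by
    refine h1.trans (h2.trans (le_of_eq ?_))
    unfold phi; ring
  have h4 := le_of_mul_le_mul_left h3 hDm
  rw [Real.log_div hDm.ne' hG0.ne', Real.log_mul hD0.ne' hμ0.ne'] at h4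
  have h5 : e * Real.log μ + Real.log D ≤ Real.log G := by linarith
  have h6 : Real.log (μ ^ e * D) ≤ Real.log G := by
    rw [Real.log_mul (Real.rpow_pos_of_pos hμ0 e).ne' hD0.ne', Real.log_rpow hμ0]
    exact h5
  exact (Real.log_le_log_iff (mul_pos (Real.rpow_pos_of_pos hμ0 e) hD0) hG0).1 h6

end Pool.Agent.Helper729_cluster
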