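import Mathlib
import Pool.Agent.Helper729_cluster.Defs2
import Pool.Agent.Helper729_cluster.Shadow
import Pool.Agent.Helper729_cluster.Embed

/-! Part of the proof of MP_b0b8df_co. -/

namespace Pool.Agent.Helper729_cluster

open Finset

theorem BS1_card {α : Type} [DecidableEq α] (S : Finset α)
    (F : Finset (Finset α)) (k : ℕ) (x : α) (hx : x ∈ S) (hk : 1 ≤ k)
    (hF : ∀ A ∈ F, A ⊆ S ∧ A.card = k)
    (hFc : (S.card - 1).choose (k - 1) ≤ F.card) :
    (((S.erase x).powersetCard (k - 1)).filter (fun G => insert x G ∉ F)).card ≤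
      (F.filter (fun A => x ∉ A)).card := by
  have h1 : (F.filter (fun A => x ∈ A)).card ≤
      (((S.erase x).powersetCard (k - 1)).filter (fun G => insert x G ∈ F)).card := by
    refine Finset.card_le_card_of_injOn (fun A => A.erase x) ?_ ?_
    · intro A hA
      rw [Finset.mem_coe, Finset.mem_filter] at hA
      rw [Finset.mem_coe, Finset.mem_filter, Finset.mem_powersetCard]
      refine ⟨⟨Finset.erase_subset_erase x (hF A hA.1).1, ?_⟩, ?_⟩
      · rw [Finset.card_erase_of_mem hA.2, (hF A hA.1).2]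
      · show insert x (A.erase x) ∈ F
        rw [Finset.insert_erase hA.2]
        exact hA.1
    · intro A hA B hB hAB
      rw [Finset.mem_coe, Finset.mem_filter] at hA hB
      have : insert x (A.erase x) = insert x (B.erase x) := by
        show insert x ((fun A => A.erase x) A) = insert x ((fun A => A.erase x) B)
        rw [hAB]
      rwa [Finset.insert_erase hA.2, Finset.insert_erase hB.2] at this
  have h2 := Finset.card_filter_add_card_filter_not (s := (S.erase x).powersetCard (k - 1))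
    (fun G => insert x G ∈ F)
  have h3 := Finset.card_filter_add_card_filter_not (s := F) (fun A => x ∈ A)
  rw [Finset.card_powersetCard, Finset.card_erase_of_mem hx] at h2
  omega

theorem BS1_good {α : Type} [DecidableEq α] (d : ℕ) (hd : 1 ≤ d) (s : ℝ) (S : Finset α)
    (F : Finset (Finset α)) (k a0 b : ℕ) (x : α) (hx : x ∈ S)
    (hF : ∀ A ∈ F, A ⊆ S ∧ A.card = k) (hcl : NoCl d s F)
    (hk : k = (d - 1) * a0 + b + 1) (hs : ((k : ℝ) + 1 + b) ≤ s)
    (T : Fin d → Finset α) (Z : Finset α) (hT : ∀ i, T i ⊆ S.erase x)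
    (hTc : ∀ i, (T i).card = a0)
    (hTd : ∀ i j, i ≠ j → Disjoint (T i) (T j)) (hZ : Z ⊆ S.erase x) (hZc : Z.card = b)
    (hTZ : ∀ i, Disjoint (T i) Z)
    (hg : good (F.filter (fun A => x ∉ A)) (univ.biUnion T) Z) :
    ∃ i, Z ∪ (univ.erase i).biUnion T ∈
      ((S.erase x).powersetCard (k - 1)).filter (fun G => insert x G ∉ F) := by
  by_contra hcon
  push Not at hcon
  obtain ⟨B, hB, hTB, hBZ⟩ := hg
  rw [Finset.mem_filter] at hB
  have hsub : ∀ i, Z ∪ (univ.erase i).biUnion T ⊆ S.erase x := by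
    intro i
    refine Finset.union_subset hZ ?_
    intro y hy
    rw [Finset.mem_biUnion] at hy
    obtain ⟨j, -, hj⟩ := hy
    exact hT j hj
  have hcard : ∀ i, (Z ∪ (univ.erase i).biUnion T).card = k - 1 := by
    intro i
    rw [Finset.card_union_of_disjoint, Finset.card_biUnion]
    · rw [Finset.sum_congr rfl (fun j _ => hTc j), Finset.sum_const, smul_eq_mul,
        Finset.card_erase_of_mem (Finset.mem_univ i), Finset.card_univ, Fintype.card_fin, hZc]
      omega
    · intro j _ j' _ hne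
      exact hTd j j' hne
    · rw [Finset.disjoint_biUnion_right]
      intro j _
      exact (hTZ j).symm
  have hins : ∀ i, insert x (Z ∪ (univ.erase i).biUnion T) ∈ F := by
    intro i
    by_contra hno
    apply hcon i
    rw [Finset.mem_filter, Finset.mem_powersetCard]
    exact ⟨⟨hsub i, hcard i⟩, hno⟩
  have hlt := hcl (Fin.cons B (fun i => insert x (Z ∪ (univ.erase i).biUnion T))) ?_ ?_
  · have h1 : univ.biUnion (Fin.cons B (fun i => insert x (Z ∪ (univ.erase i).biUnion T)) :
        Fin (d + 1) → Finset α) ⊆ insert x (B ∪ Z) := by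
      intro y hy
      rw [Finset.mem_biUnion] at hy
      obtain ⟨i, -, hi⟩ := hy
      refine Fin.cases ?_ (fun j => ?_) i hi
      · intro h
        rw [Fin.cons_zero] at h
        exact Finset.mem_insert_of_mem (Finset.mem_union_left _ h)
      · intro h
        rw [Fin.cons_succ, Finset.mem_insert, Finset.mem_union, Finset.mem_biUnion] at h
        rcases h with h | h | ⟨j', -, h⟩
        · rw [h]; exact Finset.mem_insert_self _ _
        · exact Finset.mem_insert_of_mem (Finset.mem_union_right _ h)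
        · refine Finset.mem_insert_of_mem (Finset.mem_union_left _ (hTB ?_))
          rw [Finset.mem_biUnion]
          exact ⟨j', Finset.mem_univ _, h⟩
    have h2 := Finset.card_le_card h1
    have h3 : (insert x (B ∪ Z)).card ≤ k + b + 1 := by
      refine (Finset.card_insert_le _ _).trans ?_
      have h4 := Finset.card_union_le B Z
      rw [(hF B hB.1).2, hZc] at h4
      omega
    have h5 : ((univ.biUnion (Fin.cons B (fun i => insert x (Z ∪ (univ.erase i).biUnion T)) :
        Fin (d + 1) → Finset α)).card : ℝ) ≤ (k : ℝ) + b + 1 := by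
      exact_mod_cast h2.trans h3
    linarith
  · intro i
    refine Fin.cases ?_ (fun j => ?_) i
    · rw [Fin.cons_zero]; exact hB.1
    · rw [Fin.cons_succ]; exact hins j
  · intro y
    by_cases hyB : y ∈ B
    · have hyx : y ≠ x := fun h => hB.2 (h ▸ hyB)
      have hyZ : y ∉ Z := fun h => (Finset.disjoint_left.1 hBZ) hyB h
      by_cases hyT : ∃ i, y ∈ T i
      · obtain ⟨i, hi⟩ := hyT
        refine ⟨i.succ, ?_⟩
        rw [Fin.cons_succ, Finset.mem_insert, Finset.mem_union, Finset.mem_biUnion]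
        rintro (h | h | ⟨j, hj, h⟩)
        · exact hyx h
        · exact hyZ h
        · exact (Finset.disjoint_left.1 (hTd i j (Finset.ne_of_mem_erase hj).symm)) hi h
      · refine ⟨(⟨0, hd⟩ : Fin d).succ, ?_⟩
        rw [Fin.cons_succ, Finset.mem_insert, Finset.mem_union, Finset.mem_biUnion]
        rintro (h | h | ⟨j, hj, h⟩)
        · exact hyx h
        · exact hyZ h
        · exact hyT ⟨j, h⟩
    · exact ⟨0, by rw [Fin.cons_zero]; exact hyB⟩

/-- TARGET: bootstrapping inequality. -/
theorem boot_ineq {α : Type} [DecidableEq α] (d : ℕ) (hd : 1 ≤ d) (s : ℝ) (S : Finset α)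
    (F : Finset (Finset α)) (k a0 b : ℕ) (x : α) (hx : x ∈ S)
    (hF : ∀ A ∈ F, A ⊆ S ∧ A.card = k) (hcl : NoCl d s F)
    (hFc : (S.card - 1).choose (k - 1) ≤ F.card)
    (hk : k = (d - 1) * a0 + b + 1) (hkn : k < S.card - 1) (hak : d * a0 ≤ k)
    (hb : b ≤ S.card - 1 - k) (hs : ((k : ℝ) + 1 + b) ≤ s)
    (hne : (F.filter (fun A => x ∉ A)).Nonempty) :
    (((F.filter (fun A => x ∉ A)).card : ℝ) / ((S.card - 1).choose k : ℝ)) ^
        (1 - (1 - ((d * a0 : ℕ) : ℝ) / k) * (1 - (b : ℝ) / (((S.card - 1 : ℕ) : ℝ) - k))) *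
      ((S.card - 1).choose (k - 1) : ℝ) ≤ d * ((F.filter (fun A => x ∉ A)).card : ℝ) := by
  have hk1 : 1 ≤ k := by omega
  have hV : (S.erase x).card = S.card - 1 := Finset.card_erase_of_mem hx
  have hBB : ∀ B ∈ F.filter (fun A => x ∉ A), B ⊆ S.erase x ∧ B.card = k := by
    intro B hB
    rw [Finset.mem_filter] at hB
    refine ⟨?_, (hF B hB.1).2⟩
    intro y hy
    rw [Finset.mem_erase]
    exact ⟨fun h => hB.2 (h ▸ hy), (hF B hB.1).1 hy⟩
  have hsh := shadow_ineq (S.erase x) (F.filter (fun A => x ∉ A)) k (d * a0) b hBB hne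
    (by omega) (by omega) hak (by omega)
  have hk2 : (d - 1) * a0 + b = k - 1 := by omega
  have hbc := bootstrap_count (S.erase x) (F.filter (fun A => x ∉ A))
    (((S.erase x).powersetCard (k - 1)).filter (fun G => insert x G ∉ F)) d a0 b hd (by omega)
    (fun G hG => by
      rw [Finset.mem_filter, Finset.mem_powersetCard] at hG
      exact ⟨hG.1.1, by rw [hG.1.2, hk2]⟩)
    (fun T Z hT hTc hTd hZ hZc hTZ hg =>
      BS1_good d hd s S F k a0 b x hx hF hcl hk hs T Z hT hTc hTd hZ hZc hTZ hg)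
  have hGB := BS1_card S F k x hx hk1 hF hFc
  rw [hV] at hsh hbc
  rw [hk2] at hbc
  obtain ⟨m, hm⟩ : ∃ m, m = (((F.filter (fun A => x ∉ A)).card : ℝ) /
      ((S.card - 1).choose k : ℝ)) ^ (1 - (1 - ((d * a0 : ℕ) : ℝ) / k) *
        (1 - (b : ℝ) / (((S.card - 1 : ℕ) : ℝ) - k))) := ⟨_, rfl⟩
  obtain ⟨X, hX⟩ : ∃ X, X = ((S.card - 1).choose (d * a0) : ℝ) *
      ((S.card - 1 - d * a0).choose b : ℝ) := ⟨_, rfl⟩
  have hX0 : 0 < X := by
    rw [hX]
    have h1 : 0 < (S.card - 1).choose (d * a0) := Nat.choose_pos (by omega)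
    have h2 : 0 < (S.card - 1 - d * a0).choose b := Nat.choose_pos (by omega)
    positivity
  rw [← hm, ← hX] at hsh
  rw [← hX] at hbc
  rw [← hm]
  have hc0 : (0 : ℝ) ≤ ((S.card - 1).choose (k - 1) : ℝ) := Nat.cast_nonneg _
  have h1 := mul_le_mul_of_nonneg_right hsh hc0
  have h2 := h1.trans hbc
  have h3 : (((((S.erase x).powersetCard (k - 1)).filter (fun G => insert x G ∉ F)).card : ℕ) :
      ℝ) ≤ ((F.filter (fun A => x ∉ A)).card : ℝ) := by exact_mod_cast hGB
  have h4 : (d : ℝ) * (((((S.erase x).powersetCard (k - 1)).filter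
      (fun G => insert x G ∉ F)).card : ℕ) : ℝ) ≤ d * ((F.filter (fun A => x ∉ A)).card : ℝ) :=
    mul_le_mul_of_nonneg_left h3 (Nat.cast_nonneg _)
  have h5 := h2.trans (mul_le_mul_of_nonneg_right h4 hX0.le)
  have e : m * X * ((S.card - 1).choose (k - 1) : ℝ) =
      (m * ((S.card - 1).choose (k - 1) : ℝ)) * X := by ring
  rw [e] at h5
  exact le_of_mul_le_mul_right h5 hX0

end Pool.Agent.Helper729_cluster
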