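import Mathlib
import Pool.Agent.Helper729_cluster.Boot1

/-! Part of the proof of MP_b0b8df_co. -/

namespace Pool.Agent.Helper729_cluster

open Finset


/-- the numerical part -/
theorem boot_num (d : ℕ) (hd : 1 ≤ d) (ζ : ℝ) (hζ : 0 < ζ) (hζ1 : ζ ≤ 1 / 2) (n k : ℕ) (hn : 1 ≤ n)
    (hk1 : 1 ≤ k) (hkC : 100 * (d : ℝ) / ζ ^ 2 ≤ k)
    (hkn : (k : ℝ) ≤ ((d : ℝ) / (d + 1) - ζ) * n) :
    ∃ a0 b : ℕ, k = (d - 1) * a0 + b + 1 ∧ k < n - 1 ∧ d * a0 ≤ k ∧ b ≤ n - 1 - k ∧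
      (k : ℝ) + 1 + b ≤ (((d : ℝ) + 1) / d + ζ) * k ∧
      ζ ^ 2 / (2 * d) ≤
        (1 - ((d * a0 : ℕ) : ℝ) / k) * (1 - (b : ℝ) / (((n - 1 : ℕ) : ℝ) - k)) ∧
      (1 - ((d * a0 : ℕ) : ℝ) / k) * (1 - (b : ℝ) / (((n - 1 : ℕ) : ℝ) - k)) ≤ 1 := by
  have hd0 : (0 : ℝ) < d := by exact_mod_cast hd
  have hd1 : (1 : ℝ) ≤ d := by exact_mod_cast hd
  have hk0 : (0 : ℝ) < k := by exact_mod_cast hk1
  have hn0 : (0 : ℝ) < n := by exact_mod_cast hn
  obtain ⟨a0, ha0⟩ : ∃ a0 : ℕ, a0 = ⌈(1 - ζ) * k / d⌉₊ := ⟨_, rfl⟩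
  have hpos : 0 < (1 - ζ) * k / d := by
    have : 0 < 1 - ζ := by linarith
    positivity
  have hlo : (1 - ζ) * k / d ≤ a0 := by rw [ha0]; exact Nat.le_ceil _
  have hhi : (a0 : ℝ) < (1 - ζ) * k / d + 1 := by rw [ha0]; exact Nat.ceil_lt_add_one hpos.le
  have ha1 : 1 ≤ a0 := by rw [ha0]; exact Nat.one_le_iff_ne_zero.2 (Nat.ceil_pos.2 hpos).ne'
  have hlo' : (1 - ζ) * k ≤ d * a0 := by
    rw [div_le_iff₀ hd0] at hlo
    linarith
  have hhi' : (d : ℝ) * a0 < (1 - ζ) * k + d := by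
    have := mul_lt_mul_of_pos_left hhi hd0
    have e : (d : ℝ) * ((1 - ζ) * k / d + 1) = (1 - ζ) * k + d := by field_simp
    linarith
  have hkd : 2 * (d : ℝ) ≤ ζ * k := by
    rw [div_le_iff₀ (by positivity)] at hkC
    have h1 : (k : ℝ) * ζ ^ 2 ≤ k * ζ * 1 := by
      have : (k : ℝ) * ζ ^ 2 = k * ζ * ζ := by ring
      rw [this]
      exact mul_le_mul_of_nonneg_left (by linarith) (by positivity)
    nlinarith
  have hda : (d : ℝ) * a0 ≤ (1 - ζ / 2) * k := by nlinarith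
  have hda' : d * a0 ≤ k := by
    have h1 : (d : ℝ) * a0 ≤ k := by nlinarith
    exact_mod_cast h1
  have hsplit : d * a0 = (d - 1) * a0 + a0 := by
    obtain ⟨e, rfl⟩ : ∃ e, d = e + 1 := ⟨d - 1, by omega⟩
    rw [Nat.add_sub_cancel]; ring
  obtain ⟨b, hb⟩ : ∃ b : ℕ, k = (d - 1) * a0 + b + 1 := ⟨k - 1 - (d - 1) * a0, by omega⟩
  have hbr : (k : ℝ) = (d - 1) * a0 + b + 1 := by
    have h1 : (k : ℝ) = (((d - 1) * a0 + b + 1 : ℕ) : ℝ) := by exact_mod_cast hb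
    rw [h1]
    push_cast
    rw [Nat.cast_sub hd, Nat.cast_one]
  -- bounds for b
  have hb1 : (b : ℝ) + 1 ≤ k - (d - 1) * ((1 - ζ) * k / d) := by
    have h1 : ((d : ℝ) - 1) * ((1 - ζ) * k / d) ≤ (d - 1) * a0 :=
      mul_le_mul_of_nonneg_left hlo (by linarith)
    linarith
  have e1 : (k : ℝ) - (d - 1) * ((1 - ζ) * k / d) = k / d + ζ * k * ((d - 1) / d) := by
    field_simp
    ring
  have hdd : 0 ≤ ((d : ℝ) - 1) / d := div_nonneg (by linarith) hd0.le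
  have hdd1 : ((d : ℝ) - 1) / d ≤ 1 := by rw [div_le_one hd0]; linarith
  have hs : (k : ℝ) + 1 + b ≤ (((d : ℝ) + 1) / d + ζ) * k := by
    have e2 : (((d : ℝ) + 1) / d + ζ) * k = k + k / d + ζ * k := by field_simp
    have h2 : ζ * k * ((d - 1) / d) ≤ ζ * k * 1 := mul_le_mul_of_nonneg_left hdd1 (by positivity)
    linarith
  have hkP : (k : ℝ) ≤ (d : ℝ) / (d + 1) * n := by nlinarith
  have h3 : (k : ℝ) / d ≤ n / (d + 1) - ζ * n / d := by
    rw [div_le_iff₀ hd0]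
    have : ((n : ℝ) / (d + 1) - ζ * n / d) * d = ((d : ℝ) / (d + 1) - ζ) * n := by field_simp
    rw [this]; exact hkn
  have h4 : ζ * k * (((d : ℝ) - 1) / d) ≤ ζ * n * (((d : ℝ) - 1) / (d + 1)) := by
    have h5 : ζ * k * (((d : ℝ) - 1) / d) ≤ ζ * ((d : ℝ) / (d + 1) * n) * (((d : ℝ) - 1) / d) :=
      mul_le_mul_of_nonneg_right (mul_le_mul_of_nonneg_left hkP hζ.le) hdd
    have h6 : ζ * ((d : ℝ) / (d + 1) * n) * (((d : ℝ) - 1) / d) =
        ζ * n * (((d : ℝ) - 1) / (d + 1)) := by field_simp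
    linarith
  have h7 : ((d : ℝ) - 1) / (d + 1) ≤ 1 := by rw [div_le_one (by linarith)]; linarith
  have h8 : ζ * n * (((d : ℝ) - 1) / (d + 1)) ≤ ζ * n * 1 :=
    mul_le_mul_of_nonneg_left h7 (by positivity)
  have h9 : (n : ℝ) - k ≥ n / (d + 1) + ζ * n := by
    have : (n : ℝ) - ((d : ℝ) / (d + 1) - ζ) * n = n / (d + 1) + ζ * n := by field_simp; ring
    linarith
  have hgap : (b : ℝ) + ζ * n / d ≤ (n : ℝ) - 1 - k := by linarith
  have hz : 0 < ζ * n / d := by positivity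
  have hb0 : (0 : ℝ) ≤ b := Nat.cast_nonneg b
  have hkn' : k + 1 < n := by
    have : (k : ℝ) + 1 < n := by linarith
    exact_mod_cast this
  have hM : (((n - 1 : ℕ) : ℝ) - k) = (n : ℝ) - 1 - k := by
    rw [Nat.cast_sub hn, Nat.cast_one]
  have hM0 : 0 < (n : ℝ) - 1 - k := by linarith
  have hbM : b ≤ n - 1 - k := by
    have h1 : (b : ℝ) ≤ ((n - 1 - k : ℕ) : ℝ) := by
      rw [Nat.cast_sub (by omega), Nat.cast_sub hn, Nat.cast_one]
      linarith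
    exact_mod_cast h1
  have hf1 : ζ / 2 ≤ 1 - ((d * a0 : ℕ) : ℝ) / k := by
    have : ((d * a0 : ℕ) : ℝ) / k ≤ 1 - ζ / 2 := by
      rw [div_le_iff₀ hk0]; push_cast; exact hda
    linarith
  have hf1' : 1 - ((d * a0 : ℕ) : ℝ) / k ≤ 1 := by
    have : 0 ≤ ((d * a0 : ℕ) : ℝ) / k := by positivity
    linarith
  have hf2 : ζ / d ≤ 1 - (b : ℝ) / (((n - 1 : ℕ) : ℝ) - k) := by
    have h1 : ζ / d * ((n : ℝ) - 1 - k) ≤ ζ / d * n :=
      mul_le_mul_of_nonneg_left (by linarith) (by positivity)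
    have h2 : ζ / d * (n : ℝ) = ζ * n / d := by ring
    have h3 : (b : ℝ) / ((n : ℝ) - 1 - k) ≤ 1 - ζ / d := by
      rw [div_le_iff₀ hM0, sub_mul, one_mul]
      linarith
    rw [hM]
    linarith
  have hf2' : 1 - (b : ℝ) / (((n - 1 : ℕ) : ℝ) - k) ≤ 1 := by
    rw [hM]
    have : 0 ≤ (b : ℝ) / ((n : ℝ) - 1 - k) := div_nonneg hb0 hM0.le
    linarith
  refine ⟨a0, b, hb, by omega, hda', hbM, hs, ?_, ?_⟩
  · have h1 : ζ ^ 2 / (2 * d) = ζ / 2 * (ζ / d) := by field_simp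
    rw [h1]
    exact mul_le_mul hf1 hf2 (by positivity) (le_trans (by positivity) hf1)
  · exact mul_le_one₀ hf1' (le_trans (by positivity) hf2) hf2'

/-- the final contradiction, real numbers only -/
theorem boot_fin (d k n ζ c c' BB θ : ℝ) (hd0 : 0 < d) (hk0 : 0 < k) (hn0 : 0 < n) (hζ : 0 < ζ)
    (hC : 0 < c) (hC' : 0 < c') (hBB0 : 0 < BB) (hBB1 : BB ≤ c) (hid : c * k = c' * (n - k))
    (hθ : ζ ^ 2 / (2 * d) ≤ θ) (hboot : (BB / c) ^ (1 - θ) * c' ≤ d * BB) :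
    ¬ BB < (k / n / d) ^ (2 * d / ζ ^ 2) * c := by
  obtain ⟨mu, hmu⟩ : ∃ mu, mu = BB / c := ⟨_, rfl⟩
  rw [← hmu] at hboot
  have hmu0 : 0 < mu := by rw [hmu]; exact div_pos hBB0 hC
  have hmu1 : mu ≤ 1 := by rw [hmu, div_le_one hC]; exact hBB1
  have hBBmu : BB = mu * c := by rw [hmu, div_mul_cancel₀ _ hC.ne']
  have hkap : 0 < k / n / d := by positivity
  have hp : 0 < mu ^ (1 - θ) := Real.rpow_pos_of_pos hmu0 _
  have key : k / n / d * mu ^ (1 - θ) ≤ mu := by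
    have h2 : mu ^ (1 - θ) * k * c' ≤ d * mu * n * c' := by
      calc mu ^ (1 - θ) * k * c' = mu ^ (1 - θ) * c' * k := by ring
        _ ≤ d * BB * k := mul_le_mul_of_nonneg_right hboot hk0.le
        _ = d * mu * (c * k) := by rw [hBBmu]; ring
        _ = d * mu * (c' * (n - k)) := by rw [hid]
        _ ≤ d * mu * (c' * n) := by
            apply mul_le_mul_of_nonneg_left _ (by positivity)
            apply mul_le_mul_of_nonneg_left _ hC'.le
            linarith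
        _ = d * mu * n * c' := by ring
    have h3 : mu ^ (1 - θ) * k ≤ d * mu * n := le_of_mul_le_mul_right h2 hC'
    have e : k / n / d * mu ^ (1 - θ) = mu ^ (1 - θ) * k / (n * d) := by
      field_simp
    rw [e, div_le_iff₀ (by positivity)]
    linarith
  have hmt : mu = mu ^ (1 - θ) * mu ^ θ := by
    rw [← Real.rpow_add hmu0, sub_add_cancel, Real.rpow_one]
  have key2 : k / n / d ≤ mu ^ θ := by
    have h2 : k / n / d * mu ^ (1 - θ) ≤ mu ^ θ * mu ^ (1 - θ) := by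
      rw [mul_comm (mu ^ θ), ← hmt]; exact key
    exact le_of_mul_le_mul_right h2 hp
  have key3 : k / n / d ≤ mu ^ (ζ ^ 2 / (2 * d)) :=
    key2.trans (Real.rpow_le_rpow_of_exponent_ge hmu0 hmu1 hθ)
  have key4 : (k / n / d) ^ (2 * d / ζ ^ 2) ≤ mu := by
    have h1 := Real.rpow_le_rpow hkap.le key3 (show 0 ≤ 2 * d / ζ ^ 2 by positivity)
    rw [← Real.rpow_mul hmu0.le] at h1
    have e : ζ ^ 2 / (2 * d) * (2 * d / ζ ^ 2) = 1 := by field_simp
    rw [e, Real.rpow_one] at h1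
    exact h1
  have h5 := mul_le_mul_of_nonneg_right key4 hC.le
  rw [← hBBmu] at h5
  exact not_lt.2 h5

/-- TARGET: bootstrapping. -/
theorem bootstrap (d : ℕ) (hd : 1 ≤ d) (ζ : ℝ) (hζ : 0 < ζ) (hζ1 : ζ ≤ 1 / 2) :
    ∃ C : ℝ, 0 < C ∧ ∀ (α : Type) [DecidableEq α] (S : Finset α) (F : Finset (Finset α)) (k : ℕ)
      (x : α), x ∈ S → 1 ≤ k → C ≤ k → (k : ℝ) ≤ ((d : ℝ) / (d + 1) - ζ) * S.card →
      (∀ A ∈ F, A ⊆ S ∧ A.card = k) → NoCl d ((((d : ℝ) + 1) / d + ζ) * k) F →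
      (S.card - 1).choose (k - 1) ≤ F.card →
      ((F.filter (fun A => x ∉ A)).card : ℝ) <
        (((k : ℝ) / S.card) / d) ^ (2 * (d : ℝ) / ζ ^ 2) * ((S.card - 1).choose k : ℝ) →
      F.filter (fun A => x ∉ A) = ∅ := by
  have hd0 : (0 : ℝ) < d := by exact_mod_cast hd
  refine ⟨100 * (d : ℝ) / ζ ^ 2, by positivity, ?_⟩
  intro α _ S F k x hx hk1 hkC hkn hF hcl hFc hlt
  by_contra hne
  have hne' : (F.filter (fun A => x ∉ A)).Nonempty := Finset.nonempty_iff_ne_empty.2 hne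
  have hn : 1 ≤ S.card := Finset.card_pos.2 ⟨x, hx⟩
  have hk0 : (0 : ℝ) < k := by exact_mod_cast hk1
  have hn0 : (0 : ℝ) < S.card := by exact_mod_cast hn
  obtain ⟨a0, b, g1, g2, g3, g4, g5, g6, g7⟩ := boot_num d hd ζ hζ hζ1 S.card k hn hk1 hkC hkn
  have hboot := boot_ineq d hd _ S F k a0 b x hx hF hcl hFc g1 g2 g3 g4 g5 hne'
  have hC : (0 : ℝ) < ((S.card - 1).choose k : ℝ) := by
    exact_mod_cast Nat.choose_pos g2.le
  have hC' : (0 : ℝ) < ((S.card - 1).choose (k - 1) : ℝ) := by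
    exact_mod_cast Nat.choose_pos (show k - 1 ≤ S.card - 1 by omega)
  have hBB0 : (0 : ℝ) < ((F.filter (fun A => x ∉ A)).card : ℝ) := by
    exact_mod_cast Finset.card_pos.2 hne'
  have hBB1 : ((F.filter (fun A => x ∉ A)).card : ℝ) ≤ ((S.card - 1).choose k : ℝ) := by
    have h1 : F.filter (fun A => x ∉ A) ⊆ (S.erase x).powersetCard k := by
      intro A hA
      rw [Finset.mem_filter] at hA
      rw [Finset.mem_powersetCard]
      obtain ⟨h2, h3⟩ := hF A hA.1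
      exact ⟨fun y hy => Finset.mem_erase.2 ⟨fun h => hA.2 (h ▸ hy), h2 hy⟩, h3⟩
    have h2 := Finset.card_le_card h1
    rw [Finset.card_powersetCard, Finset.card_erase_of_mem hx] at h2
    exact_mod_cast h2
  have hid : ((S.card - 1).choose k : ℝ) * k = ((S.card - 1).choose (k - 1) : ℝ) * (S.card - k) := by
    have h1 := Nat.choose_succ_right_eq (S.card - 1) (k - 1)
    rw [Nat.sub_add_cancel hk1] at h1
    have h2 : S.card - 1 - (k - 1) = S.card - k := by omega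
    rw [h2] at h1
    have h3 : (((S.card - 1).choose k * k : ℕ) : ℝ) =
        (((S.card - 1).choose (k - 1) * (S.card - k) : ℕ) : ℝ) := congrArg _ h1
    rw [Nat.cast_mul, Nat.cast_mul, Nat.cast_sub (show k ≤ S.card by omega)] at h3
    exact h3
  exact boot_fin d k S.card ζ _ _ _ _ hd0 hk0 hn0 hζ hC hC' hBB0 hBB1 hid g6 hboot hlt

end Pool.Agent.Helper729_cluster

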