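import Mathlib
import Pool.Agent.Helper729_cluster.Defs2

/-! Part of the proof of MP_b0b8df_co. -/

namespace Pool.Agent.Helper729_cluster

open Finset

/-- TARGET: near-star step. -/
theorem near_star {α : Type} [DecidableEq α] (S : Finset α) (f : Finset α → ℝ) (hf : Monotone f)
    (h01 : ∀ A, f A = 0 ∨ f A = 1) (κ η : ℝ) (hκ : 0 < κ) (hη : 0 < η) (hη1 : η ≤ 1 / 10)
    (hq : (1 + η) ^ 2 * κ ≤ 1)
    (hlow : ∀ ξ, (1 + η ^ 2) * κ ≤ ξ → ξ ≤ (1 + η) * κ → κ * (1 - η ^ 2) ≤ E ξ S f)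
    (hup : ∀ ξ, (1 + η ^ 2) * κ ≤ ξ → ξ ≤ (1 + η) * κ → E ξ S f ≤ ξ * (1 + η ^ 2)) :
    ∃ ξ, (1 + η ^ 2) * κ < ξ ∧ ξ < (1 + η) * κ ∧ ∃ x ∈ S,
      E ξ (S.erase x) f ≤ 10 * η ∧ 1 - 10 * η ≤ E ξ (S.erase x) (up1 x f) := by
  have hη2 : η ^ 2 < η := by nlinarith
  have hab : (1 + η ^ 2) * κ < (1 + η) * κ := by
    apply mul_lt_mul_of_pos_right _ hκ
    linarith
  obtain ⟨ξ, ⟨hξa, hξb⟩, hξ⟩ := exists_hasDerivAt_eq_slope (fun q => E q S f)
    (fun p => ∑ t ∈ S, E p S (D t f)) hab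
    (fun x _ => (hasDerivAt_E x S f).continuousAt.continuousWithinAt)
    (fun x _ => hasDerivAt_E x S f)
  refine ⟨ξ, hξa, hξb, ?_⟩
  have hξ0 : 0 < ξ := lt_trans (by positivity) hξa
  have hκ1 : (1 + η) * ξ ≤ 1 := by nlinarith
  have hξ1 : ξ < 1 := by nlinarith
  have h1η : 0 < 1 - η := by linarith
  -- the slope
  have hA : κ * (1 - η ^ 2) ≤ E ((1 + η ^ 2) * κ) S f := hlow _ le_rfl hab.le
  have hB : E ((1 + η) * κ) S f ≤ ((1 + η) * κ) * (1 + η ^ 2) := hup _ hab.le le_rfl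
  set Sg := ∑ t ∈ S, E ξ S (D t f) with hSg
  have hSg1 : Sg * (1 - η) ≤ (1 + η) ^ 2 := by
    have h1 : Sg * ((1 + η) * κ - (1 + η ^ 2) * κ) =
        E ((1 + η) * κ) S f - E ((1 + η ^ 2) * κ) S f := by
      have hne : (1 + η) * κ - (1 + η ^ 2) * κ ≠ 0 := by linarith
      rw [hξ]
      exact div_mul_cancel₀ _ hne
    have h2 : (κ * η) * (Sg * (1 - η)) ≤ (κ * η) * ((1 + η) ^ 2) := by
      have e1 : (κ * η) * (Sg * (1 - η)) = Sg * ((1 + η) * κ - (1 + η ^ 2) * κ) := by ring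
      rw [e1, h1]
      have e2 : (κ * η) * ((1 + η) ^ 2) = ((1 + η) * κ) * (1 + η ^ 2) - κ * (1 - η ^ 2) := by
        ring
      rw [e2]
      linarith
    exact le_of_mul_le_mul_left h2 (by positivity)
  -- the energy inequality
  set m := E ξ S f with hm
  have hm1 : κ * (1 - η ^ 2) ≤ m := hlow ξ hξa.le hξb.le
  have hm2 : m ≤ ξ * (1 + η ^ 2) := hup ξ hξa.le hξb.le
  have hf01 : ∀ A, f A ^ 2 = f A := fun A => by
    rcases h01 A with h | h <;> rw [h] <;> norm_num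
  have hD01 : ∀ t A, D t f A = 0 ∨ D t f A = 1 := fun t A => by
    have hle : f (A.erase t) ≤ f (insert t A) :=
      hf ((Finset.erase_subset t A).trans (Finset.subset_insert t A))
    unfold D
    rcases h01 (insert t A) with h | h
    · rcases h01 (A.erase t) with h' | h'
      · rw [h, h']
        left
        norm_num
      · rw [h, h'] at hle
        norm_num at hle
    · rcases h01 (A.erase t) with h' | h'
      · rw [h, h']
        right
        norm_num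
      · rw [h, h']
        left
        norm_num
  have hDsq : ∀ t A, (D t f A) ^ 2 = D t f A := fun t A => by
    rcases hD01 t A with h | h <;> rw [h] <;> norm_num
  have hI0 : ∀ t, 0 ≤ E ξ S (D t f) := fun t => E_nonneg hξ0.le hξ1.le fun A _ => by
    rcases hD01 t A with h | h <;> rw [h]
    norm_num
  have hen := energy ξ hξ0.le hξ1.le S f
  have e1 : E ξ S (fun A => f A ^ 2) = m := E_congr fun A _ => hf01 A
  have e2 : ∑ t ∈ S, E ξ S (fun A => (D t f A) ^ 2) = Sg :=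
    Finset.sum_congr rfl fun t _ => E_congr fun A _ => hDsq t A
  rw [e1, e2, ← hm] at hen
  have hmξ : ξ * (1 - η) ≤ m := by
    refine le_trans ?_ hm1
    have : κ * (1 - η ^ 2) = ((1 + η) * κ) * (1 - η) := by ring
    rw [this]
    exact mul_le_mul_of_nonneg_right hξb.le h1η.le
  have hmξ' : (1 - ξ) * (1 - η) ≤ 1 - m := by nlinarith
  have hprod : ξ * (1 - η) * ((1 - ξ) * (1 - η)) ≤ m * (1 - m) := by
    apply mul_le_mul hmξ hmξ'
    · exact mul_nonneg (by linarith) h1η.le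
    · exact le_trans (by positivity) hmξ
  have hkey : 2 * (1 - η) ^ 2 ≤ Sg + ∑ t ∈ S, (E ξ S (D t f)) ^ 2 := by
    have h2 : (ξ * (1 - ξ)) * (2 * (1 - η) ^ 2) ≤
        (ξ * (1 - ξ)) * (Sg + ∑ t ∈ S, (E ξ S (D t f)) ^ 2) := by
      nlinarith
    exact le_of_mul_le_mul_left h2 (mul_pos hξ0 (by linarith))
  have hex : ∃ x ∈ S, 1 - 10 * η ≤ E ξ S (D x f) := by
    by_contra hcon
    push Not at hcon
    have hc0 : 0 ≤ 1 - 10 * η := by linarith
    have h3 : ∑ t ∈ S, (E ξ S (D t f)) ^ 2 ≤ (1 - 10 * η) * Sg := by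
      rw [hSg, Finset.mul_sum]
      refine Finset.sum_le_sum fun t ht => ?_
      rw [pow_two]
      exact mul_le_mul_of_nonneg_right (hcon t ht).le (hI0 t)
    have h4 : 2 * (1 - η) ^ 2 ≤ (2 - 10 * η) * Sg := by linarith
    have h5 : 2 * (1 - η) ^ 2 * (1 - η) ≤ (2 - 10 * η) * (1 + η) ^ 2 := by
      calc 2 * (1 - η) ^ 2 * (1 - η) ≤ (2 - 10 * η) * Sg * (1 - η) :=
            mul_le_mul_of_nonneg_right h4 h1η.le
        _ = (2 - 10 * η) * (Sg * (1 - η)) := by ring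
        _ ≤ (2 - 10 * η) * (1 + η) ^ 2 := mul_le_mul_of_nonneg_left hSg1 (by linarith)
    have h6 : 2 * (1 - η) ^ 2 * (1 - η) - (2 - 10 * η) * (1 + η) ^ 2 =
        2 * (12 * η ^ 2 + 4 * η ^ 3) := by ring
    have h7 : 0 < 2 * (12 * η ^ 2 + 4 * η ^ 3) := by positivity
    linarith
  obtain ⟨x, hx, hxI⟩ := hex
  refine ⟨x, hx, ?_⟩
  have h8 := E_D_insert ξ (Finset.notMem_erase x S) f
  rw [Finset.insert_erase hx] at h8
  rw [h8] at hxI
  have hU : E ξ (S.erase x) (up1 x f) ≤ 1 := E_le_one hξ0.le hξ1.le fun A _ => by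
    unfold up1
    rcases h01 (insert x A) with h | h <;> rw [h]
    norm_num
  have hL : 0 ≤ E ξ (S.erase x) f := E_nonneg hξ0.le hξ1.le fun A _ => by
    rcases h01 A with h | h <;> rw [h]
    norm_num
  constructor <;> linarith

end Pool.Agent.Helper729_cluster
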