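import Mathlib
import Pool.Agent.Helper729_cluster.Defs2
import Pool.Agent.Helper729_cluster.Rho

/-! Part of the proof of MP_b0b8df_co. -/

namespace Pool.Agent.Helper729_cluster

open Finset


theorem exp_half_le (ε : ℝ) (hε : 0 < ε) (hε1 : ε ≤ 1) : Real.exp (ε / 2) ≤ 1 + ε := by
  have h1 : 1 - ε / 2 ≤ Real.exp (-(ε / 2)) := by
    have := Real.add_one_le_exp (-(ε / 2)); linarith
  have h2 : Real.exp (ε / 2) * Real.exp (-(ε / 2)) = 1 := by
    rw [← Real.exp_add, add_neg_cancel, Real.exp_zero]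
  have h3 : 0 < Real.exp (ε / 2) := Real.exp_pos _
  have h4 : Real.exp (ε / 2) * (1 - ε / 2) ≤ 1 := by
    calc Real.exp (ε / 2) * (1 - ε / 2) ≤ Real.exp (ε / 2) * Real.exp (-(ε / 2)) :=
          mul_le_mul_of_nonneg_left h1 h3.le
      _ = 1 := h2
  have h5 : (1 : ℝ) ≤ (1 + ε) * (1 - ε / 2) := by nlinarith
  by_contra hcon
  push Not at hcon
  have h6 : 0 < 1 - ε / 2 := by linarith
  have h7 := mul_lt_mul_of_pos_right hcon h6
  linarith

set_option maxHeartbeats 1000000 in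
/-- TARGET: sharp upper bound, p bounded away from 0. -/
theorem U1 (d : ℕ) (hd : 1 ≤ d) (ζ : ℝ) (hζ : 0 < ζ) (hζ1 : ζ ≤ 1 / 2) (ε : ℝ) (hε : 0 < ε)
    (hε1 : ε ≤ 1) (p0 : ℝ) (hp0 : 0 < p0) :
    ∃ C : ℝ, 0 < C ∧ ∀ (α : Type) [DecidableEq α] (S : Finset α) (F : Finset (Finset α)) (k : ℕ)
      (p : ℝ), 1 ≤ k → C ≤ k → (k : ℝ) ≤ ((d : ℝ) / (d + 1) - ζ) * S.card →
      NoCl d ((((d : ℝ) + 1) / d + ζ) * k) F → p0 ≤ p → p ≤ (1 + ζ / 28) * ((k : ℝ) / S.card) →
      E p S (upF F) ≤ p * (1 + ε) := by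
  have hd0 : (0 : ℝ) < d := by exact_mod_cast hd
  have hd1 : (1 : ℝ) ≤ d := by exact_mod_cast hd
  obtain ⟨P, hP⟩ : ∃ P : ℝ, P = (d : ℝ) / (d + 1) := ⟨_, rfl⟩
  have hP0 : 0 < P := by rw [hP]; positivity
  have hP1 : P < 1 := by rw [hP, div_lt_one (by linarith)]; linarith
  have hPh : 1 / 2 ≤ P := by rw [hP, le_div_iff₀ (by linarith)]; linarith
  obtain ⟨δ, hδ⟩ : ∃ δ : ℝ, δ = ζ / 28 := ⟨_, rfl⟩
  have hδ0 : 0 < δ := by rw [hδ]; positivity
  have hδ1 : δ ≤ 1 / 56 := by rw [hδ]; linarith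
  obtain ⟨LP, hLP⟩ : ∃ LP : ℝ, LP = -Real.log P := ⟨_, rfl⟩
  have hLP0 : 0 < LP := by rw [hLP]; have := Real.log_neg hP0 hP1; linarith
  have hPexp : Real.exp (-LP) = P := by rw [hLP, neg_neg, Real.exp_log hP0]
  have hPLP : P * LP ≤ 1 / 2 := by
    have h1 : Real.log P⁻¹ ≤ P⁻¹ - 1 := Real.log_le_sub_one_of_pos (by positivity)
    rw [Real.log_inv, ← hLP] at h1
    have h2 : P * LP ≤ P * (P⁻¹ - 1) := mul_le_mul_of_nonneg_left h1 hP0.le
    have h3 : P * (P⁻¹ - 1) = 1 - P := by field_simp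
    linarith
  obtain ⟨p1, hp1⟩ : ∃ p1 : ℝ, p1 = min p0 (1 / 2) := ⟨_, rfl⟩
  have hp10 : 0 < p1 := by rw [hp1]; exact lt_min hp0 (by norm_num)
  have hp11 : p1 < 1 := by
    rw [hp1]; exact lt_of_le_of_lt (min_le_right _ _) (by norm_num)
  obtain ⟨L1, hL1⟩ : ∃ L1 : ℝ, L1 = -Real.log p1 := ⟨_, rfl⟩
  have hL10 : 0 < L1 := by rw [hL1]; have := Real.log_neg hp10 hp11; linarith
  obtain ⟨et, het⟩ : ∃ et : ℝ, et = min ζ (ε / (4 * (1 + L1))) := ⟨_, rfl⟩
  have het0 : 0 < et := by rw [het]; exact lt_min hζ (by positivity)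
  have het1 : et ≤ ζ := by rw [het]; exact min_le_left _ _
  have het2 : et * L1 ≤ ε / 4 := by
    have h1 : et ≤ ε / (4 * (1 + L1)) := by rw [het]; exact min_le_right _ _
    rw [le_div_iff₀ (by positivity)] at h1
    nlinarith
  obtain ⟨q, hq⟩ : ∃ q : ℝ, q = Real.exp (-((1 + et) * LP)) := ⟨_, rfl⟩
  have hqP : q < P := by
    rw [hq, ← hPexp, Real.exp_lt_exp]; nlinarith [mul_pos het0 hLP0]
  have hqlow : P - ζ / 2 ≤ q := by
    have h1 : q = P * Real.exp (-(et * LP)) := by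
      rw [hq, ← hPexp, ← Real.exp_add]; congr 1; ring
    have h2 : 1 - et * LP ≤ Real.exp (-(et * LP)) := by
      have := Real.add_one_le_exp (-(et * LP)); linarith
    have h3 : P * (1 - et * LP) ≤ q := by rw [h1]; exact mul_le_mul_of_nonneg_left h2 hP0.le
    have h4 : et * (P * LP) ≤ ζ * (1 / 2) := mul_le_mul het1 hPLP (by positivity) hζ.le
    nlinarith
  obtain ⟨a0, ha0⟩ : ∃ a0 : ℝ, a0 = (1 + et) * LP / L1 := ⟨_, rfl⟩
  have ha00 : 0 < a0 := by rw [ha0]; positivity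
  obtain ⟨G0, hG0⟩ : ∃ G0 : ℝ, G0 = (P - q) * (1 - (1 + δ) ^ (-a0)) := ⟨_, rfl⟩
  have hG00 : 0 < G0 := by
    rw [hG0]
    apply mul_pos (by linarith)
    have : (1 + δ) ^ (-a0) < 1 := Real.rpow_lt_one_of_one_lt_of_neg (by linarith) (by linarith)
    linarith
  obtain ⟨lam, hlam⟩ : ∃ lam : ℝ, lam = min δ (Real.log (1 + G0)) := ⟨_, rfl⟩
  have hlam0 : 0 < lam := by
    rw [hlam]; exact lt_min hδ0 (Real.log_pos (by linarith))
  have hlam1 : lam ≤ δ := by rw [hlam]; exact min_le_left _ _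
  have hlamG : Real.exp lam ≤ 1 + G0 := by
    have h1 : lam ≤ Real.log (1 + G0) := by rw [hlam]; exact min_le_right _ _
    calc Real.exp lam ≤ Real.exp (Real.log (1 + G0)) := Real.exp_le_exp.2 h1
      _ = 1 + G0 := Real.exp_log (by linarith)
  refine ⟨8 / (lam * ζ * a0 * ε), by positivity, ?_⟩
  intro α _ S F k p hk hCk hkn hNo hp0p hpk
  rw [← hP] at hkn
  have hk0 : (0 : ℝ) < k := by exact_mod_cast (show 0 < k by omega)
  have hn : 0 < S.card := by
    rcases Nat.eq_zero_or_pos S.card with h | h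
    · rw [h] at hkn; simp only [Nat.cast_zero, mul_zero] at hkn; linarith
    · exact h
  have hn0 : (0 : ℝ) < S.card := by exact_mod_cast hn
  have hkn' : (k : ℝ) / S.card ≤ P - ζ := by rw [div_le_iff₀ hn0]; exact hkn
  have hp1p : p1 ≤ p := le_trans (by rw [hp1]; exact min_le_left _ _) hp0p
  have hp : 0 < p := lt_of_lt_of_le hp10 hp1p
  have hPζ : 0 < P - ζ := lt_of_lt_of_le (by positivity) hkn'
  have hpk2 : p ≤ (1 + δ) * (P - ζ) := by
    rw [← hδ] at hpk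
    exact hpk.trans (mul_le_mul_of_nonneg_left hkn' (by linarith))
  have hpP : p ≤ P - ζ / 2 := by
    have : δ * (P - ζ) ≤ δ * 1 := mul_le_mul_of_nonneg_left (by linarith) hδ0.le
    rw [hδ] at this hpk2
    nlinarith
  have hplt1 : p < 1 := by linarith
  have hpP' : (1 + δ) * p < P := by
    have h1 : (1 + δ) * p ≤ (1 + δ) * (P - ζ / 2) := mul_le_mul_of_nonneg_left hpP (by linarith)
    have h2 : δ * (P - ζ / 2) ≤ δ * 1 := mul_le_mul_of_nonneg_left (by linarith) hδ0.le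
    have h3 : (1 + δ) * (P - ζ / 2) = P - ζ / 2 + δ * (P - ζ / 2) := by ring
    rw [h3] at h1
    have h4 : δ < ζ / 2 := by rw [hδ]; linarith
    linarith
  obtain ⟨Lp, hLp⟩ : ∃ Lp : ℝ, Lp = -Real.log p := ⟨_, rfl⟩
  have hLp0 : 0 < Lp := by rw [hLp]; have := Real.log_neg hp hplt1; linarith
  have hLpL1 : Lp ≤ L1 := by
    rw [hLp, hL1]; have := Real.log_le_log hp10 hp1p; linarith
  have hpexp : Real.exp (-Lp) = p := by rw [hLp, neg_neg, Real.exp_log hp]
  obtain ⟨a, ha⟩ : ∃ a : ℝ, a = (1 + et) * LP / Lp := ⟨_, rfl⟩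
  have ha0' : 0 < a := by rw [ha]; positivity
  have haLp : a * Lp = (1 + et) * LP := by rw [ha]; field_simp
  have hpa : p ^ a = q := by
    rw [Real.rpow_def_of_pos hp, hq]
    congr 1
    have : Real.log p = -Lp := by rw [hLp]; ring
    rw [this, ← haLp]; ring
  have ha1 : a ≤ 1 := by
    rw [ha, div_le_one hLp0]
    have h1 : p ≤ q := hpP.trans hqlow
    rw [hq, ← hpexp, Real.exp_le_exp] at h1
    linarith
  have ha_a0 : a0 ≤ a := by
    rw [ha, ha0]
    exact div_le_div_of_nonneg_left (by positivity) hLp0 hLpL1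
  have hG : Real.exp lam ≤ 1 + (P - p ^ a) * (1 - (1 + δ) ^ (-a)) := by
    refine hlamG.trans ?_
    rw [hpa, hG0]
    have h1 : (1 + δ) ^ (-a) ≤ (1 + δ) ^ (-a0) :=
      Real.rpow_le_rpow_of_exponent_le (by linarith) (by linarith)
    have h2 : (P - q) * (1 - (1 + δ) ^ (-a0)) ≤ (P - q) * (1 - (1 + δ) ^ (-a)) :=
      mul_le_mul_of_nonneg_left (by linarith) (by linarith)
    linarith
  -- the potential lemma
  have hpot := pm1 d hd p δ a lam hp hδ0 (by rw [← hP]; exact hpP') ha0' ha1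
    (by rw [← hP, hpa]; exact hqP) hlam0 (by rw [← hP]; exact hG) S (fun _ => upF F)
    (fun _ => upF_mono F) (fun _ A => upF_nonneg F A) (fun _ A => upF_le_one F A)
    (-((((d : ℝ) + 1) / d + ζ) * k))
  have hno : ¬ ∃ A : Fin (d + 1) → Finset α, (∀ i, A i ⊆ S) ∧ (∀ i, 0 < upF F (A i)) ∧
        (∀ x, ∃ i, x ∉ A i) ∧
        -((((d : ℝ) + 1) / d + ζ) * k) + (univ.biUnion A).card < 0 := by
    rintro ⟨A, -, hA, hx, hlt⟩
    have := NoCl.union_lt hNo A hA hx
    linarith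
  have hle := not_lt.1 (fun h => hno (hpot h))
  have hrho := rho_pow_le d hd ζ hζ hζ1 S.card S.card k le_rfl hn p lam hp.le hpk hlam0
    (by rw [← hδ]; exact hlam1)
  rw [← hδ] at hrho
  obtain ⟨mu, hmu⟩ : ∃ mu : ℝ, mu = E p S (upF F) := ⟨_, rfl⟩
  have hmu0 : 0 ≤ mu := by rw [hmu]; exact E_nonneg hp.le hplt1.le (fun A _ => upF_nonneg F A)
  obtain ⟨M, hM⟩ : ∃ M : ℝ, M = Real.exp (-(lam * ζ * k / 2)) := ⟨_, rfl⟩
  have hM0 : 0 < M := by rw [hM]; exact Real.exp_pos _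
  have hsum : ((d : ℝ) + 1) * mu ^ a - d ≤ M := by
    have h1 : ∑ i : Fin (d + 1), (E p S (upF F)) ^ a = ((d : ℝ) + 1) * mu ^ a := by
      rw [Finset.sum_const, Finset.card_univ, Fintype.card_fin, nsmul_eq_mul, hmu]
      push_cast; rfl
    rw [h1] at hle
    refine hle.trans ?_
    refine (mul_le_mul_of_nonneg_left hrho (Real.exp_pos _).le).trans ?_
    rw [← Real.exp_add, hM]
    apply le_of_eq
    congr 1
    ring
  have hmua : mu ^ a ≤ Real.exp (-LP + M) := by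
    have h1 : mu ^ a ≤ (d + M) / (d + 1) := by
      rw [le_div_iff₀ (by linarith)]; linarith
    have h2 : (d + M) / (d + 1) ≤ P * (1 + M) := by
      rw [hP, div_mul_eq_mul_div, div_le_div_iff_of_pos_right (by linarith)]
      have h0 := mul_le_mul_of_nonneg_right hd1 hM0.le
      have h00 : (d : ℝ) * (1 + M) = d + d * M := by ring
      rw [h00]; linarith
    have h3 : 1 + M ≤ Real.exp M := by have := Real.add_one_le_exp M; linarith
    calc mu ^ a ≤ P * (1 + M) := h1.trans h2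
      _ ≤ P * Real.exp M := mul_le_mul_of_nonneg_left h3 hP0.le
      _ = Real.exp (-LP + M) := by rw [Real.exp_add, hPexp]
  have hmu1 : mu ≤ Real.exp ((-LP + M) / a) := by
    have h1 : (mu ^ a) ^ (1 / a) ≤ (Real.exp (-LP + M)) ^ (1 / a) :=
      Real.rpow_le_rpow (Real.rpow_nonneg hmu0 _) hmua (by positivity)
    rw [← Real.rpow_mul hmu0, mul_one_div_cancel ha0'.ne', Real.rpow_one, ← Real.exp_mul] at h1
    rw [div_eq_mul_one_div]
    exact h1
  have hexp : (-LP + M) / a ≤ -Lp + ε / 2 := by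
    rw [add_div]
    have h1 : -LP / a ≤ -Lp + ε / 4 := by
      have h2 : LP / a = Lp / (1 + et) := by
        rw [ha]; field_simp
      have h3 : Lp - et * Lp ≤ Lp / (1 + et) := by
        rw [le_div_iff₀ (by linarith)]
        nlinarith [mul_nonneg (mul_nonneg het0.le het0.le) hLp0.le]
      have h4 : et * Lp ≤ et * L1 := mul_le_mul_of_nonneg_left hLpL1 het0.le
      rw [neg_div, h2]
      linarith
    have h5 : M / a ≤ ε / 4 := by
      have h6 : M / a ≤ M / a0 := div_le_div_of_nonneg_left hM0.le ha00 ha_a0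
      have hy : 0 < lam * ζ * k / 2 := by positivity
      have h7 : M * (lam * ζ * k / 2) ≤ 1 := by
        have h8 : lam * ζ * k / 2 ≤ Real.exp (lam * ζ * k / 2) := by
          have := Real.add_one_le_exp (lam * ζ * k / 2); linarith
        calc M * (lam * ζ * k / 2) ≤ M * Real.exp (lam * ζ * k / 2) :=
              mul_le_mul_of_nonneg_left h8 hM0.le
          _ = 1 := by rw [hM, ← Real.exp_add, neg_add_cancel, Real.exp_zero]
      have h9 : 8 ≤ k * (lam * ζ * a0 * ε) := by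
        rwa [div_le_iff₀ (by positivity)] at hCk
      refine h6.trans ?_
      rw [div_le_iff₀ ha00]
      -- M ≤ ε/4 * a0
      by_contra hcon
      push Not at hcon
      have h10 := mul_lt_mul_of_pos_right hcon hy
      have h11 : ε / 4 * a0 * (lam * ζ * k / 2) = k * (lam * ζ * a0 * ε) / 8 := by ring
      rw [h11] at h10
      linarith
    linarith
  rw [← hmu]
  calc mu ≤ Real.exp ((-LP + M) / a) := hmu1
    _ ≤ Real.exp (-Lp + ε / 2) := Real.exp_le_exp.2 hexp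
    _ = p * Real.exp (ε / 2) := by rw [Real.exp_add, hpexp]
    _ ≤ p * (1 + ε) := mul_le_mul_of_nonneg_left (exp_half_le ε hε hε1) hp.le

end Pool.Agent.Helper729_cluster
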