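import Mathlib

/-! Part of the proof of MP_b0b8df_co. -/

namespace Pool.Agent.Helper729_cluster

open Finset

theorem star_exists (d : ℕ) (hd : 1 ≤ d) (δ ε : ℝ) (hδ : 0 < δ) (hδ1 : δ ≤ 1) (hε : 0 < ε)
    (hε1 : ε ≤ 1) :
    ∃ c2 : ℝ, 0 < c2 ∧ ∃ p0 : ℝ, 0 < p0 ∧ p0 ≤ 1 / 4 ∧ ∀ p : ℝ, 0 < p → p ≤ p0 →
      (p + (1 - p) * Real.exp c2 * (p * Real.exp (ε / (d + 1))) ^ (d + 1) <
        p * Real.exp (ε / (d + 1))) ∧
      ∃ z2 : ℝ, 0 < z2 ∧ z2 ^ (d + 1) = (1 + p * δ) / (1 + δ) ∧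
        p + (1 - p) * Real.exp c2 * z2 ^ (d + 1) < z2 := by
  have hm : (0 : ℝ) < (d : ℝ) + 1 := by positivity
  have hm0 : ((d : ℝ) + 1) ≠ 0 := hm.ne'
  have h1δ : (0 : ℝ) < 1 + δ := by linarith
  -- roots
  have root : ∀ y : ℝ, 0 < y → ∃ z : ℝ, 0 < z ∧ z ^ (d + 1) = y := by
    intro y hy
    refine ⟨y ^ (1 / ((d : ℝ) + 1)), Real.rpow_pos_of_pos hy _, ?_⟩
    rw [← Real.rpow_natCast, ← Real.rpow_mul hy.le]
    push_cast
    rw [one_div_mul_cancel hm0, Real.rpow_one]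
  obtain ⟨Q, hQ0, hQ⟩ := root (1 / (1 + δ)) (by positivity)
  have hQlt1 : 1 / (1 + δ) < 1 := by rw [div_lt_one h1δ]; linarith
  have hQ1 : Q < 1 := by
    by_contra hcon
    have : 1 ≤ Q ^ (d + 1) := one_le_pow₀ (not_lt.1 hcon)
    rw [hQ] at this; linarith
  have hQm0 : 0 < Q ^ (d + 1) := by positivity
  have hQmQ : Q ^ (d + 1) < Q := by
    have h1 : Q ^ d < 1 := pow_lt_one₀ hQ0.le hQ1 (by omega)
    calc Q ^ (d + 1) = Q ^ d * Q := pow_succ _ _
      _ < 1 * Q := mul_lt_mul_of_pos_right h1 hQ0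
      _ = Q := one_mul _
  obtain ⟨R, hR⟩ : ∃ R : ℝ, R = Q ^ (d + 1) := ⟨_, rfl⟩
  rw [← hR] at hQ hQm0 hQmQ
  have hrat : 1 < (Q + R) / (2 * R) := by rw [lt_div_iff₀ (by linarith)]; linarith
  obtain ⟨c2, hc2⟩ : ∃ c2 : ℝ, c2 = Real.log ((Q + R) / (2 * R)) := ⟨_, rfl⟩
  have hc20 : 0 < c2 := by rw [hc2]; exact Real.log_pos hrat
  have hexp : Real.exp c2 = (Q + R) / (2 * R) := by rw [hc2, Real.exp_log (by linarith)]
  have hexpR : Real.exp c2 * R = (Q + R) / 2 := by rw [hexp]; field_simp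
  have hE0 : 0 < Real.exp c2 := Real.exp_pos _
  have hF0 : 0 < Real.exp (c2 + ε) := Real.exp_pos _
  obtain ⟨A, hA⟩ : ∃ A : ℝ, A = (Q - R) / (4 * (1 + Real.exp c2)) := ⟨_, rfl⟩
  obtain ⟨B, hB⟩ : ∃ B : ℝ, B = ε / (2 * ((d : ℝ) + 1) * Real.exp (c2 + ε)) := ⟨_, rfl⟩
  have hA0 : 0 < A := by rw [hA]; apply div_pos <;> linarith
  have hB0 : 0 < B := by rw [hB]; positivity
  have hAe : A * (1 + Real.exp c2) = (Q - R) / 4 := by rw [hA]; field_simp
  have hBe : Real.exp (c2 + ε) * B * ((d : ℝ) + 1) = ε / 2 := by rw [hB]; field_simp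
  refine ⟨c2, hc20, min (1 / 4) (min A B), by positivity, min_le_left _ _, ?_⟩
  intro p hp hp0
  have hp4 : p ≤ 1 / 4 := hp0.trans (min_le_left _ _)
  have hpA : p ≤ A := hp0.trans ((min_le_right _ _).trans (min_le_left _ _))
  have hpB : p ≤ B := hp0.trans ((min_le_right _ _).trans (min_le_right _ _))
  constructor
  · have h1 : (p * Real.exp (ε / (d + 1))) ^ (d + 1) = p ^ (d + 1) * Real.exp ε := by
      rw [mul_pow, ← Real.exp_nat_mul]
      congr 2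
      push_cast
      field_simp
    rw [h1]
    have h2 : p ^ (d + 1) ≤ p ^ 2 := pow_le_pow_of_le_one hp.le (by linarith) (by omega)
    have h3 : Real.exp c2 * (p ^ (d + 1) * Real.exp ε) ≤ Real.exp (c2 + ε) * p ^ 2 := by
      rw [Real.exp_add]
      have h0 : 0 ≤ Real.exp c2 * Real.exp ε := by positivity
      have h0' := mul_le_mul_of_nonneg_left h2 h0
      calc Real.exp c2 * (p ^ (d + 1) * Real.exp ε) = Real.exp c2 * Real.exp ε * p ^ (d + 1) := by ring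
        _ ≤ _ := h0'
    have h4 : (1 - p) * Real.exp c2 * (p ^ (d + 1) * Real.exp ε) ≤ Real.exp c2 * (p ^ (d + 1) * Real.exp ε) := by
      have h0 : 0 ≤ Real.exp c2 * (p ^ (d + 1) * Real.exp ε) := by positivity
      rw [mul_assoc]
      exact mul_le_of_le_one_left h0 (by linarith)
    have h5 : Real.exp (c2 + ε) * p ≤ ε / 2 / ((d : ℝ) + 1) := by
      rw [le_div_iff₀ hm, ← hBe]
      apply mul_le_mul_of_nonneg_right _ hm.le
      exact mul_le_mul_of_nonneg_left hpB hF0.le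
    have h6 : ε / ((d : ℝ) + 1) + 1 ≤ Real.exp (ε / (d + 1)) := Real.add_one_le_exp _
    have h7 : 0 < ε / ((d : ℝ) + 1) := by positivity
    have h8 : ε / 2 / ((d : ℝ) + 1) = (ε / ((d : ℝ) + 1)) / 2 := by ring
    have h9 : Real.exp (c2 + ε) * p ^ 2 ≤ (ε / ((d : ℝ) + 1)) / 2 * p := by
      rw [h8] at h5
      have := mul_le_mul_of_nonneg_right h5 hp.le
      calc Real.exp (c2 + ε) * p ^ 2 = Real.exp (c2 + ε) * p * p := by ring
        _ ≤ _ := this
    have h10 : 0 < p * (ε / ((d : ℝ) + 1)) := mul_pos hp h7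
    have h11 := mul_le_mul_of_nonneg_left h6 hp.le
    have h12 : (ε / ((d : ℝ) + 1)) / 2 * p = (p * (ε / ((d : ℝ) + 1))) / 2 := by ring
    have h13 : p * (ε / ((d : ℝ) + 1) + 1) = p * (ε / ((d : ℝ) + 1)) + p := by ring
    rw [h13] at h11
    rw [h12] at h9
    calc _ ≤ p + Real.exp c2 * (p ^ (d + 1) * Real.exp ε) := by linarith
      _ ≤ p + (p * (ε / ((d : ℝ) + 1))) / 2 := by linarith
      _ < p * (ε / ((d : ℝ) + 1)) + p := by linarith
      _ ≤ _ := h11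
  · obtain ⟨z2, hz0, hz⟩ := root ((1 + p * δ) / (1 + δ)) (by positivity)
    refine ⟨z2, hz0, hz, ?_⟩
    have hzR : z2 ^ (d + 1) = R * (1 + p * δ) := by rw [hz, hQ]; ring
    have hQz : Q ≤ z2 := by
      by_contra hcon
      have h1 : z2 ^ (d + 1) < Q ^ (d + 1) := pow_lt_pow_left₀ (not_le.1 hcon) hz0.le (by omega)
      rw [hzR, ← hR] at h1
      have h0 : 0 < R * (p * δ) := by positivity
      have h0' : R * (1 + p * δ) = R + R * (p * δ) := by ring
      linarith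
    rw [hzR]
    have hRδ : R * δ ≤ 1 := by
      rw [hQ, one_div, ← div_eq_inv_mul, div_le_one h1δ]; linarith
    have h1 : Real.exp c2 * (R * (1 + p * δ)) ≤ (Q + R) / 2 + Real.exp c2 * p := by
      have e : Real.exp c2 * (R * (1 + p * δ)) = Real.exp c2 * R + Real.exp c2 * (p * (R * δ)) := by ring
      rw [e, hexpR]
      have h0 : p * (R * δ) ≤ p := mul_le_of_le_one_right hp.le hRδ
      have h0' := mul_le_mul_of_nonneg_left h0 hE0.le
      linarith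
    have h2 : (1 - p) * Real.exp c2 * (R * (1 + p * δ)) ≤ Real.exp c2 * (R * (1 + p * δ)) := by
      have h0 : 0 ≤ Real.exp c2 * (R * (1 + p * δ)) := by positivity
      rw [mul_assoc]
      exact mul_le_of_le_one_left h0 (by linarith)
    have h3 : p * (1 + Real.exp c2) ≤ (Q - R) / 4 := by
      rw [← hAe]; exact mul_le_mul_of_nonneg_right hpA (by linarith)
    linarith

end Pool.Agent.Helper729_cluster
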