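import Mathlib
import Pool.Agent.Helper729_cluster.Defs2
import Pool.Agent.Helper729_cluster.Rho
import Pool.Agent.Helper729_cluster.Star

/-! Part of the proof of MP_b0b8df_co. -/

namespace Pool.Agent.Helper729_cluster

open Finset


/-- TARGET: sharp upper bound, p small. -/
theorem U2 (d : ℕ) (hd : 1 ≤ d) (ζ : ℝ) (hζ : 0 < ζ) (hζ1 : ζ ≤ 1 / 2) (ε : ℝ) (hε : 0 < ε)
    (hε1 : ε ≤ 1) :
    ∃ p0 : ℝ, 0 < p0 ∧ ∃ C : ℝ, 0 < C ∧ ∀ (α : Type) [DecidableEq α] (S : Finset α)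
      (F : Finset (Finset α)) (k : ℕ) (p : ℝ), 1 ≤ k → C * Real.log (1 / p) ≤ k →
      (k : ℝ) ≤ ((d : ℝ) / (d + 1) - ζ) * S.card →
      NoCl d ((((d : ℝ) + 1) / d + ζ) * k) F → 0 < p → p ≤ p0 →
      p ≤ (1 + ζ / 28) * ((k : ℝ) / S.card) →
      E p S (upF F) ≤ p * (1 + ε) := by
  have hδ : 0 < ζ / 28 := by positivity
  have hδ1 : ζ / 28 ≤ 1 := by linarith
  obtain ⟨c2, hc2, p0, hp0, hp04, hstar⟩ := star_exists d hd (ζ / 28) (ε / 4) hδ hδ1
    (by linarith) (by linarith)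
  have hd1 : (0 : ℝ) < (d : ℝ) + 1 := by positivity
  refine ⟨p0, hp0, max (4 * ((d : ℝ) + 1) / (c2 * ζ)) (16 * ((d : ℝ) + 1) / (ζ / 28 * ζ * ε)),
    lt_of_lt_of_le (by positivity) (le_max_left _ _), ?_⟩
  intro α _ S F k p hk hCk hkn hNo hp hpp hpk
  obtain ⟨hs1, z2, hz2, hz2', hs2⟩ := hstar p hp hpp
  by_contra hcon
  push Not at hcon
  set μ := E p S (upF F) with hμ
  have hpp1 : p < 1 := by linarith
  have hL : 0 < Real.log (1 / p) := Real.log_pos (by rw [lt_div_iff₀ hp]; linarith)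
  set L := Real.log (1 / p) with hLdef
  have hμ0 : 0 < μ := lt_trans (by positivity) hcon
  have hk0 : (0 : ℝ) < k := by exact_mod_cast hk
  have hn : 0 < S.card := by
    rcases Nat.eq_zero_or_pos S.card with h0 | h0
    · rw [h0] at hkn
      simp only [Nat.cast_zero, mul_zero] at hkn
      linarith
    · exact h0
  have hd' : (1 : ℝ) ≤ d := by exact_mod_cast hd
  have hP : (1 : ℝ) / 2 ≤ (d : ℝ) / (d + 1) := by
    rw [div_le_div_iff₀ (by norm_num) hd1]
    linarith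
  have hp' : (1 + ζ / 28) * p < (d : ℝ) / (d + 1) := by
    have h1 : (1 + ζ / 28) * p ≤ (1 + 1) * (1 / 4) := by
      -- strictness from 1 + ζ/28 < 2
      apply mul_le_mul (by linarith) (by linarith) hp.le (by norm_num)
    have h2 : (1 + ζ / 28) * p < (1 + 1) * (1 / 4) := by
      apply mul_lt_mul (by linarith) (by linarith) hp (by norm_num)
    linarith
  have hC1 : 4 * ((d : ℝ) + 1) / (c2 * ζ) * L ≤ k :=
    le_trans (mul_le_mul_of_nonneg_right (le_max_left _ _) hL.le) hCk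
  have hC2 : 16 * ((d : ℝ) + 1) / (ζ / 28 * ζ * ε) * L ≤ k :=
    le_trans (mul_le_mul_of_nonneg_right (le_max_right _ _) hL.le) hCk
  have hmFb : ((d : ℝ) + 1) * L ≤ c2 * (ζ * k / 4) := by
    have h1 : c2 * ζ / 4 * (4 * ((d : ℝ) + 1) / (c2 * ζ) * L) ≤ c2 * ζ / 4 * k :=
      mul_le_mul_of_nonneg_left hC1 (by positivity)
    have h2 : c2 * ζ / 4 * (4 * ((d : ℝ) + 1) / (c2 * ζ) * L) = ((d : ℝ) + 1) * L := by
      field_simp
    linarith
  have hy : (0 : ℝ) < ζ / 28 * (ζ * k / 4) := by positivity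
  have hexp : ((d : ℝ) + 1) * L * Real.exp (-(ζ / 28 * (ζ * k / 4))) ≤ ε / 4 := by
    have h1 : ((d : ℝ) + 1) * L ≤ ε / 4 * (ζ / 28 * (ζ * k / 4)) := by
      have h1 : (ζ / 28 * ζ * ε) / 16 * (16 * ((d : ℝ) + 1) / (ζ / 28 * ζ * ε) * L) ≤
          (ζ / 28 * ζ * ε) / 16 * k := mul_le_mul_of_nonneg_left hC2 (by positivity)
      have h2 : (ζ / 28 * ζ * ε) / 16 * (16 * ((d : ℝ) + 1) / (ζ / 28 * ζ * ε) * L) =
          ((d : ℝ) + 1) * L := by
        field_simp
      linarith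
    have h2 : ζ / 28 * (ζ * k / 4) ≤ Real.exp (ζ / 28 * (ζ * k / 4)) := by
      have := Real.add_one_le_exp (ζ / 28 * (ζ * k / 4))
      linarith
    rw [Real.exp_neg, ← div_eq_mul_inv, div_le_iff₀ (Real.exp_pos _)]
    refine le_trans h1 ?_
    exact mul_le_mul_of_nonneg_left h2 (by linarith)
  set s' : ℝ := (((d : ℝ) + 1) / d + ζ) * k - ζ * k / 4 with hs'
  have hB : 0 ≤ ((d : ℝ) + 1) * L * Real.exp (-(ζ / 28 * s')) := by positivity
  have hlogμ : ε / 2 ≤ Real.log μ + L := by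
    have h1 : Real.log μ + L = Real.log (μ / p) := by
      rw [hLdef, ← Real.log_mul hμ0.ne' (by positivity)]
      congr 1
      ring
    rw [h1]
    have h2 : 1 + ε < μ / p := by
      rw [lt_div_iff₀ hp]
      linarith
    have h3 : Real.log (1 + ε) ≤ Real.log (μ / p) := Real.log_le_log (by linarith) h2.le
    have h4 := Real.one_sub_inv_le_log_of_pos (show (0 : ℝ) < 1 + ε by linarith)
    have h5 : ε / 2 ≤ 1 - (1 + ε)⁻¹ := by
      have h6 : 1 - (1 + ε)⁻¹ = ε / (1 + ε) := by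
        field_simp
        ring
      rw [h6, div_le_div_iff₀ (by norm_num) (by linarith)]
      nlinarith
    linarith
  have hρ := rho_pow_le d hd ζ hζ hζ1 S.card S.card k le_rfl hn p (ζ / 28) hp.le hpk hδ le_rfl
  have hBρ : ((d : ℝ) + 1) * L * Real.exp (-(ζ / 28 * s')) *
      (1 + (1 + ζ / 28) * p / ((d : ℝ) / (d + 1)) * (Real.exp (ζ / 28) - 1)) ^ S.card ≤
      ε / 4 := by
    refine le_trans (mul_le_mul_of_nonneg_left hρ hB) ?_
    rw [mul_assoc, ← Real.exp_add]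
    have e : -(ζ / 28 * s') + ζ / 28 * ((((d : ℝ) + 1) / d + ζ / 2) * k) =
        -(ζ / 28 * (ζ * k / 4)) := by
      rw [hs']
      ring
    rw [e]
    exact hexp
  obtain ⟨A, mF, mN, -, hA, hemp, hcard, hmF, hmN⟩ := pm2 d hd p (ζ / 28) (ζ / 28)
    (((d : ℝ) + 1) * L * Real.exp (-(ζ / 28 * s'))) c2 (ε / 4) z2 hp hδ hp' hδ hB hc2
    (by linarith) hs1 hz2 hz2' hs2 S (fun _ => upF F) (fun _ => upF_mono F)
    (fun _ => upF_nonneg F) (fun _ => upF_le_one F) 0 0 (fun _ => hμ0) (by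
      simp only [Finset.sum_const, Finset.card_univ, Fintype.card_fin, nsmul_eq_mul, Nat.cast_add,
        Nat.cast_one, Nat.cast_zero, mul_zero, Real.exp_zero, mul_one, sub_zero]
      rw [← hμ, ← hLdef]
      have h1 : ((d : ℝ) + 1) * Real.log μ + ((d : ℝ) + 1) * L =
          ((d : ℝ) + 1) * (Real.log μ + L) := by ring
      have h2 : Real.log μ + L ≤ ((d : ℝ) + 1) * (Real.log μ + L) :=
        le_mul_of_one_le_left (by linarith) (by linarith)
      rw [h1]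
      linarith)
  have hun := hNo.union_lt A hA hemp
  have hcard' : ((univ.biUnion A).card : ℝ) ≤ (mF : ℝ) + mN := by exact_mod_cast hcard
  have hmF' : (mF : ℝ) ≤ ζ * k / 4 := by
    have h1 : c2 * (mF : ℝ) ≤ c2 * (ζ * k / 4) := by
      have : c2 * (((0 : ℕ) : ℝ) + (mF : ℝ)) = c2 * (mF : ℝ) := by
        simp
      rw [this] at hmF
      exact le_trans hmF hmFb
    exact le_of_mul_le_mul_left h1 hc2
  have hmN' : (mN : ℝ) ≤ s' := by
    by_contra hlt
    push Not at hlt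
    have h1 : ((d : ℝ) + 1) * L * Real.exp (-(ζ / 28 * s')) *
        Real.exp (ζ / 28 * (((0 : ℕ) : ℝ) + (mN : ℝ))) =
        ((d : ℝ) + 1) * L * Real.exp (ζ / 28 * ((mN : ℝ) - s')) := by
      rw [mul_assoc, ← Real.exp_add]
      congr 2
      push_cast
      ring
    rw [h1] at hmN
    have h2 : 1 < Real.exp (ζ / 28 * ((mN : ℝ) - s')) := by
      rw [Real.one_lt_exp_iff]
      have : 0 < (mN : ℝ) - s' := by linarith
      positivity
    have h3 : 0 < ((d : ℝ) + 1) * L := by positivity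
    exact absurd hmN (not_le.2 (lt_mul_of_one_lt_right h3 h2))
  rw [hs'] at hmN'
  linarith

end Pool.Agent.Helper729_cluster
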