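import Mathlib
import Pool.Agent.Helper729_cluster.U1
import Pool.Agent.Helper729_cluster.U2
import Pool.Agent.Helper729_cluster.NearStar
import Pool.Agent.Helper729_cluster.Boost
import Pool.Agent.Helper729_cluster.Boot2

/-! Assembly of the proof of MP_b0b8df_co. -/

namespace Pool.Agent.Helper729_cluster

open Finset

/-- In the range `1 ≤ k ≤ (d/(d+1) - ζ) n` one has `2 ≤ n`. -/
theorem two_le_card {d n k : ℕ} (hd : 1 ≤ d) {ζ : ℝ} (hζ : 0 < ζ) (hk : 1 ≤ k)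
    (hkn : (k : ℝ) ≤ ((d : ℝ) / (d + 1) - ζ) * n) : 2 ≤ n ∧ (k : ℝ) < n := by
  have hd0 : (0 : ℝ) < d := by exact_mod_cast hd
  have hP1 : (d : ℝ) / (d + 1) < 1 := by rw [div_lt_one (by positivity)]; linarith
  have hk1 : (1 : ℝ) ≤ k := by exact_mod_cast hk
  have hn0 : (0 : ℝ) ≤ n := Nat.cast_nonneg n
  have hn : (0 : ℝ) < n := by
    rcases hn0.eq_or_lt with h | h
    · rw [← h] at hkn; simp at hkn; linarith
    · exact h
  have h1 : (k : ℝ) < n := by nlinarith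
  refine ⟨?_, h1⟩
  have h2 : k < n := by exact_mod_cast h1
  omega

/-- Sharp upper bound in the whole range. -/
theorem U (d : ℕ) (hd : 1 ≤ d) (ζ : ℝ) (hζ : 0 < ζ) (hζ1 : ζ ≤ 1 / 2) (ε : ℝ) (hε : 0 < ε)
    (hε1 : ε ≤ 1) :
    ∃ C : ℝ, 0 < C ∧ ∀ (α : Type) [DecidableEq α] (S : Finset α) (F : Finset (Finset α)) (k : ℕ)
      (p : ℝ), 1 ≤ k → C * Real.log S.card ≤ k → (k : ℝ) ≤ ((d : ℝ) / (d + 1) - ζ) * S.card →
      NoCl d ((((d : ℝ) + 1) / d + ζ) * k) F → (k : ℝ) / S.card ≤ p →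
      p ≤ (1 + ζ / 28) * ((k : ℝ) / S.card) →
      E p S (upF F) ≤ p * (1 + ε) := by
  obtain ⟨p0, hp0, C2, hC2, H2⟩ := U2 d hd ζ hζ hζ1 ε hε hε1
  obtain ⟨C1, hC1, H1⟩ := U1 d hd ζ hζ hζ1 ε hε hε1 p0 hp0
  have hl2 : 0 < Real.log 2 := Real.log_pos (by norm_num)
  refine ⟨max C2 (C1 / Real.log 2), lt_max_of_lt_left hC2, ?_⟩
  intro α _ S F k p hk hCk hkn hcl hkp hp
  obtain ⟨hn2, hkn'⟩ := two_le_card hd hζ hk hkn
  have hn0 : (0 : ℝ) < S.card := by exact_mod_cast (by omega : 0 < S.card)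
  have hk1 : (1 : ℝ) ≤ k := by exact_mod_cast hk
  have hlogn : Real.log 2 ≤ Real.log S.card :=
    Real.log_le_log (by norm_num) (by exact_mod_cast hn2)
  have hppos : 0 < p := lt_of_lt_of_le (by positivity) hkp
  rcases le_total p p0 with h | h
  · refine H2 α S F k p hk ?_ hkn hcl hppos h hp
    have h1 : Real.log (1 / p) ≤ Real.log S.card := by
      refine Real.log_le_log (by positivity) ?_
      rw [div_le_iff₀ hppos]
      have : (k : ℝ) ≤ S.card * p := by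
        rw [div_le_iff₀ hn0] at hkp
        linarith
      linarith
    calc C2 * Real.log (1 / p) ≤ C2 * Real.log S.card := mul_le_mul_of_nonneg_left h1 hC2.le
      _ ≤ max C2 (C1 / Real.log 2) * Real.log S.card :=
        mul_le_mul_of_nonneg_right (le_max_left _ _) (by linarith)
      _ ≤ k := hCk
  · refine H1 α S F k p hk ?_ hkn hcl h hp
    calc C1 = C1 / Real.log 2 * Real.log 2 := by field_simp
      _ ≤ C1 / Real.log 2 * Real.log S.card := mul_le_mul_of_nonneg_left hlogn (by positivity)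
      _ ≤ max C2 (C1 / Real.log 2) * Real.log S.card :=
        mul_le_mul_of_nonneg_right (le_max_right _ _) (by linarith)
      _ ≤ k := hCk

/-- The tail term in the transfer. -/
theorem tail_le {n k η ξ : ℝ} (hk : 0 < k) (hη : 0 < η) (hη1 : η ≤ 1)
    (h1 : (1 + η ^ 2) * k ≤ n * ξ) (h2 : n * ξ ≤ (1 + η) * k) (hk0 : 16 / η ^ 6 ≤ k) :
    n * ξ / (n * ξ - k) ^ 2 ≤ η ^ 2 := by
  have h3 : η ^ 2 * k ≤ n * ξ - k := by linarith
  have h3' : 0 < η ^ 2 * k := by positivity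
  have h4 : (η ^ 2 * k) ^ 2 ≤ (n * ξ - k) ^ 2 := pow_le_pow_left₀ h3'.le h3 2
  have h5 : 0 < (n * ξ - k) ^ 2 := lt_of_lt_of_le (by positivity) h4
  rw [div_le_iff₀ h5]
  have h6 : 16 ≤ k * η ^ 6 := by rwa [div_le_iff₀ (by positivity)] at hk0
  have h7 : n * ξ ≤ 2 * k := by nlinarith
  calc n * ξ ≤ 2 * k := h7
    _ ≤ (k * η ^ 6) * k := by nlinarith
    _ = η ^ 2 * (η ^ 2 * k) ^ 2 := by ring
    _ ≤ η ^ 2 * (n * ξ - k) ^ 2 := mul_le_mul_of_nonneg_left h4 (by positivity)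

/-- The tail term in the transfer after deleting one point. -/
theorem tail_le' {n k η ξ : ℝ} (hk : 0 < k) (hη : 0 < η) (hη1 : η ≤ 1) (hξ : ξ ≤ 1)
    (h1 : (1 + η ^ 2) * k ≤ n * ξ) (h2 : n * ξ ≤ (1 + η) * k) (hξ0 : 0 ≤ ξ)
    (hk0 : 16 / η ^ 6 ≤ k) :
    k < (n - 1) * ξ ∧ (n - 1) * ξ / ((n - 1) * ξ - k) ^ 2 ≤ 1 / 2 := by
  have h6 : 16 ≤ k * η ^ 6 := by rwa [div_le_iff₀ (by positivity)] at hk0
  have e1 : η ^ 6 ≤ η ^ 4 := pow_le_pow_of_le_one hη.le hη1 (by norm_num)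
  have e2 : η ^ 6 ≤ η ^ 2 := pow_le_pow_of_le_one hη.le hη1 (by norm_num)
  have h7 : 16 ≤ k * η ^ 4 := h6.trans (mul_le_mul_of_nonneg_left e1 hk.le)
  have h8 : 16 ≤ k * η ^ 2 := h6.trans (mul_le_mul_of_nonneg_left e2 hk.le)
  have h3 : η ^ 2 * k / 2 ≤ (n - 1) * ξ - k := by nlinarith
  have h3' : 0 < η ^ 2 * k / 2 := by positivity
  refine ⟨by linarith, ?_⟩
  have h4 : (η ^ 2 * k / 2) ^ 2 ≤ ((n - 1) * ξ - k) ^ 2 := pow_le_pow_left₀ h3'.le h3 2
  have h5 : 0 < ((n - 1) * ξ - k) ^ 2 := lt_of_lt_of_le (by positivity) h4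
  rw [div_le_iff₀ h5]
  have h9 : (n - 1) * ξ ≤ 2 * k := by nlinarith
  calc (n - 1) * ξ ≤ 2 * k := h9
    _ ≤ 1 / 2 * ((k * η ^ 4) * k / 4) := by nlinarith
    _ = 1 / 2 * (η ^ 2 * k / 2) ^ 2 := by ring
    _ ≤ 1 / 2 * ((n - 1) * ξ - k) ^ 2 := mul_le_mul_of_nonneg_left h4 (by norm_num)

/-- `C(n-1,k-1)/C(n,k) = k/n`. -/
theorem choose_ratio {n k : ℕ} (hk : 1 ≤ k) (hn : k ≤ n) :
    ((n - 1).choose (k - 1) : ℝ) / (n.choose k : ℝ) = (k : ℝ) / n := by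
  obtain ⟨m, rfl⟩ : ∃ m, n = m + 1 := ⟨n - 1, by omega⟩
  obtain ⟨j, rfl⟩ : ∃ j, k = j + 1 := ⟨k - 1, by omega⟩
  have h := Nat.add_one_mul_choose_eq m j
  have hpos : (0 : ℝ) < ((m + 1).choose (j + 1) : ℝ) := by
    exact_mod_cast Nat.choose_pos hn
  have h' : ((m + 1 : ℕ) : ℝ) * (m.choose j : ℝ) = ((m + 1).choose (j + 1) : ℝ) * ((j + 1 : ℕ) : ℝ) := by
    exact_mod_cast h
  simp only [Nat.add_sub_cancel]
  rw [div_eq_div_iff hpos.ne' (by positivity)]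
  linarith

/-- The structural core: a large cluster-free family is contained in a star. -/
theorem core (d : ℕ) (hd : 1 ≤ d) (ζ : ℝ) (hζ : 0 < ζ) (hζ1 : ζ ≤ 1 / 2) :
    ∃ C : ℝ, 0 < C ∧ ∀ (α : Type) [DecidableEq α] (S : Finset α) (F : Finset (Finset α)) (k : ℕ),
      1 ≤ k → C * Real.log S.card ≤ k → (k : ℝ) ≤ ((d : ℝ) / (d + 1) - ζ) * S.card →
      (∀ A ∈ F, A ⊆ S ∧ A.card = k) → NoCl d ((((d : ℝ) + 1) / d + ζ) * k) F →
      (S.card - 1).choose (k - 1) ≤ F.card → ∃ x ∈ S, ∀ A ∈ F, x ∈ A := by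
  have hd0 : (0 : ℝ) < d := by exact_mod_cast hd
  have hd1 : (1 : ℝ) ≤ d := by exact_mod_cast hd
  obtain ⟨P, hP⟩ : ∃ P, P = (d : ℝ) / (d + 1) := ⟨_, rfl⟩
  have hP0 : 0 < P := by rw [hP]; positivity
  have hP1 : P < 1 := by rw [hP, div_lt_one (by positivity)]; linarith
  -- exponents
  obtain ⟨K0, hK0⟩ : ∃ K0, K0 = 2 * (d : ℝ) / ζ ^ 2 := ⟨_, rfl⟩
  have hK0pos : 0 < K0 := by rw [hK0]; positivity
  obtain ⟨η4, hη4, hη41, Cb, hCb, HB⟩ := boost d hd ζ hζ hζ1 (K0 + 1) (by linarith)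
  -- threshold density
  obtain ⟨κ0, hκ0⟩ : ∃ κ0, κ0 = min (P ^ 2 / 2) (1 / (2 ^ (K0 + 3) * (d : ℝ) ^ K0)) := ⟨_, rfl⟩
  have hdK : 0 < (d : ℝ) ^ K0 := Real.rpow_pos_of_pos hd0 _
  have h2K : 0 < (2 : ℝ) ^ (K0 + 3) := Real.rpow_pos_of_pos (by norm_num) _
  have hκ0pos : 0 < κ0 := by rw [hκ0]; exact lt_min (by positivity) (by positivity)
  obtain ⟨c0, hc0⟩ : ∃ c0, c0 = (κ0 / d) ^ K0 := ⟨_, rfl⟩
  have hc0pos : 0 < c0 := by rw [hc0]; exact Real.rpow_pos_of_pos (by positivity) _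
  obtain ⟨η, hη⟩ : ∃ η, η = min (min (ζ / 28) (1 / 10)) (min (η4 / 10) (c0 / 40)) := ⟨_, rfl⟩
  have hη0 : 0 < η := by
    rw [hη]; exact lt_min (lt_min (by positivity) (by norm_num)) (lt_min (by positivity) (by positivity))
  have hη1 : η ≤ ζ / 28 := by rw [hη]; exact (min_le_left _ _).trans (min_le_left _ _)
  have hη2 : η ≤ 1 / 10 := by rw [hη]; exact (min_le_left _ _).trans (min_le_right _ _)
  have hη3 : η ≤ η4 / 10 := by rw [hη]; exact (min_le_right _ _).trans (min_le_left _ _)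
  have hη5 : η ≤ c0 / 40 := by rw [hη]; exact (min_le_right _ _).trans (min_le_right _ _)
  have hηsq : 0 < η ^ 2 := by positivity
  have hηsq1 : η ^ 2 ≤ 1 := by nlinarith
  obtain ⟨CU, hCU, HU⟩ := U d hd ζ hζ hζ1 (η ^ 2) hηsq hηsq1
  obtain ⟨Cs, hCs, HS⟩ := bootstrap d hd ζ hζ hζ1
  have hl2 : 0 < Real.log 2 := Real.log_pos (by norm_num)
  refine ⟨max (max CU Cb) (max (Cs / Real.log 2) (16 / η ^ 6 / Real.log 2)),
    lt_max_of_lt_left (lt_max_of_lt_left hCU), ?_⟩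
  intro α _ S F k hk hCk hkn hF hcl hFc
  obtain ⟨hn2, hkn'⟩ := two_le_card hd hζ hk hkn
  have hlogn : Real.log 2 ≤ Real.log S.card :=
    Real.log_le_log (by norm_num) (by exact_mod_cast hn2)
  have hlogn0 : 0 ≤ Real.log S.card := by linarith
  obtain ⟨n, hn⟩ : ∃ n : ℝ, n = (S.card : ℝ) := ⟨_, rfl⟩
  have hn0 : 0 < n := by rw [hn]; exact_mod_cast (by omega : 0 < S.card)
  have hk1 : (1 : ℝ) ≤ k := by exact_mod_cast hk
  have hk0 : (0 : ℝ) < k := by linarith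
  have hkN : k < S.card := by exact_mod_cast hkn'
  -- the four consequences of the size of k
  have hCkU : CU * Real.log S.card ≤ k := le_trans (mul_le_mul_of_nonneg_right
    ((le_max_left _ _).trans (le_max_left _ _)) hlogn0) hCk
  have hCkb : Cb * Real.log S.card ≤ k := le_trans (mul_le_mul_of_nonneg_right
    ((le_max_right _ _).trans (le_max_left _ _)) hlogn0) hCk
  have hCks : Cs ≤ k := by
    calc Cs = Cs / Real.log 2 * Real.log 2 := by field_simp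
      _ ≤ Cs / Real.log 2 * Real.log S.card := mul_le_mul_of_nonneg_left hlogn (by positivity)
      _ ≤ k := le_trans (mul_le_mul_of_nonneg_right
        ((le_max_left _ _).trans (le_max_right _ _)) hlogn0) hCk
  have hCkη : 16 / η ^ 6 ≤ k := by
    calc 16 / η ^ 6 = 16 / η ^ 6 / Real.log 2 * Real.log 2 := by field_simp
      _ ≤ 16 / η ^ 6 / Real.log 2 * Real.log S.card :=
        mul_le_mul_of_nonneg_left hlogn (by positivity)
      _ ≤ k := le_trans (mul_le_mul_of_nonneg_right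
        ((le_max_right _ _).trans (le_max_right _ _)) hlogn0) hCk
  -- density
  obtain ⟨κ, hκ⟩ : ∃ κ : ℝ, κ = (k : ℝ) / S.card := ⟨_, rfl⟩
  have hκpos : 0 < κ := by rw [hκ, ← hn]; positivity
  have hκn : n * κ = k := by rw [hκ, ← hn]; field_simp
  have hκP : κ ≤ P - ζ := by
    rw [hκ, div_le_iff₀ (by rw [← hn]; exact hn0), hP]
    exact hkn
  have hκ1 : κ < 1 := by linarith
  have hηle : (1 + η) ≤ 1 + ζ / 28 := by linarith
  have hqq : (1 + η) ^ 2 * κ ≤ 1 := by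
    have h1 : (1 + η) ^ 2 ≤ 1 + ζ := by nlinarith
    have h2 : (1 + η) ^ 2 * κ ≤ (1 + ζ) * (1 - ζ) :=
      mul_le_mul h1 (by linarith) hκpos.le (by linarith)
    nlinarith
  -- facts about points of the window
  have hwin : ∀ ξ, (1 + η ^ 2) * κ ≤ ξ → ξ ≤ (1 + η) * κ →
      0 < ξ ∧ ξ ≤ 1 ∧ κ ≤ ξ ∧ (1 + η ^ 2) * k ≤ n * ξ ∧ n * ξ ≤ (1 + η) * k ∧
        ξ ≤ (1 + ζ / 28) * ((k : ℝ) / S.card) := by
    intro ξ h1 h2
    have h3 : κ ≤ ξ := le_trans (by nlinarith) h1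
    have h4 : 0 < ξ := by linarith
    have h5 : ξ ≤ 1 := by
      refine h2.trans (le_trans ?_ hqq)
      have : (1 + η) * κ * 1 ≤ (1 + η) * κ * (1 + η) :=
        mul_le_mul_of_nonneg_left (by linarith) (by positivity)
      nlinarith
    refine ⟨h4, h5, h3, ?_, ?_, ?_⟩
    · calc (1 + η ^ 2) * (k : ℝ) = n * ((1 + η ^ 2) * κ) := by rw [← hκn]; ring
        _ ≤ n * ξ := mul_le_mul_of_nonneg_left h1 hn0.le
    · calc n * ξ ≤ n * ((1 + η) * κ) := mul_le_mul_of_nonneg_left h2 hn0.le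
        _ = (1 + η) * k := by rw [← hκn]; ring
    · rw [← hκ]
      exact h2.trans (mul_le_mul_of_nonneg_right hηle hκpos.le)
  have hup : ∀ ξ, (1 + η ^ 2) * κ ≤ ξ → ξ ≤ (1 + η) * κ →
      E ξ S (upF F) ≤ ξ * (1 + η ^ 2) := by
    intro ξ h1 h2
    obtain ⟨w1, w2, w3, w4, w5, w6⟩ := hwin ξ h1 h2
    exact HU α S F k ξ hk hCkU hkn hcl (by rw [← hκ]; exact w3) w6
  have hFk : κ ≤ (F.card : ℝ) / (S.card.choose k : ℝ) := by
    rw [hκ, ← choose_ratio hk hkN.le]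
    have : ((S.card - 1).choose (k - 1) : ℝ) ≤ F.card := by exact_mod_cast hFc
    exact div_le_div_of_nonneg_right this (Nat.cast_nonneg _)
  have hlow : ∀ ξ, (1 + η ^ 2) * κ ≤ ξ → ξ ≤ (1 + η) * κ →
      κ * (1 - η ^ 2) ≤ E ξ S (upF F) := by
    intro ξ h1 h2
    obtain ⟨w1, w2, w3, w4, w5, w6⟩ := hwin ξ h1 h2
    have h3 := tail_le hk0 hη0 (by linarith) w4 w5 hCkη
    have h4 := transfer ξ w1.le w2 S F k hF (by
      rw [← hn]
      have : 0 < η ^ 2 * (k : ℝ) := by positivity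
      linarith)
    rw [← hn] at h4
    refine le_trans ?_ h4
    exact mul_le_mul hFk (by linarith) (by linarith) (by positivity)
  obtain ⟨ξ, hξ1, hξ2, x, hx, hx0, hx1⟩ := near_star S (upF F) (upF_mono F) (upF_zero_or_one F)
    κ η hκpos hη0 hη2 hqq hlow hup
  obtain ⟨w1, w2, w3, w4, w5, w6⟩ := hwin ξ hξ1.le hξ2.le
  refine ⟨x, hx, ?_⟩
  -- the part of F missing x
  have hBBsub : ∀ B ∈ F.filter (fun A => x ∉ A), B ⊆ S.erase x ∧ B.card = k := by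
    intro B hB
    rw [mem_filter] at hB
    refine ⟨?_, (hF B hB.1).2⟩
    intro y hy
    rw [mem_erase]
    exact ⟨fun h => hB.2 (h ▸ hy), (hF B hB.1).1 hy⟩
  have hcard : (S.erase x).card = S.card - 1 := card_erase_of_mem hx
  have hcardR : (((S.erase x).card : ℕ) : ℝ) = n - 1 := by
    rw [hcard, hn]
    push_cast [Nat.cast_sub (by omega : 1 ≤ S.card)]
    ring
  obtain ⟨ht1, ht2⟩ := tail_le' hk0 hη0 (by linarith) w2 w4 w5 w1.le hCkη
  have htr := transfer ξ w1.le w2 (S.erase x) (F.filter (fun A => x ∉ A)) k hBBsub (by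
    rw [hcardR]; exact ht1)
  have hup_eq : E ξ (S.erase x) (upF (F.filter (fun A => x ∉ A))) =
      E ξ (S.erase x) (upF F) := by
    apply E_congr
    intro A hA
    have hxA : x ∉ A := fun h => (mem_erase.1 (hA h)).1 rfl
    unfold upF
    have : (∃ B ∈ F.filter (fun A => x ∉ A), B ⊆ A) ↔ (∃ B ∈ F, B ⊆ A) := by
      constructor
      · rintro ⟨B, hB, hBA⟩
        exact ⟨B, (mem_filter.1 hB).1, hBA⟩
      · rintro ⟨B, hB, hBA⟩
        exact ⟨B, mem_filter.2 ⟨hB, fun h => hxA (hBA h)⟩, hBA⟩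
    simp only [this]
  rw [hup_eq, hcardR, hcard] at htr
  set μ : ℝ := ((F.filter (fun A => x ∉ A)).card : ℝ) / ((S.card - 1).choose k : ℝ) with hμ
  have hμ0 : 0 ≤ μ := by rw [hμ]; positivity
  have hμE : μ ≤ 2 * E ξ (S.erase x) (upF F) := by
    have h1 : μ * (1 / 2) ≤ μ * (1 - (n - 1) * ξ / ((n - 1) * ξ - k) ^ 2) :=
      mul_le_mul_of_nonneg_left (by linarith) hμ0
    linarith
  have hchoose : (0 : ℝ) < ((S.card - 1).choose k : ℝ) := by
    exact_mod_cast Nat.choose_pos (by omega)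
  have hμlt : μ < (κ / d) ^ K0 := by
    have hκd : (κ / d) ^ K0 = κ ^ K0 / (d : ℝ) ^ K0 := Real.div_rpow hκpos.le hd0.le K0
    rcases lt_or_ge κ κ0 with hlt | hge
    · -- sparse case
      have hξκ : ξ ≤ 2 * κ := by
        refine hξ2.le.trans (mul_le_mul_of_nonneg_right (by linarith) hκpos.le)
      have hξP : ξ ≤ ((d : ℝ) / (d + 1)) ^ 2 := by
        rw [← hP]
        have : κ0 ≤ P ^ 2 / 2 := by rw [hκ0]; exact min_le_left _ _
        linarith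
      have hb := HB α S F k ξ x hk hCkb hkn hcl (by rw [← hκ]; exact w3) w6 hξP hx (by linarith)
      have h3 : ξ ^ (K0 + 1) ≤ (2 * κ) ^ (K0 + 1) :=
        Real.rpow_le_rpow w1.le hξκ (by linarith)
      have h4 : (2 * κ) ^ (K0 + 1) = 2 ^ (K0 + 1) * (κ ^ K0 * κ) := by
        rw [Real.mul_rpow (by norm_num) hκpos.le, Real.rpow_add hκpos, Real.rpow_one]
      have h5 : (2 : ℝ) ^ (K0 + 3) = 4 * 2 ^ (K0 + 1) := by
        have : K0 + 3 = (K0 + 1) + 2 := by ring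
        rw [this, Real.rpow_add (by norm_num)]
        norm_num
        ring
      have h6 : κ < 1 / (2 ^ (K0 + 3) * (d : ℝ) ^ K0) := by
        refine hlt.trans_le ?_
        rw [hκ0]; exact min_le_right _ _
      have h7 : κ * (2 ^ (K0 + 3) * (d : ℝ) ^ K0) < 1 := by
        rwa [lt_div_iff₀ (by positivity)] at h6
      rw [hκd, lt_div_iff₀ hdK]
      have hκK : 0 < κ ^ K0 := Real.rpow_pos_of_pos hκpos _
      have h2K1 : 0 < (2 : ℝ) ^ (K0 + 1) := Real.rpow_pos_of_pos (by norm_num) _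
      calc μ * (d : ℝ) ^ K0 ≤ (2 * (2 ^ (K0 + 1) * (κ ^ K0 * κ))) * (d : ℝ) ^ K0 := by
            refine mul_le_mul_of_nonneg_right ?_ hdK.le
            rw [← h4]
            linarith
        _ = κ ^ K0 * ((κ * (2 ^ (K0 + 3) * (d : ℝ) ^ K0)) / 2) := by rw [h5]; ring
        _ < κ ^ K0 * 1 := mul_lt_mul_of_pos_left (by linarith) hκK
        _ = κ ^ K0 := mul_one _
    · -- dense case
      have h3 : c0 ≤ (κ / d) ^ K0 := by
        rw [hc0]
        exact Real.rpow_le_rpow (by positivity) (div_le_div_of_nonneg_right hge hd0.le) hK0pos.le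
      linarith
  have hempty : F.filter (fun A => x ∉ A) = ∅ := by
    refine HS α S F k x hx hk hCks hkn hF hcl hFc ?_
    rw [← hκ, ← hK0]
    rw [hμ, div_lt_iff₀ hchoose] at hμlt
    exact hμlt
  intro A hA
  by_contra hxA
  have : A ∈ F.filter (fun A => x ∉ A) := mem_filter.2 ⟨hA, hxA⟩
  rw [hempty] at this
  simp at this

end Pool.Agent.Helper729_cluster
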